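import Pool.Agent.Helper89_UW.Rep

/-!
# The representation is not of depth zero, even after a twist
-/

namespace Pool.Agent.UW

open Finset

namespace SkewLaurent

variable {L : Type} [Field L] {φ : RingAut L} {c : L}

theorem mulVec_rmul (A : M L φ) (v : Fin 2 → SkewLaurent L φ) (a : SkewLaurent L φ) :
    Matrix.mulVec A (fun j => v j * a) = fun j => Matrix.mulVec A v j * a := by
  funext i
  simp only [Matrix.mulVec, dotProduct, Fin.sum_univ_two]
  rw [add_mul, mul_assoc, mul_assoc]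

theorem mulVec_mem {A : M L φ} {v : Fin 2 → SkewLaurent L φ} {k m : ℤ} (hA : A ∈ MP L φ k)
    (hv : ∀ j, v j ∈ P L φ m) (i : Fin 2) : Matrix.mulVec A v i ∈ P L φ (k + m) := by
  simp only [Matrix.mulVec, dotProduct]
  exact sum_mem fun j _ => mul_mem_P (hA i j) (hv j)

/-- The uniformizer. -/
def pi (φ : RingAut L) (q : ℤ) : SkewLaurent L φ := mon φ q 1

theorem pi_mul (p q : ℤ) : pi φ p * pi φ q = pi φ (p + q) := by
  rw [pi, pi, mon_mul_mon, map_one, mul_one]
  rfl

theorem pi_zero : pi φ 0 = 1 := rfl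

/-- The chain at the multiples of the period. -/
theorem chain_period {Λ : ℤ → AddSubgroup (Fin 2 → SkewLaurent L φ)} {e : ℤ}
    (hper : ∀ i v, v ∈ Λ (i + e) ↔ ∃ w ∈ Λ i, v = fun j => w j * pi φ 1) (q : ℤ) :
    ∀ v, v ∈ Λ (q * e) ↔ ∃ w ∈ Λ 0, v = fun j => w j * pi φ q := by
  have hinj : ∀ {v w : Fin 2 → SkewLaurent L φ} {p : ℤ},
      (fun j => v j * pi φ 1) = (fun j => w j * pi φ p) → v = fun j => w j * pi φ (p - 1) := by
    intro v w p h
    funext j
    have h1 := congr_fun h j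
    have h2 : v j * pi φ 1 * pi φ (-1) = w j * pi φ p * pi φ (-1) := by
      rw [show v j * pi φ 1 = w j * pi φ p from h1]
    rw [mul_assoc, pi_mul, mul_assoc, pi_mul, show (1 : ℤ) + -1 = 0 by ring, pi_zero,
      mul_one] at h2
    exact h2
  induction q using Int.induction_on with
  | zero =>
    intro v
    rw [zero_mul]
    constructor
    · intro h
      refine ⟨v, h, ?_⟩
      funext j
      rw [pi_zero, mul_one]
    · rintro ⟨w, hw, rfl⟩
      simp only [pi_zero, mul_one]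
      exact hw
  | succ q ih =>
    intro v
    rw [show ((q : ℤ) + 1) * e = q * e + e by ring, hper]
    constructor
    · rintro ⟨w, hw, rfl⟩
      obtain ⟨w', hw', rfl⟩ := (ih w).1 hw
      refine ⟨w', hw', ?_⟩
      funext j
      rw [mul_assoc, pi_mul]
    · rintro ⟨w, hw, rfl⟩
      refine ⟨_, (ih _).2 ⟨w, hw, rfl⟩, ?_⟩
      funext j
      rw [mul_assoc, pi_mul]
  | pred q ih =>
    intro v
    have h1 := hper ((-(q : ℤ) - 1) * e) (fun j => v j * pi φ 1)
    rw [show (-(q : ℤ) - 1) * e + e = -(q : ℤ) * e by ring] at h1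
    constructor
    · intro h
      obtain ⟨w, hw, hw1⟩ := (ih _).1 (h1.2 ⟨v, h, rfl⟩)
      exact ⟨w, hw, hinj hw1⟩
    · rintro ⟨w, hw, rfl⟩
      have h2 : (fun j => w j * pi φ (-(q : ℤ) - 1) * pi φ 1) = fun j => w j * pi φ (-(q : ℤ)) := by
        funext j
        rw [mul_assoc, pi_mul, sub_add_cancel]
      have h4 := h1.1 (by
        show (fun j => w j * pi φ (-(q : ℤ) - 1) * pi φ 1) ∈ _
        rw [h2]
        exact (ih _).2 ⟨w, hw, rfl⟩)
      obtain ⟨u, hu, hu1⟩ := h4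
      have h5 := hinj (p := 1) hu1
      rw [sub_self] at h5
      rw [h5]
      simp only [pi_zero, mul_one]
      exact hu

variable [Fact (∀ r : L, r ^ 2 ≠ c + 0 * r)] {hc : φ c = c} {χ : AddChar L ℂ}

/-- The identification of `D²` with `D'`. -/
noncomputable def colV (hc : φ c = c) (v : Fin 2 → SkewLaurent L φ) : Dq hc :=
  pair hc (v 0) (Cc φ c⁻¹ * v 1)

theorem colV_inj {v w : Fin 2 → SkewLaurent L φ} (h : colV hc v = colV hc w) : v = w := by
  have h0 : v 0 = w 0 := by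
    have h1 : Re (colV hc v) = Re (colV hc w) := by rw [h]
    exact h1
  have h1 : v 1 = w 1 := by
    have h1 : Im (colV hc v) = Im (colV hc w) := by rw [h]
    rw [colV, colV, Im_pair, Im_pair] at h1
    rw [← Cc_inv c (v 1), h1, Cc_inv]
  funext j
  fin_cases j
  · exact h0
  · exact h1

theorem colV_iota (w : Dq hc) (v : Fin 2 → SkewLaurent L φ) :
    colV hc (Matrix.mulVec (iota hc w) v) = w * colV hc v := by
  have h := colW_iota_mul w !![v 0, 0; v 1, 0]
  have h1 : colW hc (!![v 0, 0; v 1, 0] : M L φ) = colV hc v := rfl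
  have h2 : colW hc (iota hc w * !![v 0, 0; v 1, 0]) = colV hc (Matrix.mulVec (iota hc w) v) := by
    rw [colW, colV]
    simp only [Matrix.mul_apply, Matrix.mulVec, dotProduct, Fin.sum_univ_two]
    rfl
  rw [← h2, h, h1]

theorem colV_mem {v : Fin 2 → SkewLaurent L φ} {m : ℤ} :
    colV hc v ∈ P _ _ m ↔ ∀ j, v j ∈ P L φ m := by
  rw [mem_P_iff]
  constructor
  · rintro ⟨h1, h2⟩ j
    fin_cases j
    · exact h1
    · have h4 := Cc_mem (c := c) h2
      rwa [colV, Im_pair, Cc_inv] at h4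
  · intro h
    exact ⟨h 0, Cc_mem (h 1)⟩

omit [Fact (∀ r : L, r ^ 2 ≠ c + 0 * r)] in
/-- Unipotent matrices are commutators. -/
theorem char_n (ξ : G L φ →* ℂˣ) (z : SkewLaurent L φ) : ξ (n z) = 1 := by
  have hpi : pi φ 1 ≠ 0 := mon_ne_zero one_ne_zero
  set y : (SkewLaurent L φ)ˣ := Units.mk0 (pi φ 1) hpi with hy
  have hy1 : ((y⁻¹ : (SkewLaurent L φ)ˣ) : SkewLaurent L φ) - 1 ≠ 0 := by
    intro h
    rw [sub_eq_zero] at h
    have h1 : (y : SkewLaurent L φ) * ((y⁻¹ : (SkewLaurent L φ)ˣ) : SkewLaurent L φ) = 1 :=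
      y.mul_inv
    rw [h, mul_one] at h1
    have h2 : (y : SkewLaurent L φ).coeff 0 = 0 := by
      show (mon φ 1 (1 : L)).coeff 0 = 0
      rw [mon_coeff, if_neg (by norm_num)]
    rw [h1, coeff_one, if_pos rfl] at h2
    exact one_ne_zero h2
  set x : SkewLaurent L φ := z * (((y⁻¹ : (SkewLaurent L φ)ˣ) : SkewLaurent L φ) - 1)⁻¹ with hx
  have h1 : n z = d y * n x * (d y)⁻¹ * (n x)⁻¹ := by
    rw [d_mul_n, mul_inv_cancel_right, ← n_neg, ← n_add]
    congr 1
    have h2 : x * (((y⁻¹ : (SkewLaurent L φ)ˣ) : SkewLaurent L φ) - 1) = z := by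
      rw [hx, inv_mul_cancel_right₀ hy1]
    rw [mul_sub, mul_one] at h2
    rw [← h2, sub_eq_add_neg]
  rw [h1, map_mul, map_mul, map_mul, map_inv, map_inv]
  rw [mul_comm (ξ (d y)) (ξ (n x)), mul_inv_cancel_right, mul_inv_cancel]

theorem no_fixed (h3 : ∀ z, φ (φ (φ z)) = z) (hψ1 : trChar φ χ ≠ 1) (ξ : G L φ →* ℂˣ)
    (Λ : ℤ → AddSubgroup (Fin 2 → SkewLaurent L φ)) (e : ℤ) (he : 0 < e)
    (hmod : ∀ v ∈ Λ 0, ∀ a ∈ P L φ 0, (fun j => v j * a) ∈ Λ 0)
    (hbdd : ∃ k : ℤ, ∀ v ∈ Λ 0, ∀ j, v j ∈ P L φ k)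
    (hne : ∃ v ∈ Λ 0, v ≠ 0)
    (hanti : ∀ i, Λ (i + 1) ≤ Λ i)
    (hper : ∀ i v, v ∈ Λ (i + e) ↔ ∃ w ∈ Λ i, v = fun j => w j * pi φ 1)
    (f : Vs hc χ) (hf : f ≠ 0)
    (hfix : ∀ g : G L φ, (∀ i, ∀ v ∈ Λ i, Matrix.mulVec ((g : M L φ) - 1) v ∈ Λ (i + 1)) →
      (ξ g : ℂ) • rho hc χ g f = f) : False := by
  classical
  obtain ⟨h, hh⟩ : ∃ h : G L φ, (f : G L φ → ℂ) h ≠ 0 := by
    by_contra hcon
    push Not at hcon
    exact hf (Subtype.ext (funext hcon))
  -- a vector of minimal order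
  obtain ⟨kh, hkh⟩ := exists_MP (h : M L φ)
  obtain ⟨k, hk⟩ := hbdd
  have hmv : ∀ v, v ≠ 0 → colV hc (Matrix.mulVec (h : M L φ) v) ≠ 0 := by
    intro v hv h0
    apply hv
    have h1 : Matrix.mulVec (h : M L φ) v = 0 := by
      apply colV_inj (hc := hc)
      rw [h0]
      apply eq_of_Re_Im
      · rfl
      · rw [colV, Im_pair]
        show _ = Cc φ c⁻¹ * 0
        rw [mul_zero]
        rfl
    have h2 : Matrix.mulVec ((h⁻¹ : G L φ) : M L φ) (Matrix.mulVec (h : M L φ) v) = v := by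
      rw [Matrix.mulVec_mulVec, Units.inv_mul, Matrix.one_mulVec]
    rw [← h2, h1, Matrix.mulVec_zero]
  obtain ⟨m, ⟨v1, hv1, hv10, hm⟩, hmin⟩ := Int.exists_least_of_bdd
    (P := fun m => ∃ v ∈ Λ 0, v ≠ 0 ∧ ord (colV hc (Matrix.mulVec (h : M L φ) v)) = m)
    ⟨kh + k, by
      rintro m ⟨v, hv, hv0, rfl⟩
      apply le_ord (hmv v hv0)
      rw [colV_mem]
      exact mulVec_mem hkh (hk v hv)⟩
    (by
      obtain ⟨v, hv, hv0⟩ := hne
      exact ⟨_, v, hv, hv0, rfl⟩)
  set δ : (Dq hc)ˣ := Units.mk0 _ (hmv v1 hv10) with hδ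
  -- a unipotent matrix
  obtain ⟨z, hz, hz1⟩ : ∃ z ∈ P L φ 3, Ps φ χ (tau φ c * z) ≠ 1 := by
    apply exists_Psi_ne hψ1
    intro h
    have h1 := h (-3) (by norm_num)
    rw [tau, mon_coeff, if_pos rfl] at h1
    exact c_ne_zero c h1
  set j : G L φ := iu hc δ * n z * (iu hc δ)⁻¹ with hj
  set g : G L φ := h⁻¹ * j * h with hg
  have he1 : ∀ b : SkewLaurent L φ, Matrix.mulVec (iota hc (δ : Dq hc)) ![b, 0] =
      fun i => Matrix.mulVec (h : M L φ) v1 i * b := by
    intro b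
    have h1 : Matrix.mulVec (iota hc (δ : Dq hc)) ![1, 0] = Matrix.mulVec (h : M L φ) v1 := by
      apply colV_inj (hc := hc)
      rw [colV_iota]
      have h2 : colV hc (![1, 0] : Fin 2 → SkewLaurent L φ) = 1 := by
        apply eq_of_Re_Im
        · rw [Re_one]
          rfl
        · rw [Im_one, colV, Im_pair]
          show Cc φ c⁻¹ * 0 = 0
          rw [mul_zero]
      rw [h2, mul_one]
      rfl
    have h2 : (![b, 0] : Fin 2 → SkewLaurent L φ) = fun i => (![1, 0] : Fin 2 → _) i * b := by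
      funext i
      fin_cases i
      · exact (one_mul b).symm
      · exact (zero_mul b).symm
    rw [h2, mulVec_rmul, h1]
  have hkey : ∀ v ∈ Λ 0, ∃ b ∈ P L φ 3, Matrix.mulVec ((g : M L φ) - 1) v =
      fun i => v1 i * b := by
    intro v hv
    set v2 := Matrix.mulVec (iota hc ((δ : Dq hc)⁻¹)) (Matrix.mulVec (h : M L φ) v) with hv2
    have h1 : ∀ i, v2 i ∈ P L φ 0 := by
      rw [← colV_mem (hc := hc), hv2, colV_iota]
      by_cases hv0 : v = 0
      · rw [hv0, Matrix.mulVec_zero]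
        have h2 : colV hc (0 : Fin 2 → SkewLaurent L φ) = 0 := by
          apply eq_of_Re_Im
          · rfl
          · rw [colV, Im_pair]
            show Cc φ c⁻¹ * 0 = _
            rw [mul_zero]
            rfl
        rw [h2, mul_zero]
        exact zero_mem _
      · have h2 := hmin _ ⟨v, hv, hv0, rfl⟩
        have h4 : ord (δ : Dq hc) = m := hm
        have h5 := mul_mem_P (inv_mem_ord δ.ne_zero) (ord_mem (hmv v hv0))
        rw [h4] at h5
        exact P_anti (by lia) h5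
    refine ⟨z * v2 1, P_anti (by norm_num) (mul_mem_P hz (h1 1)), ?_⟩
    have h2 : (g : M L φ) - 1 = ((h⁻¹ : G L φ) : M L φ) * (iota hc (δ : Dq hc) *
        (((n z : G L φ) : M L φ) - 1) * (iota hc ((δ : Dq hc)⁻¹) * (h : M L φ))) := by
      have h4 : (((iu hc δ)⁻¹ : G L φ) : M L φ) = iota hc ((δ : Dq hc)⁻¹) := by
        rw [← map_inv, iu_val, Units.val_inv_eq_inv_val]
      have h5 : iota hc (δ : Dq hc) * iota hc ((δ : Dq hc)⁻¹) = 1 := by
        rw [← map_mul, mul_inv_cancel₀ δ.ne_zero, map_one]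
      rw [hg, hj]
      simp only [Units.val_mul, iu_val, h4]
      rw [mul_sub, mul_one, sub_mul, ← mul_assoc (iota hc (δ : Dq hc)) (iota hc _), h5, one_mul,
        mul_sub, Units.inv_mul]
      simp only [mul_assoc]
    rw [h2, ← Matrix.mulVec_mulVec, ← Matrix.mulVec_mulVec, ← Matrix.mulVec_mulVec,
      ← Matrix.mulVec_mulVec, ← hv2]
    have h4 : Matrix.mulVec (((n z : G L φ) : M L φ) - 1) v2 = ![z * v2 1, 0] := by
      rw [n_val, Matrix.one_fin_two]
      funext i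
      simp only [Matrix.mulVec, dotProduct, Fin.sum_univ_two]
      fin_cases i
      · show (1 - 1) * v2 0 + (z - 0) * v2 1 = z * v2 1
        rw [sub_self, zero_mul, zero_add, sub_zero]
      · show (0 - 0) * v2 0 + (1 - 1) * v2 1 = 0
        rw [sub_self, sub_self, zero_mul, zero_mul, add_zero]
    rw [h4, he1, mulVec_rmul, Matrix.mulVec_mulVec, Units.inv_mul, Matrix.one_mulVec]
  have hgU : ∀ i, ∀ v ∈ Λ i, Matrix.mulVec ((g : M L φ) - 1) v ∈ Λ (i + 1) := by
    intro i v hv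
    have hle : ∀ (p : ℕ) (i : ℤ), Λ (i + p) ≤ Λ i := by
      intro p
      induction p with
      | zero =>
        intro i
        simp
      | succ p ih =>
        intro i
        refine le_trans ?_ (ih i)
        have := hanti (i + p)
        rwa [add_assoc] at this
    set q := i / e with hq
    have h1 : v ∈ Λ (q * e) := by
      have h2 : i = q * e + ((i % e).toNat : ℤ) := by
        rw [Int.toNat_of_nonneg (Int.emod_nonneg i he.ne'), hq, mul_comm]
        exact (Int.mul_ediv_add_emod i e).symm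
      rw [h2] at hv
      exact hle _ _ hv
    obtain ⟨w, hw, rfl⟩ := (chain_period hper q v).1 h1
    obtain ⟨b, hb, hb1⟩ := hkey w hw
    rw [mulVec_rmul, hb1]
    have h2 : (fun j => v1 j * b * pi φ q) ∈ Λ ((q + 1) * e) := by
      rw [chain_period hper (q + 1)]
      refine ⟨fun j => v1 j * (b * pi φ (-1)), hmod v1 hv1 _ ?_, ?_⟩
      · exact P_anti (by norm_num) (mul_mem_P hb (mon_mem (φ := φ) (-1) (1 : L)))
      · funext j
        rw [mul_assoc, mul_assoc, mul_assoc, pi_mul]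
        congr 3
        lia
    have h4 : i + 1 + ((e - 1 - i % e).toNat : ℤ) = (q + 1) * e := by
      have h5 := Int.emod_lt_of_pos i he
      rw [Int.toNat_of_nonneg (by lia)]
      have h6 := Int.mul_ediv_add_emod i e
      rw [hq]
      linear_combination (-1 : ℤ) * h6
    rw [← h4] at h2
    exact hle _ _ h2
  have h1 := hfix g hgU
  have h2 : (ξ g : ℂ) * (f : G L φ → ℂ) (h * g) = (f : G L φ → ℂ) h := by
    have h4 := congr_fun (congr_arg Subtype.val h1) h
    exact h4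
  have h4 : h * g = j * h := by
    rw [hg]
    group
  have hjJ : InJ hc j := InJ_mul (InJ_mul (InJ_iu δ)
    (InJ_of_InU (InU_n (P_anti (by norm_num) hz)))) (InJ_inv (InJ_iu δ))
  have h5 : Lam hc χ j = Ps φ χ (tau φ c * z) := by
    have h6 : Lam hc χ (iu hc δ * (iu hc δ)⁻¹) = 1 := by rw [mul_inv_cancel, Lam_one h3]
    rw [Lam_mul h3 χ (InJ_iu δ)] at h6
    rw [hj, mul_assoc, Lam_mul h3 χ (InJ_iu δ),
      Lam_mul h3 χ (InJ_of_InU (InU_n (P_anti (by norm_num) hz))),
      Lam_n h3 (P_anti (by norm_num) hz)]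
    linear_combination (Ps φ χ (tau φ c * z)) * h6
  have h6 : ξ g = 1 := by
    rw [hg, hj, map_mul, map_mul, map_mul, map_mul, char_n, map_inv, map_inv, mul_one,
      mul_inv_cancel, mul_one, inv_mul_cancel]
  rw [h4, Vs_equiv h3 f.2 hjJ, h5, h6, Units.val_one, one_mul] at h2
  have h7 : (Ps φ χ (tau φ c * z) - 1) * (f : G L φ → ℂ) h = 0 := by
    linear_combination h2
  rcases mul_eq_zero.1 h7 with h8 | h8
  · exact hz1 (sub_eq_zero.1 h8)
  · exact hh h8

end SkewLaurent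

end Pool.Agent.UW
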