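import Pool.Agent.Helper89_UW.F
import Mathlib.Analysis.Fourier.FiniteAbelian.PontryaginDuality
import Mathlib.NumberTheory.LegendreSymbol.AddCharacter
import Mathlib.RingTheory.Trace.Basic

/-!
# The reduced trace and the self-duality of `D`
-/

namespace Pool.Agent.UW

open Finset

section finite

variable {L : Type} [Field L]

theorem exists_shift [Finite L] {ψ : AddChar L ℂ} (hψ : ψ ≠ 1) (θ : AddChar L ℂ) :
    ∃ b : L, ∀ a, θ a = ψ (b * a) := by
  have := Fintype.ofFinite L
  have h1 : Function.Injective (fun b : L => ψ.mulShift b) :=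
    AddChar.to_mulShift_inj_of_isPrimitive (AddChar.IsPrimitive.of_ne_one hψ)
  have h2 : Function.Bijective (fun b : L => ψ.mulShift b) := by
    rw [Fintype.bijective_iff_injective_and_card]
    exact ⟨h1, AddChar.card_eq.symm⟩
  obtain ⟨b, hb⟩ := h2.2 θ
  refine ⟨b, fun a => ?_⟩
  rw [← hb]
  rfl

theorem exists_chi [Finite L] {φ : RingAut L} (h3 : ∀ z, φ (φ (φ z)) = z)
    (hφ : ∃ a, φ a ≠ a) : ∃ χ : AddChar L ℂ, SkewLaurent.trChar φ χ ≠ 1 := by
  obtain ⟨z, hz⟩ : ∃ z, SkewLaurent.tr φ z ≠ 0 := by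
    by_contra hcon
    push Not at hcon
    obtain ⟨a, ha⟩ := hφ
    have h1 : ∀ z, z + φ z + φ (φ z) = 0 := hcon
    have h2 : ∀ z, (a - φ (φ a)) * z + (φ a - φ (φ a)) * φ z = 0 := by
      intro z
      have e1 := h1 (a * z)
      simp only [map_mul] at e1
      linear_combination e1 - φ (φ a) * h1 z
    have h4 := h2 1
    rw [map_one] at h4
    have h5 : (a - φ (φ a)) * (a - φ a) = 0 := by
      linear_combination h2 a - φ a * h4
    rcases mul_eq_zero.1 h5 with h6 | h6
    · apply ha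
      have h7 : φ a = φ (φ (φ a)) := by
        conv_lhs => rw [sub_eq_zero.1 h6]
      rw [h7, h3]
    · exact ha (sub_eq_zero.1 h6).symm
  obtain ⟨χ, hχ⟩ := AddChar.exists_apply_ne_zero.2 hz
  refine ⟨χ, fun h => hχ ?_⟩
  have h1 := DFunLike.congr_fun h z
  rw [SkewLaurent.trChar_apply] at h1
  rw [h1]
  rfl

end finite

namespace SkewLaurent

section dual

variable {L : Type} [Field L] {φ : RingAut L}

/-- The self-duality of `D`. -/
theorem dual [Finite L] {ψ : AddChar L ℂ} (hψ : ∀ x, ψ (φ x) = ψ x) (hψ1 : ψ ≠ 1)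
    (Φ : AddChar (SkewLaurent L φ) ℂ) {N : ℤ} (hN : ∀ z ∈ P L φ N, Φ z = 1) :
    ∃ κ : SkewLaurent L φ, ∀ z, Φ z = Psi φ ψ (κ * z) := by
  classical
  have h1 : ∀ i : ℤ, ∃ b : L, (N ≤ i → b = 0) ∧ ∀ a, Φ (mon φ i a) = ψ (b * a) := by
    intro i
    by_cases hi : N ≤ i
    · refine ⟨0, fun _ => rfl, fun a => ?_⟩
      rw [zero_mul, AddChar.map_zero_eq_one]
      exact hN _ (P_anti hi (mon_mem _ _))
    · let θ : AddChar L ℂ :=
        { toFun := fun a => Φ (mon φ i a)
          map_zero_eq_one' := by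
            have h : mon φ i (0 : L) = 0 := by
              ext j
              rw [mon_coeff, ite_self, coeff_zero]
            rw [h, AddChar.map_zero_eq_one]
          map_add_eq_mul' := fun a b => by rw [mon_add, AddChar.map_add_eq_mul] }
      obtain ⟨b, hb⟩ := exists_shift hψ1 θ
      exact ⟨b, fun h => absurd h hi, fun a => hb a⟩
  choose b hb0 hb using h1
  set κ : SkewLaurent L φ := ⟨fun j => (φ ^ j) (b (-j)), 1 - N, fun j hj => by
    rw [hb0 _ (by lia), map_zero]⟩ with hκ
  have hκm : κ ∈ P L φ (1 - N) := fun j hj => by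
    show (φ ^ j) (b (-j)) = 0
    rw [hb0 _ (by lia), map_zero]
  have hmon : ∀ i a, Φ (mon φ i a) = Psi φ ψ (κ * mon φ i a) := by
    intro i a
    rw [hb, Psi_apply, mul_mon_coeff, zero_sub]
    show ψ (b i * a) = ψ ((φ ^ (-i)) (b (- -i)) * (φ ^ (-i)) a)
    rw [neg_neg, ← map_mul, zpow_inv_char hψ]
  have key : ∀ p : ℕ, ∀ z ∈ P L φ (N - p), Φ z = Psi φ ψ (κ * z) := by
    intro p
    induction p with
    | zero =>
      intro z hz
      rw [Nat.cast_zero, sub_zero] at hz
      rw [hN z hz, Psi_one]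
      exact P_anti (by lia) (mul_mem_P hκm hz)
    | succ p ih =>
      intro z hz
      set i : ℤ := N - (p + 1 : ℕ) with hi
      have h2 : z = mon φ i (z.coeff i) + (z - mon φ i (z.coeff i)) := by abel
      have h4 : z - mon φ i (z.coeff i) ∈ P L φ (N - p) := by
        intro j hj
        rw [coeff_sub, mon_coeff]
        split_ifs with h5
        · rw [h5, sub_self]
        · rw [hz j (by push_cast at hi; lia), sub_zero]
      rw [h2, AddChar.map_add_eq_mul, mul_add, AddChar.map_add_eq_mul, hmon, ih _ h4]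
  refine ⟨κ, fun z => ?_⟩
  obtain ⟨k, hk⟩ := exists_mem_P z
  exact key (N - k).toNat z (P_anti (by lia) hk)

end dual

variable {K L : Type} [Field K] [Field L] [Algebra K L]

/-- The reduced trace: the coefficient of `t^i` is the trace of the coefficient of `ϖ^{3i}`. -/
noncomputable def Trd (φ : L ≃ₐ[K] L) : Dv φ →+ LaurentSeries K where
  toFun x := mkL (fun i => Algebra.trace K L (x.coeff (3 * i))) (by
    obtain ⟨m, hm⟩ := x.bdd
    refine ⟨min m 0, fun i hi => ?_⟩
    rw [hm _ (by lia), map_zero])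
  map_zero' := by
    ext i
    show Algebra.trace K L 0 = 0
    exact map_zero _
  map_add' x y := by
    ext i
    show Algebra.trace K L (x.coeff (3 * i) + y.coeff (3 * i)) = _
    rw [map_add]
    rfl

theorem Trd_coeff (φ : L ≃ₐ[K] L) (x : Dv φ) (i : ℤ) :
    (Trd φ x).coeff i = Algebra.trace K L (x.coeff (3 * i)) := rfl

theorem Trd_surjective [FiniteDimensional K L] [Algebra.IsSeparable K L] (φ : L ≃ₐ[K] L) :
    Function.Surjective (Trd φ) := by
  intro f
  obtain ⟨s, hs⟩ := Algebra.trace_surjective K L 1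
  obtain ⟨m, hm⟩ := laurent_bdd f
  refine ⟨⟨fun i => if 3 ∣ i then f.coeff (i / 3) • s else 0, 3 * m, fun i hi => ?_⟩, ?_⟩
  · split_ifs
    · rw [hm _ (by lia), zero_smul]
    · rfl
  · ext i
    show Algebra.trace K L (if 3 ∣ 3 * i then f.coeff (3 * i / 3) • s else 0) = f.coeff i
    rw [if_pos ⟨i, rfl⟩, map_smul, hs, smul_eq_mul, mul_one]
    congr 1
    lia

/-- A nonsquare of `K` is a nonsquare of `L`. -/
theorem nonsquare (hfin : Module.finrank K L = 3) {φ : L ≃ₐ[K] L} (hφ : φ ≠ 1)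
    (h2 : (2 : K) ≠ 0) {c : K} (hc : ¬ IsSquare c) (r : L) :
    r ^ 2 ≠ algebraMap K L c + 0 * r := by
  intro h
  have h3 := ring_three hfin hφ
  have hfix := (order_three hfin hφ).2
  rw [zero_mul, add_zero] at h
  have h4 : φ r ^ 2 = r ^ 2 := by
    rw [← map_pow, h, AlgEquiv.commutes]
  have hsq : ∀ r : L, r ^ 2 = algebraMap K L c → φ r = r → False := by
    intro r h h5
    obtain ⟨a, ha⟩ := hfix r h5
    apply hc
    refine ⟨a, ?_⟩
    apply (algebraMap K L).injective
    rw [← h, ← ha, map_mul, sq]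
  rcases sq_eq_sq_iff_eq_or_eq_neg.1 h4 with h5 | h5
  · exact hsq r h h5
  · have h6 : φ (φ (φ r)) = -r := by
      rw [h5, map_neg, map_neg, h5, map_neg, neg_neg, h5]
    have h7 : φ (φ (φ r)) = r := h3 r
    rw [h7] at h6
    have h8 : (2 : L) * r = 0 := by linear_combination h6
    have h9 : (2 : L) ≠ 0 := by
      have h10 : algebraMap K L 2 ≠ 0 := (map_ne_zero _).2 h2
      rwa [map_ofNat] at h10
    have h10 := (mul_eq_zero.1 h8).resolve_left h9
    exact hsq r h (by rw [h10, map_zero])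

end SkewLaurent

end Pool.Agent.UW
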