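import Pool.Agent.Helper89_UW.Depth
import Mathlib.RingTheory.LaurentSeries
import Mathlib.FieldTheory.Galois.Basic
import Mathlib.Algebra.Central.Defs

/-!
# The centre of `D`
-/

namespace Pool.Agent.UW

open Finset

section galois

variable {K L : Type} [Field K] [Field L] [Algebra K L]

theorem order_three (h3 : Module.finrank K L = 3) {φ : L ≃ₐ[K] L} (hφ : φ ≠ 1) :
    orderOf φ = 3 ∧ ∀ x : L, φ x = x → ∃ a : K, algebraMap K L a = x := by
  have : FiniteDimensional K L := FiniteDimensional.of_finrank_pos (by rw [h3]; norm_num)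
  set E := IntermediateField.fixedField (Subgroup.zpowers φ) with hE
  have h1 : Module.finrank E L = orderOf φ := by
    rw [IntermediateField.finrank_fixedField_eq_card, Nat.card_zpowers]
  have h2 : Module.finrank K E * Module.finrank E L = 3 := by
    rw [Module.finrank_mul_finrank, h3]
  have h4 : orderOf φ = 3 := by
    rw [h1] at h2
    have h5 : orderOf φ ∣ 3 := ⟨_, by rw [mul_comm]; exact h2.symm⟩
    rcases (Nat.dvd_prime Nat.prime_three).1 h5 with h | h
    · exact absurd (orderOf_eq_one_iff.1 h) hφ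
    · exact h
  refine ⟨h4, fun x hx => ?_⟩
  have h5 : Module.finrank K E = 1 := by
    rw [h1, h4] at h2
    lia
  rw [IntermediateField.finrank_eq_one_iff] at h5
  have hxE : x ∈ E := by
    rw [hE, IntermediateField.mem_fixedField_iff]
    intro f hf
    obtain ⟨k, rfl⟩ := Subgroup.mem_zpowers_iff.1 hf
    have hs : φ ∈ MulAction.stabilizer (L ≃ₐ[K] L) x := hx
    exact (MulAction.stabilizer (L ≃ₐ[K] L) x).zpow_mem hs k
  rw [h5, IntermediateField.mem_bot] at hxE
  exact hxE

theorem ring_three (h3 : Module.finrank K L = 3) {φ : L ≃ₐ[K] L} (hφ : φ ≠ 1) (z : L) :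
    φ.toRingEquiv (φ.toRingEquiv (φ.toRingEquiv z)) = z := by
  have h := (order_three h3 hφ).1
  have h1 : φ ^ 3 = 1 := by rw [← h, pow_orderOf_eq_one]
  have h2 : (φ ^ 3) z = z := by rw [h1]; rfl
  exact h2

end galois

namespace SkewLaurent

section laurent

variable {K : Type} [Field K]

theorem laurent_bdd (f : LaurentSeries K) : ∃ m : ℤ, ∀ i < m, f.coeff i = 0 :=
  ⟨f.order, fun _ hi => HahnSeries.coeff_eq_zero_of_lt_order hi⟩

theorem laurent_mul (f g : LaurentSeries K) {m k : ℤ} (hm : ∀ i < m, f.coeff i = 0)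
    (hk : ∀ i < k, g.coeff i = 0) (n N : ℤ) (hN : n - k ≤ N) :
    (f * g).coeff n = ∑ i ∈ Icc m N, f.coeff i * g.coeff (n - i) := by
  rw [HahnSeries.coeff_mul]
  refine sum_of_injOn (fun p => p.1) ?_ ?_ ?_ ?_
  · intro p hp q hq hpq
    simp only [mem_coe, Finset.mem_antidiagonal] at hp hq
    ext
    · exact hpq
    · simp only at hpq
      have h1 := hp.2.2
      have h2 := hq.2.2
      lia
  · intro p hp
    simp only [mem_coe, Finset.mem_antidiagonal, HahnSeries.mem_support] at hp
    rw [coe_Icc, Set.mem_Icc]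
    constructor
    · by_contra h
      exact hp.1 (hm _ (by lia))
    · by_contra h
      exact hp.2.1 (hk _ (by lia))
  · intro i _ hni
    by_contra hne
    apply hni
    refine ⟨(i, n - i), ?_, rfl⟩
    simp only [mem_coe, Finset.mem_antidiagonal, HahnSeries.mem_support]
    exact ⟨left_ne_zero_of_mul hne, right_ne_zero_of_mul hne, by lia⟩
  · intro p hp
    simp only [Finset.mem_antidiagonal] at hp
    have h1 : p.2 = n - p.1 := by
      have := hp.2.2
      lia
    rw [h1]

/-- A Laurent series with given coefficients. -/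
noncomputable def mkL (f : ℤ → K) (hf : ∃ m : ℤ, ∀ i < m, f i = 0) : LaurentSeries K :=
  HahnSeries.ofSuppBddBelow f (by
    obtain ⟨m, hm⟩ := hf
    refine ⟨m, fun i hi => ?_⟩
    by_contra h
    exact hi (hm i (by lia)))

theorem mkL_coeff (f : ℤ → K) (hf : ∃ m : ℤ, ∀ i < m, f i = 0) (i : ℤ) :
    (mkL f hf).coeff i = f i := rfl

end laurent

variable {K L : Type} [Field K] [Field L] [Algebra K L]

/-- The division algebra `D`. -/
abbrev Dv (φ : L ≃ₐ[K] L) : Type := SkewLaurent L φ.toRingEquiv

theorem zpow_algebraMap (φ : L ≃ₐ[K] L) (i : ℤ) (a : K) :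
    ((φ.toRingEquiv : RingAut L) ^ i) (algebraMap K L a) = algebraMap K L a := by
  have hs : (φ.toRingEquiv : RingAut L) ∈ MulAction.stabilizer (RingAut L) (algebraMap K L a) :=
    φ.commutes a
  exact (MulAction.stabilizer (RingAut L) (algebraMap K L a)).zpow_mem hs i

/-- The embedding of the Laurent series in `t = ϖ³`, as a function. -/
noncomputable def embF (φ : L ≃ₐ[K] L) (f : LaurentSeries K) : Dv φ where
  coeff i := if 3 ∣ i then algebraMap K L (f.coeff (i / 3)) else 0
  bdd := by
    obtain ⟨m, hm⟩ := laurent_bdd f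
    refine ⟨3 * m, fun i hi => ?_⟩
    split_ifs
    · rw [hm _ (by lia), map_zero]
    · rfl

variable {φ : L ≃ₐ[K] L}

theorem embF_coeff (f : LaurentSeries K) (i : ℤ) :
    (embF φ f).coeff i = if 3 ∣ i then algebraMap K L (f.coeff (i / 3)) else 0 := rfl

theorem embF_coeff_mul (f : LaurentSeries K) (i : ℤ) :
    (embF φ f).coeff (3 * i) = algebraMap K L (f.coeff i) := by
  rw [embF_coeff, if_pos ⟨i, rfl⟩]
  congr 2
  lia

theorem zpow_three_mul (h3 : ∀ z, φ.toRingEquiv (φ.toRingEquiv (φ.toRingEquiv z)) = z) (i : ℤ) :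
    (φ.toRingEquiv : RingAut L) ^ (3 * i) = 1 := by
  have h : (φ.toRingEquiv : RingAut L) ^ (3 : ℤ) = 1 := by
    have h1 := zpow_three (φ := (φ.toRingEquiv : RingAut L)) h3
    rwa [zpow_neg, inv_eq_one] at h1
  rw [zpow_mul, h, one_zpow]

theorem embF_mul_coeff (h3 : ∀ z, φ.toRingEquiv (φ.toRingEquiv (φ.toRingEquiv z)) = z)
    (f : LaurentSeries K) (x : Dv φ) {m k : ℤ}
    (hm : ∀ i < m, f.coeff i = 0) (hk : ∀ i < k, x.coeff i = 0) (j N : ℤ)
    (hN : j - k < 3 * (N + 1)) :
    (embF φ f * x).coeff j = ∑ i ∈ Icc m N, algebraMap K L (f.coeff i) * x.coeff (j - 3 * i) := by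
  classical
  rw [coeff_mul, finsum_eq_sum_of_support_subset (s := (Icc m N).image fun i => 3 * i)]
  · rw [sum_image]
    · refine sum_congr rfl fun i _ => ?_
      rw [embF_coeff_mul, zpow_three_mul h3]
      rfl
    · intro a _ b _ hab
      simp only at hab
      lia
  · intro i hi
    have h1 : (embF φ f).coeff i ≠ 0 := left_ne_zero_of_mul hi
    have h2 := right_ne_zero_of_mul hi
    have h4 : 3 ∣ i := by
      by_contra h
      exact h1 (if_neg h)
    obtain ⟨i', rfl⟩ := h4
    rw [embF_coeff_mul] at h1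
    rw [coe_image, Set.mem_image]
    refine ⟨i', ?_, rfl⟩
    rw [coe_Icc, Set.mem_Icc]
    constructor
    · by_contra h
      exact h1 (by rw [hm _ (by lia), map_zero])
    · by_contra h
      exact h2 (by rw [hk _ (by lia), map_zero])

theorem mul_embF_coeff (f : LaurentSeries K) (x : Dv φ) {m k : ℤ}
    (hm : ∀ i < m, f.coeff i = 0) (hk : ∀ i < k, x.coeff i = 0) (j N : ℤ)
    (hN : j - k < 3 * (N + 1)) :
    (x * embF φ f).coeff j = ∑ i ∈ Icc m N, algebraMap K L (f.coeff i) * x.coeff (j - 3 * i) := by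
  classical
  rw [coeff_mul, finsum_eq_sum_of_support_subset (s := (Icc m N).image fun i => j - 3 * i)]
  · rw [sum_image]
    · refine sum_congr rfl fun i _ => ?_
      rw [sub_sub_cancel, embF_coeff_mul, zpow_algebraMap, mul_comm]
    · intro a _ b _ hab
      simp only at hab
      lia
  · intro i hi
    have h1 : x.coeff i ≠ 0 := left_ne_zero_of_mul hi
    have h2 := right_ne_zero_of_mul hi
    have h4 : 3 ∣ (j - i) := by
      by_contra h
      apply h2
      rw [embF_coeff, if_neg h, map_zero]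
    obtain ⟨i', hi'⟩ := h4
    rw [hi', embF_coeff_mul, zpow_algebraMap] at h2
    rw [coe_image, Set.mem_image]
    refine ⟨i', ?_, by lia⟩
    rw [coe_Icc, Set.mem_Icc]
    constructor
    · by_contra h
      exact h2 (by rw [hm _ (by lia), map_zero])
    · by_contra h
      exact h1 (hk _ (by lia))

theorem embF_comm (h3 : ∀ z, φ.toRingEquiv (φ.toRingEquiv (φ.toRingEquiv z)) = z)
    (f : LaurentSeries K) (x : Dv φ) : embF φ f * x = x * embF φ f := by
  obtain ⟨m, hm⟩ := laurent_bdd f
  obtain ⟨k, hk⟩ := x.bdd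
  ext j
  rw [embF_mul_coeff h3 f x hm hk j (max 0 (j - k)) (by lia),
    mul_embF_coeff f x hm hk j (max 0 (j - k)) (by lia)]

/-- The embedding of the Laurent series in `t = ϖ³`. -/
noncomputable def emb (h3 : ∀ z, φ.toRingEquiv (φ.toRingEquiv (φ.toRingEquiv z)) = z) :
    LaurentSeries K →+* Dv φ where
  toFun := embF φ
  map_one' := by
    ext i
    rw [embF_coeff, coeff_one, HahnSeries.coeff_one]
    by_cases h : i = 0
    · rw [h, if_pos rfl, if_pos (by norm_num)]
      norm_num
    · rw [if_neg h]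
      split_ifs with h1 h2
      · exfalso
        lia
      · exact map_zero _
      · rfl
  map_zero' := by
    ext i
    rw [embF_coeff, coeff_zero, HahnSeries.coeff_zero, map_zero, ite_self]
  map_add' f g := by
    ext i
    rw [coeff_add, embF_coeff, embF_coeff, embF_coeff, HahnSeries.coeff_add]
    split_ifs
    · exact map_add _ _ _
    · exact (add_zero _).symm
  map_mul' f g := by
    obtain ⟨m, hm⟩ := laurent_bdd f
    obtain ⟨k, hk⟩ := laurent_bdd g
    have hk' : ∀ i < 3 * k, (embF φ g).coeff i = 0 := by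
      intro i hi
      rw [embF_coeff]
      split_ifs
      · rw [hk _ (by lia), map_zero]
      · rfl
    ext j
    rw [embF_mul_coeff h3 f _ hm hk' j (max 0 (j - 3 * k)) (by lia), embF_coeff]
    split_ifs with h
    · obtain ⟨j, rfl⟩ := h
      rw [show 3 * j / 3 = j by lia,
        laurent_mul f g hm hk j (max 0 (3 * j - 3 * k)) (by lia), map_sum]
      refine sum_congr rfl fun i _ => ?_
      rw [show 3 * j - 3 * i = 3 * (j - i) by ring, embF_coeff_mul, map_mul]
    · symm
      refine sum_eq_zero fun i _ => ?_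
      rw [embF_coeff, if_neg (by lia), mul_zero]

theorem emb_apply (h3 : ∀ z, φ.toRingEquiv (φ.toRingEquiv (φ.toRingEquiv z)) = z)
    (f : LaurentSeries K) : emb h3 f = embF φ f := rfl

/-- `D` as an algebra over the field of Laurent series. -/
noncomputable abbrev algD (h3 : ∀ z, φ.toRingEquiv (φ.toRingEquiv (φ.toRingEquiv z)) = z) :
    Algebra (LaurentSeries K) (Dv φ) := (emb h3).toAlgebra' (embF_comm h3)

/-- The centre of `D`. -/
theorem central (h3 : ∀ z, φ.toRingEquiv (φ.toRingEquiv (φ.toRingEquiv z)) = z) (hφ : φ ≠ 1)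
    (hfix : ∀ x : L, φ x = x → ∃ a : K, algebraMap K L a = x) :
    letI := algD h3
    Algebra.IsCentral (LaurentSeries K) (Dv φ) := by
  let := algD h3
  refine ⟨fun x hx => ?_⟩
  rw [Subalgebra.mem_center_iff] at hx
  -- the coefficients commute with `L`
  have h1 : ∀ i, x.coeff i ≠ 0 → 3 ∣ i := by
    intro i hi
    have h2 : ∀ a : L, ((φ.toRingEquiv : RingAut L) ^ i) a = a := by
      intro a
      have h4 := congr_arg (fun y : Dv φ => y.coeff i) (hx (mon _ 0 a))
      simp only [mon_mul_coeff, mul_mon_coeff, sub_zero, zpow_zero] at h4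
      have h5 : a * x.coeff i = x.coeff i * ((φ.toRingEquiv : RingAut L) ^ i) a := h4
      rw [mul_comm] at h5
      exact (mul_left_cancel₀ hi h5).symm
    by_contra h
    have h4 : i = 3 * (i / 3) + 1 ∨ i = 3 * (i / 3) + 2 := by lia
    rcases h4 with h4 | h4
    · apply hφ
      ext a
      have h5 := h2 a
      rw [h4, zpow_add, zpow_three_mul h3, one_mul, zpow_one] at h5
      exact h5
    · apply hφ
      ext a
      have h5 := h2 a
      rw [h4, zpow_add, zpow_three_mul h3, one_mul, show (2 : ℤ) = 1 + 1 by norm_num, zpow_add,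
        zpow_one] at h5
      have h6 : φ.toRingEquiv (φ.toRingEquiv a) = a := h5
      have h7 := h3 a
      rw [h6] at h7
      exact h7
  have h2 : ∀ i, φ (x.coeff i) = x.coeff i := by
    intro i
    have h4 := congr_arg (fun y : Dv φ => y.coeff (i + 1)) (hx (mon _ 1 1))
    simp only [mon_mul_coeff, mul_mon_coeff, add_sub_cancel_right, zpow_one, map_one, one_mul,
      mul_one] at h4
    exact h4
  have h4 : ∀ i : ℤ, ∃ a : K, algebraMap K L a = x.coeff (3 * i) := fun i => hfix _ (h2 _)
  choose a ha using h4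
  obtain ⟨k, hk⟩ := x.bdd
  have hbd : ∃ m : ℤ, ∀ i < m, a i = 0 := by
    refine ⟨min k 0, fun i hi => ?_⟩
    have h5 := ha i
    rw [hk _ (by lia)] at h5
    exact (map_eq_zero _).1 h5
  rw [Algebra.mem_bot]
  refine ⟨mkL a hbd, ?_⟩
  show embF φ (mkL a hbd) = x
  ext i
  rw [embF_coeff]
  split_ifs with h5
  · rw [mkL_coeff, ha]
    congr 1
    lia
  · by_contra h6
    exact h5 (h1 i (Ne.symm h6))

/-- The coordinates of a series. -/
theorem coord_bdd (b : Module.Basis (Fin 3) K L) (x : Dv φ) (p : Fin 3 × Fin 3) :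
    ∃ m : ℤ, ∀ i < m, b.repr (x.coeff (3 * i + (p.2 : ℕ))) p.1 = 0 := by
  obtain ⟨k, hk⟩ := x.bdd
  refine ⟨k / 3 - 1, fun i hi => ?_⟩
  have := p.2.2
  rw [hk _ (by lia), map_zero]
  rfl

/-- The coordinates, as a linear map. -/
noncomputable def coord (h3 : ∀ z, φ.toRingEquiv (φ.toRingEquiv (φ.toRingEquiv z)) = z)
    (b : Module.Basis (Fin 3) K L) :
    letI := algD h3
    Dv φ →ₗ[LaurentSeries K] (Fin 3 × Fin 3 → LaurentSeries K) :=
  letI := algD h3
  { toFun := fun x p => mkL (fun i => b.repr (x.coeff (3 * i + (p.2 : ℕ))) p.1) (coord_bdd b x p)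
    map_add' := fun x y => by
      funext p
      ext i
      show b.repr ((x + y).coeff _) p.1 = b.repr (x.coeff _) p.1 + b.repr (y.coeff _) p.1
      rw [coeff_add, map_add]
      rfl
    map_smul' := fun f x => by
      funext p
      ext i
      obtain ⟨m, hm⟩ := laurent_bdd f
      obtain ⟨k, hk⟩ := x.bdd
      obtain ⟨l, hl⟩ := coord_bdd b x p
      have hp := p.2.2
      show b.repr ((embF φ f * x).coeff (3 * i + (p.2 : ℕ))) p.1 = (f *
        mkL (fun i => b.repr (x.coeff (3 * i + (p.2 : ℕ))) p.1) (coord_bdd b x p)).coeff i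
      rw [embF_mul_coeff h3 f x hm hk _ (max 0 (max (3 * i + 3 - k) (i - l))) (by omega),
        laurent_mul f _ hm (k := l) hl i (max 0 (max (3 * i + 3 - k) (i - l))) (by omega), map_sum,
        Finsupp.finsetSum_apply]
      refine sum_congr rfl fun i' _ => ?_
      rw [← Algebra.smul_def, map_smul, Finsupp.smul_apply, smul_eq_mul, mkL_coeff]
      congr 4
      lia }

/-- The dimension of `D` over its centre. -/
theorem finrank_D (h3 : ∀ z, φ.toRingEquiv (φ.toRingEquiv (φ.toRingEquiv z)) = z)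
    (hfin : Module.finrank K L = 3) :
    letI := algD h3
    Module.finrank (LaurentSeries K) (Dv φ) = 9 := by
  let := algD h3
  have : FiniteDimensional K L := FiniteDimensional.of_finrank_pos (by rw [hfin]; norm_num)
  set b : Module.Basis (Fin 3) K L := Module.finBasisOfFinrankEq K L hfin with hb
  have hbij : Function.Bijective (coord h3 b) := by
    constructor
    · intro x y hxy
      ext i
      apply b.repr.injective
      ext j
      have h1 := congr_arg (fun u : LaurentSeries K => u.coeff (i / 3))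
        (congr_fun hxy (j, ⟨(i % 3).toNat, by lia⟩))
      have h2 : b.repr (x.coeff (3 * (i / 3) + ((i % 3).toNat : ℕ))) j =
        b.repr (y.coeff (3 * (i / 3) + ((i % 3).toNat : ℕ))) j := h1
      have h4 : 3 * (i / 3) + ((i % 3).toNat : ℤ) = i := by lia
      rwa [h4] at h2
    · intro u
      have hbd : ∀ p, ∃ m : ℤ, ∀ i < m, (u p).coeff i = 0 := fun p => laurent_bdd (u p)
      choose m hm using hbd
      set x : Dv φ := ⟨fun i => ∑ j : Fin 3,
        (u (j, ⟨(i % 3).toNat, by lia⟩)).coeff (i / 3) • b j, by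
          refine ⟨3 * (-∑ p, |m p|), fun i hi => ?_⟩
          refine sum_eq_zero fun j _ => ?_
          rw [hm, zero_smul]
          have h1 := single_le_sum (f := fun p => |m p|) (fun p _ => abs_nonneg (m p))
            (mem_univ ((j, ⟨(i % 3).toNat, by lia⟩) : Fin 3 × Fin 3))
          have h2 := neg_abs_le (m ((j, ⟨(i % 3).toNat, by lia⟩) : Fin 3 × Fin 3))
          lia⟩ with hx
      refine ⟨x, ?_⟩
      funext p
      ext i
      show b.repr (∑ j : Fin 3, (u (j, ⟨((3 * i + (p.2 : ℕ)) % 3).toNat, _⟩)).coeff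
        ((3 * i + (p.2 : ℕ)) / 3) • b j) p.1 = (u p).coeff i
      rw [Module.Basis.repr_sum_self]
      have hp := p.2.2
      have h1 : (⟨((3 * i + (p.2 : ℕ)) % 3).toNat, by lia⟩ : Fin 3) = p.2 := by
        apply Fin.ext
        show ((3 * i + ((p.2 : ℕ) : ℤ)) % 3).toNat = p.2
        lia
      rw [h1, show (3 * i + ((p.2 : ℕ) : ℤ)) / 3 = i by lia]
  have h1 := (LinearEquiv.ofBijective (coord h3 b) hbij).finrank_eq
  rw [h1, Module.finrank_fintype_fun_eq_card, Fintype.card_prod, Fintype.card_fin]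

end SkewLaurent

end Pool.Agent.UW
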