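import Pool.Agent.Helper89_UW.K

/-!
# Injectivity of the Kirillov map and averages
-/

namespace Pool.Agent.UW

open Finset

namespace SkewLaurent

section orth

variable {L : Type} [Field L] {φ : RingAut L}

noncomputable instance [Finite L] (a b : ℤ) : Fintype (S L φ a b) := Fintype.ofFinite _

/-- Orthogonality. -/
theorem orth [Finite L] {ψ : AddChar L ℂ} (hψ1 : ψ ≠ 1) {a b : ℤ} {z : SkewLaurent L φ}
    (hz : z ∈ P L φ (1 - b)) : ∑ s : S L φ a b, Psi φ ψ (z * s.1) =
      open Classical in if z ∈ P L φ (1 - a) then (Nat.card (S L φ a b) : ℂ) else 0 := by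
  classical
  rw [← finsum_eq_sum_of_fintype, sum_S]
  have h1 : (∀ s : S L φ a b, Psi φ ψ (z * s.1) = 1) ↔ z ∈ P L φ (1 - a) := by
    constructor
    · intro h
      apply mem_of_Psi hψ1
      intro x hx
      have h2 : z * x = z * trunc a b x + z * (x - trunc a b x) := by
        rw [← mul_add, add_sub_cancel]
      rw [h2, AddChar.map_add_eq_mul, h ⟨_, trunc_mem a b x⟩, one_mul]
      apply Psi_one
      exact P_anti (by lia) (mul_mem_P hz (sub_trunc_mem hx))
    · intro h s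
      apply Psi_one
      exact P_anti (by lia) (mul_mem_P h (S_le_P a b s.2))
  simp only [h1]

theorem card_S_ne_zero [Finite L] (a b : ℤ) : (Nat.card (S L φ a b) : ℂ) ≠ 0 := by
  rw [Nat.cast_ne_zero]
  exact Nat.card_pos.ne'

/-- Principal units. -/
theorem one_add_ne_zero {x : SkewLaurent L φ} (hx : x ∈ P L φ 1) : 1 + x ≠ 0 := by
  intro h
  have h1 : (1 + x).coeff 0 = 0 := by rw [h, coeff_zero]
  rw [coeff_add, coeff_one, if_pos rfl, hx 0 (by norm_num), add_zero] at h1
  exact one_ne_zero h1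

/-- The unit `1 + x`. -/
noncomputable def pu (x : SkewLaurent L φ) (hx : x ∈ P L φ 1) : (SkewLaurent L φ)ˣ :=
  Units.mk0 (1 + x) (one_add_ne_zero hx)

theorem pu_val (x : SkewLaurent L φ) (hx : x ∈ P L φ 1) :
    (pu x hx : SkewLaurent L φ) = 1 + x := rfl

end orth

variable {L : Type} [Field L] {φ : RingAut L} {c : L} [Fact (∀ r : L, r ^ 2 ≠ c + 0 * r)]
  {hc : φ c = c} {χ : AddChar L ℂ} [Finite L]

theorem Kl_inj_aux (h3 : ∀ z, φ (φ (φ z)) = z) (hψ1 : trChar φ χ ≠ 1) (f : Vs hc χ)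
    (y : (SkewLaurent L φ)ˣ) (hf : ∀ u : (SkewLaurent L φ)ˣ, (u : SkewLaurent L φ) - 1 ∈ P L φ 2 →
      Kl hc χ f (u * y) = 0) (x0 : SkewLaurent L φ) : (f : G L φ → ℂ) (n x0 * d y) = 0 := by
  classical
  by_contra h0
  obtain ⟨k, hk⟩ := Vs_bdd f.2
  have hx0 := (hk x0 y h0).1
  have hS : ∀ s : S L φ 2 (k + 4), (s : SkewLaurent L φ) ∈ P L φ 1 := fun s =>
    P_anti (by norm_num) (S_le_P _ _ s.2)
  -- the sum of the values on the coset
  have h1 : ∑ s : S L φ 2 (k + 4), Ps φ χ (tau φ c * (x0 * (1 + (s : SkewLaurent L φ)))) *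
      Kl hc χ f ((pu (s : SkewLaurent L φ) (hS s))⁻¹ * y) = 0 := by
    refine sum_eq_zero fun s _ => ?_
    rw [hf, mul_zero]
    refine (inv_sub_one_mem (by norm_num) ?_).2.2
    rw [pu_val, add_sub_cancel_left]
    exact S_le_P _ _ s.2
  have h2 : ∀ s : S L φ 2 (k + 4), Ps φ χ (tau φ c * (x0 * (1 + (s : SkewLaurent L φ)))) *
      Kl hc χ f ((pu (s : SkewLaurent L φ) (hS s))⁻¹ * y) =
      I fun x => Ps φ χ (tau φ c * ((x0 - x) * (1 + (s : SkewLaurent L φ)))) *
        (f : G L φ → ℂ) (n x * d y) := by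
    intro s
    rw [Kl_tw h3 f, ← I_smul]
    · refine I_congr fun x => ?_
      rw [← mul_assoc, ← AddChar.map_add_eq_mul, inv_inv, pu_val]
      congr 2
      rw [sub_mul, mul_sub]
      abel
    · refine (inv_sub_one_mem (by norm_num) ?_).2.2
      rw [pu_val, add_sub_cancel_left]
      exact S_le_P _ _ s.2
  rw [sum_congr rfl fun s _ => h2 s, ← I_sum (a := -(k : ℤ))] at h1
  · have h4 : ∀ x, ∑ s : S L φ 2 (k + 4), Ps φ χ (tau φ c * ((x0 - x) *
        (1 + (s : SkewLaurent L φ)))) * (f : G L φ → ℂ) (n x * d y) =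
        if x - x0 ∈ P L φ 2 then (Nat.card (S L φ 2 (k + 4)) : ℂ) *
          (f : G L φ → ℂ) (n x0 * d y) else 0 := by
      intro x
      rw [← sum_mul]
      by_cases hx : (f : G L φ → ℂ) (n x * d y) = 0
      · rw [hx, mul_zero]
        split_ifs with h5
        · exfalso
          apply h0
          have h6 : x0 = x + (x0 - x) := by abel
          rw [h6, Vs_n h3 f.2 (by rw [← neg_sub]; exact neg_mem h5), hx, mul_zero]
        · rfl
      · have hx1 := (hk x y hx).1
        have h5 : ∀ s : S L φ 2 (k + 4), Ps φ χ (tau φ c * ((x0 - x) *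
            (1 + (s : SkewLaurent L φ)))) = Ps φ χ (tau φ c * (x0 - x)) *
            Ps φ χ ((tau φ c * (x0 - x)) * (s : SkewLaurent L φ)) := by
          intro s
          rw [← AddChar.map_add_eq_mul]
          congr 1
          rw [mul_add, mul_add, mul_one, mul_assoc]
        rw [sum_congr rfl fun s _ => h5 s, ← mul_sum, orth hψ1]
        · have h6 : tau φ c * (x0 - x) ∈ P L φ (1 - 2) ↔ x - x0 ∈ P L φ 2 := by
            rw [← neg_sub x0 x, neg_mem_iff]
            constructor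
            · intro h
              exact tau_cancel (P_anti (by norm_num) h)
            · intro h
              exact P_anti (by norm_num) (tau_mul_mem h)
          simp only [h6]
          split_ifs with h7
          · have h8 : (f : G L φ → ℂ) (n x0 * d y) = Ps φ χ (tau φ c * (x0 - x)) *
                (f : G L φ → ℂ) (n x * d y) := by
              rw [← Vs_n h3 f.2 (by rw [← neg_sub]; exact neg_mem h7), add_sub_cancel]
            rw [h8]
            ring
          · rw [mul_zero, zero_mul]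
        · exact P_anti (by lia) (tau_mul_mem (sub_mem hx0 hx1))
    rw [I_congr h4, I_single (x0 := x0)] at h1
    · rw [if_pos (by rw [sub_self]; exact zero_mem _)] at h1
      exact (mul_ne_zero (card_S_ne_zero _ _) h0) h1
    · intro x p hp
      show (if x + p - x0 ∈ P L φ 2 then _ else _) = (if x - x0 ∈ P L φ 2 then _ else _)
      have h6 : x + p - x0 ∈ P L φ 2 ↔ x - x0 ∈ P L φ 2 := by
        rw [add_sub_right_comm]
        exact add_mem_cancel_right hp
      simp only [h6]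
    · intro x hx
      by_contra h6
      exact hx (if_neg h6)
  · intro s _ x hx
    exact (hk x y (right_ne_zero_of_mul hx)).1

/-- The Kirillov map is injective. -/
theorem Kl_inj (h3 : ∀ z, φ (φ (φ z)) = z) (hψ1 : trChar φ χ ≠ 1) (f : Vs hc χ)
    (hf : ∀ y, Kl hc χ f y = 0) : f = 0 := by
  apply Subtype.ext
  funext g
  obtain ⟨w, x, y, rfl⟩ := exists_decomp hc g
  rw [Vs_equiv h3 f.2 (InJ_iu w), Kl_inj_aux h3 hψ1 f y (fun u _ => hf _) x, mul_zero]
  rfl

/-- The averages. -/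
noncomputable def avg (a b : ℤ) (ys : (SkewLaurent L φ)ˣ) (f : Vs hc χ) : Vs hc χ :=
  ∑ s : S L φ a b, Ps φ χ (-(tau φ c * ((s : SkewLaurent L φ) *
    ((ys⁻¹ : (SkewLaurent L φ)ˣ) : SkewLaurent L φ)))) • rho hc χ (n (s : SkewLaurent L φ)) f

theorem Kl_avg (h3 : ∀ z, φ (φ (φ z)) = z) (hψ1 : trChar φ χ ≠ 1) (a k : ℤ)
    (ys : (SkewLaurent L φ)ˣ) (f : Vs hc χ) (y : (SkewLaurent L φ)ˣ)
    (hy : Kl hc χ f y ≠ 0 → ((y⁻¹ : (SkewLaurent L φ)ˣ) : SkewLaurent L φ) -
      ((ys⁻¹ : (SkewLaurent L φ)ˣ) : SkewLaurent L φ) ∈ P L φ (-k)) :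
    Kl hc χ (avg a (k + 4) ys f) y = open Classical in
      if ((y⁻¹ : (SkewLaurent L φ)ˣ) : SkewLaurent L φ) -
        ((ys⁻¹ : (SkewLaurent L φ)ˣ) : SkewLaurent L φ) ∈ P L φ (4 - a) then
        (Nat.card (S L φ a (k + 4)) : ℂ) * Kl hc χ f y else 0 := by
  classical
  set e : SkewLaurent L φ := ((y⁻¹ : (SkewLaurent L φ)ˣ) : SkewLaurent L φ) -
      ((ys⁻¹ : (SkewLaurent L φ)ˣ) : SkewLaurent L φ) with he
  have h1 : Kl hc χ (avg a (k + 4) ys f) y =
      (∑ s : S L φ a (k + 4), Ps φ χ ((tau φ c * e) * (s : SkewLaurent L φ))) * Kl hc χ f y := by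
    rw [avg, map_sum, Finset.sum_apply, sum_mul]
    refine sum_congr rfl fun s _ => ?_
    rw [map_smul]
    show _ * Kl hc χ (rho hc χ (n (s : SkewLaurent L φ)) f) y = _
    rw [Kl_n h3, ← mul_assoc, ← AddChar.map_add_eq_mul]
    congr 1
    have h2 : -(tau φ c * ((s : SkewLaurent L φ) *
        ((ys⁻¹ : (SkewLaurent L φ)ˣ) : SkewLaurent L φ))) +
        tau φ c * ((s : SkewLaurent L φ) * ((y⁻¹ : (SkewLaurent L φ)ˣ) : SkewLaurent L φ)) =
        (tau φ c * (s : SkewLaurent L φ)) * e := by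
      rw [he, mul_sub, mul_assoc, mul_assoc]
      abel
    rw [h2, Psi_comm (trChar_inv h3 χ), ← mul_assoc, tau_comm h3 hc e]
  rw [h1]
  by_cases h0 : Kl hc χ f y = 0
  · rw [h0, mul_zero, mul_zero, ite_self]
  · have h2 := hy h0
    rw [orth hψ1 (P_anti (by lia) (tau_mul_mem h2))]
    have h5 : tau φ c * e ∈ P L φ (1 - a) ↔ e ∈ P L φ (4 - a) := by
      constructor
      · intro h
        exact tau_cancel (P_anti (by lia) h)
      · intro h
        exact P_anti (by lia) (tau_mul_mem h)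
    simp only [h5]
    split_ifs
    · rfl
    · rw [zero_mul]

end SkewLaurent

end Pool.Agent.UW
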