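import Pool.Agent.Helper89_UW.V

/-!
# The Kirillov map
-/

namespace Pool.Agent.UW

open Finset

namespace SkewLaurent

section I

variable {L : Type} [Field L] {φ : RingAut L}

/-- Periodicity under `P 2`. -/
def Per (g : SkewLaurent L φ → ℂ) : Prop := ∀ x, ∀ p ∈ P L φ 2, g (x + p) = g x

/-- The sum of a periodic function over `D / P 2`. -/
noncomputable def I (g : SkewLaurent L φ → ℂ) : ℂ := ∑ᶠ q : SkewLaurent L φ ⧸ P L φ 2, g q.out

theorem per_out {g : SkewLaurent L φ → ℂ} (hg : Per g) (x : SkewLaurent L φ) :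
    g (QuotientAddGroup.mk x : SkewLaurent L φ ⧸ P L φ 2).out = g x := by
  obtain ⟨p, hp⟩ := QuotientAddGroup.mk_out_eq_add (P L φ 2) x
  rw [hp, hg x p p.2]

theorem I_shift {g : SkewLaurent L φ → ℂ} (hg : Per g) (a : SkewLaurent L φ) :
    I (fun x => g (x + a)) = I g := by
  apply finsum_eq_of_bijective (fun q => q + (QuotientAddGroup.mk a))
    (Equiv.addRight (QuotientAddGroup.mk a : SkewLaurent L φ ⧸ P L φ 2)).bijective
  intro q
  show g (q.out + a) = g (q + QuotientAddGroup.mk a : SkewLaurent L φ ⧸ P L φ 2).out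
  have h1 : q + QuotientAddGroup.mk a = QuotientAddGroup.mk (q.out + a) := by
    conv_lhs => rw [← QuotientAddGroup.out_eq' q]
    rfl
  rw [h1, per_out hg]

theorem I_unit {g : SkewLaurent L φ → ℂ} (hg : Per g) {u v : SkewLaurent L φ}
    (huv : u * v = 1) (hvu : v * u = 1) (hu : u ∈ P L φ 0) (hv : v ∈ P L φ 0) :
    I (fun x => g (x * u)) = I g := by
  apply finsum_eq_of_bijective
    (fun q => (QuotientAddGroup.mk (q.out * u) : SkewLaurent L φ ⧸ P L φ 2))
  · constructor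
    · intro q r h
      have h1 : (QuotientAddGroup.mk (q.out * u) : SkewLaurent L φ ⧸ P L φ 2) =
        QuotientAddGroup.mk (r.out * u) := h
      rw [QuotientAddGroup.eq] at h1
      have h2 := mul_mem_P h1 hv
      have h3 : (-(q.out * u) + r.out * u) * v = -q.out + r.out := by
        rw [add_mul, neg_mul, mul_assoc, huv, mul_one, mul_assoc, huv, mul_one]
      rw [h3, add_zero, ← QuotientAddGroup.eq] at h2
      rwa [QuotientAddGroup.out_eq', QuotientAddGroup.out_eq'] at h2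
    · intro r
      refine ⟨QuotientAddGroup.mk (r.out * v), ?_⟩
      obtain ⟨p, hp⟩ := QuotientAddGroup.mk_out_eq_add (P L φ 2) (r.out * v)
      show (QuotientAddGroup.mk ((QuotientAddGroup.mk (r.out * v) :
        SkewLaurent L φ ⧸ P L φ 2).out * u) : SkewLaurent L φ ⧸ P L φ 2) = r
      rw [hp]
      conv_rhs => rw [← QuotientAddGroup.out_eq' r]
      rw [QuotientAddGroup.eq]
      have h1 : -((r.out * v + p) * u) + r.out = -(p * u) := by
        rw [add_mul, mul_assoc, hvu, mul_one]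
        abel
      rw [h1]
      have h2 := mul_mem_P p.2 hu
      rw [add_zero] at h2
      exact neg_mem h2
  · intro q
    show g (q.out * u) = _
    rw [per_out hg]

theorem I_add [Finite L] {g h : SkewLaurent L φ → ℂ} {a : ℤ} (hg : ∀ x, g x ≠ 0 → x ∈ P L φ a)
    (hh : ∀ x, h x ≠ 0 → x ∈ P L φ a) : I (fun x => g x + h x) = I g + I h :=
  finsum_add_distrib ((finite_quot a 2).subset fun _ hq => hg _ hq)
    ((finite_quot a 2).subset fun _ hq => hh _ hq)

theorem I_smul (r : ℂ) (g : SkewLaurent L φ → ℂ) : I (fun x => r * g x) = r * I g :=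
  (smul_finsum r fun q : SkewLaurent L φ ⧸ P L φ 2 => g q.out).symm

theorem I_zero : I (fun _ : SkewLaurent L φ => (0 : ℂ)) = 0 := finsum_zero

theorem I_sum [Finite L] {ι : Type} (s : Finset ι) (g : ι → SkewLaurent L φ → ℂ) {a : ℤ}
    (hg : ∀ i ∈ s, ∀ x, g i x ≠ 0 → x ∈ P L φ a) :
    I (fun x => ∑ i ∈ s, g i x) = ∑ i ∈ s, I (g i) := by
  classical
  induction s using Finset.induction_on with
  | empty => simp only [sum_empty, I_zero]
  | insert i s hi ih =>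
    simp only [sum_insert hi]
    rw [I_add (a := a), ih fun j hj => hg j (mem_insert_of_mem hj)]
    · exact hg i (mem_insert_self i s)
    · intro x hx
      obtain ⟨j, hj, hj0⟩ := exists_ne_zero_of_sum_ne_zero hx
      exact hg j (mem_insert_of_mem hj) x hj0

/-- The sum of a periodic function with support in a single coset. -/
theorem I_single {g : SkewLaurent L φ → ℂ} (hg : Per g) (x0 : SkewLaurent L φ)
    (h : ∀ x, g x ≠ 0 → x - x0 ∈ P L φ 2) : I g = g x0 := by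
  rw [I, finsum_eq_single _ (QuotientAddGroup.mk x0), per_out hg]
  intro q hq
  by_contra h1
  apply hq
  have h2 := h _ h1
  rw [← QuotientAddGroup.out_eq' q, QuotientAddGroup.eq]
  have h3 : -q.out + x0 = -(q.out - x0) := by abel
  rw [h3]
  exact neg_mem h2

theorem I_congr {g h : SkewLaurent L φ → ℂ} (hgh : ∀ x, g x = h x) : I g = I h := by
  have : g = h := funext hgh
  rw [this]

end I

variable {L : Type} [Field L] {φ : RingAut L} {c : L}

/-- The central element `τ`. -/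
def tau (φ : RingAut L) (c : L) : SkewLaurent L φ := mon φ (-3) c

theorem tau_comm (h3 : ∀ z, φ (φ (φ z)) = z) (hc : φ c = c) (x : SkewLaurent L φ) :
    tau φ c * x = x * tau φ c := mon_central (zpow_three h3) hc x

theorem tau_mem (φ : RingAut L) (c : L) : tau φ c ∈ P L φ (-3) := mon_mem _ _

theorem tau_mul_mem {m : ℤ} {x : SkewLaurent L φ} (hx : x ∈ P L φ m) :
    tau φ c * x ∈ P L φ (m - 3) := P_anti (by lia) (mul_mem_P (tau_mem φ c) hx)

variable [Fact (∀ r : L, r ^ 2 ≠ c + 0 * r)]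

theorem tau_cancel {m : ℤ} {x : SkewLaurent L φ} (hx : tau φ c * x ∈ P L φ (m - 3)) :
    x ∈ P L φ m := by
  intro i hi
  have h1 := hx (i - 3) (by lia)
  rw [tau, mon_mul_coeff, show i - 3 - (-3) = i by ring] at h1
  have h2 := (mul_eq_zero.1 h1).resolve_left (c_ne_zero c)
  exact (map_eq_zero _).1 h2

variable {hc : φ c = c} {χ : AddChar L ℂ}

/-- The additive character `Ψ`. -/
noncomputable abbrev Ps (φ : RingAut L) (χ : AddChar L ℂ) : AddChar (SkewLaurent L φ) ℂ :=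
  Psi φ (trChar φ χ)

omit [Fact (∀ r : L, r ^ 2 ≠ c + 0 * r)] in
theorem InU_n {k : ℤ} {p : SkewLaurent L φ} (hp : p ∈ P L φ k) : InU k (n p) := by
  show (n p : M L φ) - 1 ∈ MP L φ k
  rw [n_val, Matrix.one_fin_two]
  intro i j
  fin_cases i <;> fin_cases j
  · show (1 : SkewLaurent L φ) - 1 ∈ P L φ k
    rw [sub_self]
    exact zero_mem _
  · show p - 0 ∈ P L φ k
    rw [sub_zero]
    exact hp
  · show (0 : SkewLaurent L φ) - 0 ∈ P L φ k
    rw [sub_self]
    exact zero_mem _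
  · show (1 : SkewLaurent L φ) - 1 ∈ P L φ k
    rw [sub_self]
    exact zero_mem _

omit [Fact (∀ r : L, r ^ 2 ≠ c + 0 * r)] in
theorem InU_d {k : ℤ} {y : (SkewLaurent L φ)ˣ} (hy : (y : SkewLaurent L φ) - 1 ∈ P L φ k) :
    InU k (d y) := by
  show (d y : M L φ) - 1 ∈ MP L φ k
  rw [d_val, Matrix.one_fin_two]
  intro i j
  fin_cases i <;> fin_cases j
  · show (1 : SkewLaurent L φ) - 1 ∈ P L φ k
    rw [sub_self]
    exact zero_mem _
  · show (0 : SkewLaurent L φ) - 0 ∈ P L φ k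
    rw [sub_self]
    exact zero_mem _
  · show (0 : SkewLaurent L φ) - 0 ∈ P L φ k
    rw [sub_self]
    exact zero_mem _
  · exact hy

theorem Lam_n (h3 : ∀ z, φ (φ (φ z)) = z) {p : SkewLaurent L φ} (hp : p ∈ P L φ 2) :
    Lam hc χ (n p) = Ps φ χ (tau φ c * p) := by
  rw [Lam_InU h3 χ (InU_n hp), psib_apply, n_val]
  congr 1
  show mon φ (-3) 1 * 0 + mon φ (-3) c * p = _
  rw [mul_zero, zero_add]
  rfl

theorem Lam_d (h3 : ∀ z, φ (φ (φ z)) = z) {y : (SkewLaurent L φ)ˣ}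
    (hy : (y : SkewLaurent L φ) - 1 ∈ P L φ 2) : Lam hc χ (d y) = 1 := by
  rw [Lam_InU h3 χ (InU_d hy), psib_apply, d_val]
  show Ps φ χ (mon φ (-3) 1 * 0 + mon φ (-3) c * 0) = 1
  rw [mul_zero, mul_zero, add_zero, AddChar.map_zero_eq_one]

/-- The twisted periodicity of the functions of the representation. -/
theorem Vs_n (h3 : ∀ z, φ (φ (φ z)) = z) {f : G L φ → ℂ} (hf : f ∈ Vs hc χ)
    {p : SkewLaurent L φ} (hp : p ∈ P L φ 2) (x : SkewLaurent L φ) (y : (SkewLaurent L φ)ˣ) :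
    f (n (x + p) * d y) = Ps φ χ (tau φ c * p) * f (n x * d y) := by
  rw [add_comm, n_add, mul_assoc, Vs_equiv h3 hf (InJ_of_InU (InU_n hp)), Lam_n h3 hp]

theorem Vs_d (h3 : ∀ z, φ (φ (φ z)) = z) {f : G L φ → ℂ} (hf : f ∈ Vs hc χ)
    {u : (SkewLaurent L φ)ˣ} (hu : (u : SkewLaurent L φ) - 1 ∈ P L φ 2) (x : SkewLaurent L φ)
    (y : (SkewLaurent L φ)ˣ) :
    f (n x * d (u * y)) = f (n (x * (u : SkewLaurent L φ)) * d y) := by
  have h1 : n x * d (u * y) = d u * (n (x * (u : SkewLaurent L φ)) * d y) := by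
    rw [← mul_assoc, d_mul_n, mul_assoc x, Units.mul_inv, mul_one, mul_assoc, d_mul]
  rw [h1, Vs_equiv h3 hf (InJ_of_InU (InU_d hu)), Lam_d h3 hu, one_mul]

/-- The Kirillov transform of a function. -/
noncomputable def Kf (c : L) (χ : AddChar L ℂ) (f : G L φ → ℂ) (y : (SkewLaurent L φ)ˣ) : ℂ :=
  I fun x => Ps φ χ (-(tau φ c * x)) * f (n x * d y)

theorem Ps_ne_zero (χ : AddChar L ℂ) (x : SkewLaurent L φ) : Ps φ χ x ≠ 0 := by
  intro h
  have h1 := AddChar.map_add_eq_mul (Ps φ χ) x (-x)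
  rw [add_neg_cancel, AddChar.map_zero_eq_one, h, zero_mul] at h1
  exact one_ne_zero h1

theorem Kf_per (h3 : ∀ z, φ (φ (φ z)) = z) {f : G L φ → ℂ} (hf : f ∈ Vs hc χ)
    (y : (SkewLaurent L φ)ˣ) : Per fun x => Ps φ χ (-(tau φ c * x)) * f (n x * d y) := by
  intro x p hp
  show Ps φ χ (-(tau φ c * (x + p))) * f (n (x + p) * d y) = _
  rw [Vs_n h3 hf hp, ← mul_assoc, ← AddChar.map_add_eq_mul]
  congr 2
  rw [mul_add]
  abel

/-- The Kirillov map. -/
noncomputable def Kl [Finite L] (hc : φ c = c) (χ : AddChar L ℂ) :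
    Vs hc χ →ₗ[ℂ] ((SkewLaurent L φ)ˣ → ℂ) where
  toFun f := Kf c χ (f : G L φ → ℂ)
  map_add' f g := by
    obtain ⟨k, hk⟩ := Vs_bdd f.2
    obtain ⟨l, hl⟩ := Vs_bdd g.2
    funext y
    show I (fun x => Ps φ χ (-(tau φ c * x)) * ((f : G L φ → ℂ) (n x * d y) +
      (g : G L φ → ℂ) (n x * d y))) =
      I (fun x => Ps φ χ (-(tau φ c * x)) * ((f : G L φ → ℂ) (n x * d y))) +
      I (fun x => Ps φ χ (-(tau φ c * x)) * ((g : G L φ → ℂ) (n x * d y)))
    rw [← I_add (a := -(max (k : ℤ) l))]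
    · exact I_congr fun x => mul_add _ _ _
    · intro x hx
      exact P_anti (by lia) (hk x y (right_ne_zero_of_mul hx)).1
    · intro x hx
      exact P_anti (by lia) (hl x y (right_ne_zero_of_mul hx)).1
  map_smul' r f := by
    funext y
    show I (fun x => Ps φ χ (-(tau φ c * x)) * (r * (f : G L φ → ℂ) (n x * d y))) =
      r * I (fun x => Ps φ χ (-(tau φ c * x)) * ((f : G L φ → ℂ) (n x * d y)))
    rw [← I_smul]
    exact I_congr fun x => by ring

variable [Finite L]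

theorem Kl_apply (f : Vs hc χ) (y : (SkewLaurent L φ)ˣ) : Kl hc χ f y =
    I fun x => Ps φ χ (-(tau φ c * x)) * (f : G L φ → ℂ) (n x * d y) := rfl

theorem Kl_n (h3 : ∀ z, φ (φ (φ z)) = z) (z : SkewLaurent L φ) (f : Vs hc χ)
    (y : (SkewLaurent L φ)ˣ) : Kl hc χ (rho hc χ (n z) f) y =
      Ps φ χ (tau φ c * (z * ((y⁻¹ : (SkewLaurent L φ)ˣ) : SkewLaurent L φ))) * Kl hc χ f y := by
  rw [Kl_apply, Kl_apply, ← I_shift (Kf_per h3 f.2 y)
    (z * ((y⁻¹ : (SkewLaurent L φ)ˣ) : SkewLaurent L φ)), ← I_smul]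
  refine I_congr fun x => ?_
  rw [rho_val, R_apply, mul_assoc (n x), d_mul_n, ← mul_assoc (n x), ← n_add, ← mul_assoc,
    ← AddChar.map_add_eq_mul]
  congr 2
  rw [mul_add]
  abel

theorem Kl_d (w : (SkewLaurent L φ)ˣ) (f : Vs hc χ) (y : (SkewLaurent L φ)ˣ) :
    Kl hc χ (rho hc χ (d w) f) y = Kl hc χ f (y * w) := by
  rw [Kl_apply, Kl_apply]
  refine I_congr fun x => ?_
  rw [rho_val, R_apply, mul_assoc (n x), ← d_mul]

theorem Kl_supp (f : Vs hc χ) : ∃ k : ℕ, ∀ y : (SkewLaurent L φ)ˣ, Kl hc χ f y ≠ 0 →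
    (y : SkewLaurent L φ) ∈ P L φ (-k) ∧
      ((y⁻¹ : (SkewLaurent L φ)ˣ) : SkewLaurent L φ) ∈ P L φ (-k) := by
  obtain ⟨k, hk⟩ := Vs_bdd f.2
  refine ⟨k, fun y hy => ?_⟩
  by_contra hcon
  apply hy
  rw [Kl_apply]
  have h1 : ∀ x, Ps φ χ (-(tau φ c * x)) * (f : G L φ → ℂ) (n x * d y) = 0 := by
    intro x
    by_contra h
    exact hcon (hk x y (right_ne_zero_of_mul h)).2
  rw [I_congr h1, I_zero]

omit [Finite L] [Fact (∀ r : L, r ^ 2 ≠ c + 0 * r)] in
/-- The inverse of a principal unit. -/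
theorem inv_sub_one_mem {k : ℤ} (hk : 1 ≤ k) {u : (SkewLaurent L φ)ˣ}
    (hu : (u : SkewLaurent L φ) - 1 ∈ P L φ k) :
    (u : SkewLaurent L φ) ∈ P L φ 0 ∧ ((u⁻¹ : (SkewLaurent L φ)ˣ) : SkewLaurent L φ) ∈ P L φ 0 ∧
      ((u⁻¹ : (SkewLaurent L φ)ˣ) : SkewLaurent L φ) - 1 ∈ P L φ k := by
  have h0 : (u : SkewLaurent L φ) ∈ P L φ 0 := by
    have h := add_mem (P_anti (by lia : (0 : ℤ) ≤ k) hu) (one_mem_P (L := L) (φ := φ))
    rwa [sub_add_cancel] at h
  have h1 : (u : SkewLaurent L φ).coeff 0 ≠ 0 := by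
    have h := hu 0 (by lia)
    rw [coeff_sub, coeff_one, if_pos rfl, sub_eq_zero] at h
    rw [h]
    exact one_ne_zero
  have h2 : ((u⁻¹ : (SkewLaurent L φ)ˣ) : SkewLaurent L φ) ∈ P L φ 0 := by
    have h := inv_mem_P h0 h1
    rwa [neg_zero, ← Units.val_inv_eq_inv_val] at h
  refine ⟨h0, h2, ?_⟩
  have h4 : ((u⁻¹ : (SkewLaurent L φ)ˣ) : SkewLaurent L φ) - 1 =
      -(((u⁻¹ : (SkewLaurent L φ)ˣ) : SkewLaurent L φ) * ((u : SkewLaurent L φ) - 1)) := by
    rw [mul_sub, Units.inv_mul, mul_one]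
    abel
  rw [h4]
  have h5 := mul_mem_P h2 hu
  rw [zero_add] at h5
  exact neg_mem h5

/-- The Kirillov transform on a coset of the principal units. -/
theorem Kl_tw (h3 : ∀ z, φ (φ (φ z)) = z) (f : Vs hc χ) {u : (SkewLaurent L φ)ˣ}
    (hu : (u : SkewLaurent L φ) - 1 ∈ P L φ 2) (y : (SkewLaurent L φ)ˣ) :
    Kl hc χ f (u * y) =
      I fun x => Ps φ χ (-(tau φ c * (x * ((u⁻¹ : (SkewLaurent L φ)ˣ) : SkewLaurent L φ)))) *
        (f : G L φ → ℂ) (n x * d y) := by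
  obtain ⟨h0, h1, h2⟩ := inv_sub_one_mem (by norm_num) hu
  have hper : Per fun x => Ps φ χ (-(tau φ c * (x * ((u⁻¹ : (SkewLaurent L φ)ˣ) :
      SkewLaurent L φ)))) * (f : G L φ → ℂ) (n x * d y) := by
    intro x p hp
    show Ps φ χ (-(tau φ c * ((x + p) * ((u⁻¹ : (SkewLaurent L φ)ˣ) : SkewLaurent L φ)))) *
      (f : G L φ → ℂ) (n (x + p) * d y) = _
    rw [Vs_n h3 f.2 hp, ← mul_assoc, ← AddChar.map_add_eq_mul]
    have h4 : -(tau φ c * ((x + p) * ((u⁻¹ : (SkewLaurent L φ)ˣ) : SkewLaurent L φ))) +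
        tau φ c * p = -(tau φ c * (x * ((u⁻¹ : (SkewLaurent L φ)ˣ) : SkewLaurent L φ))) +
        -(tau φ c * (p * (((u⁻¹ : (SkewLaurent L φ)ˣ) : SkewLaurent L φ) - 1))) := by
      rw [add_mul, mul_sub, mul_add, mul_sub, mul_one]
      abel
    rw [h4, AddChar.map_add_eq_mul]
    have h5 : Ps φ χ (-(tau φ c * (p * (((u⁻¹ : (SkewLaurent L φ)ˣ) : SkewLaurent L φ) - 1)))) =
        1 := by
      apply Psi_one
      apply neg_mem
      exact P_anti (by norm_num) (tau_mul_mem (mul_mem_P hp h2))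
    rw [h5, mul_one]
  rw [Kl_apply, ← I_unit hper (Units.mul_inv u) (Units.inv_mul u) h0 h1]
  refine I_congr fun x => ?_
  rw [Vs_d h3 f.2 hu, mul_assoc x, Units.mul_inv, mul_one]

/-- The Kirillov transform is locally constant. -/
theorem Kl_loc (h3 : ∀ z, φ (φ (φ z)) = z) (f : Vs hc χ) : ∃ k : ℕ, ∀ u : (SkewLaurent L φ)ˣ,
    (u : SkewLaurent L φ) - 1 ∈ P L φ k → ∀ y, Kl hc χ f (u * y) = Kl hc χ f y := by
  obtain ⟨k, hk⟩ := Vs_bdd f.2
  refine ⟨k + 4, fun u hu y => ?_⟩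
  push_cast at hu
  rw [Kl_tw h3 f (P_anti (by lia) hu), Kl_apply]
  refine I_congr fun x => ?_
  by_cases hx : (f : G L φ → ℂ) (n x * d y) = 0
  · rw [hx, mul_zero, mul_zero]
  · have hx1 := (hk x y hx).1
    congr 1
    have h2 := (inv_sub_one_mem (by lia) hu).2.2
    have h4 : -(tau φ c * (x * ((u⁻¹ : (SkewLaurent L φ)ˣ) : SkewLaurent L φ))) =
        -(tau φ c * x) +
        -(tau φ c * (x * (((u⁻¹ : (SkewLaurent L φ)ˣ) : SkewLaurent L φ) - 1))) := by
      rw [mul_sub, mul_sub, mul_one]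
      abel
    rw [h4, AddChar.map_add_eq_mul]
    have h5 : Ps φ χ (-(tau φ c * (x * (((u⁻¹ : (SkewLaurent L φ)ˣ) : SkewLaurent L φ) - 1)))) =
        1 := by
      apply Psi_one
      apply neg_mem
      exact P_anti (by lia) (tau_mul_mem (mul_mem_P hx1 h2))
    rw [h5, mul_one]

/-- The Kirillov transform of the generator. -/
theorem Kl_f0 (h3 : ∀ z, φ (φ (φ z)) = z) (y : (SkewLaurent L φ)ˣ) :
    Kl hc χ (f0 hc χ) y =
      open Classical in if (y : SkewLaurent L φ) - 1 ∈ P L φ 2 then 1 else 0 := by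
  classical
  have hsup : ∀ x, Ps φ χ (-(tau φ c * x)) * ((f0 hc χ : Vs hc χ) : G L φ → ℂ) (n x * d y) ≠ 0 →
      x ∈ P L φ 2 ∧ (y : SkewLaurent L φ) - 1 ∈ P L φ 2 := by
    intro x hx
    have h1 : InJ hc (n x * d y) := by
      by_contra h2
      exact right_ne_zero_of_mul hx (Lam_of_not χ h2)
    have h2 := InU_nd_iff.1 (InJ_nd h1)
    refine ⟨?_, h2.2⟩
    have h4 := mul_mem_P h2.1 (inv_sub_one_mem (by norm_num) h2.2).2.1
    rwa [mul_assoc, Units.mul_inv, mul_one, add_zero] at h4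
  rw [Kl_apply]
  split_ifs with hy
  · rw [I_single (Kf_per h3 (f0 hc χ).2 y) 0]
    · rw [mul_zero, neg_zero, AddChar.map_zero_eq_one, one_mul, n_zero, one_mul]
      exact Lam_d h3 hy
    · intro x hx
      rw [sub_zero]
      exact (hsup x hx).1
  · have h1 : ∀ x, Ps φ χ (-(tau φ c * x)) * ((f0 hc χ : Vs hc χ) : G L φ → ℂ) (n x * d y) =
        0 := by
      intro x
      by_contra h
      exact hy (hsup x h).2
    rw [I_congr h1, I_zero]

end SkewLaurent

end Pool.Agent.UW
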