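import Pool.Agent.Helper89_UW.Mat

/-!
# The inducing character
-/

namespace Pool.Agent.UW

open Finset

namespace SkewLaurent

variable {L : Type} [Field L] {φ : RingAut L} {c : L} [Fact (∀ r : L, r ^ 2 ≠ c + 0 * r)]

/-- The division algebra `D'`. -/
abbrev Dq (hc : φ c = c) : Type := SkewLaurent (QuadraticAlgebra L c 0) (liftAut φ c hc)

theorem c_ne_zero (c : L) [h : Fact (∀ r : L, r ^ 2 ≠ c + 0 * r)] : c ≠ 0 := by
  intro h0
  apply h.out 0
  rw [h0]
  ring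

variable {hc : φ c = c}

/-- The embedding of the units of `D'`. -/
noncomputable def iu (hc : φ c = c) : (Dq hc)ˣ →* G L φ := Units.map (iota hc)

theorem iu_val (w : (Dq hc)ˣ) : (iu hc w : M L φ) = iota hc w := rfl

theorem iota_mem {w : Dq hc} {m : ℤ} (hw : w ∈ P _ _ m) : iota hc w ∈ MP L φ m := by
  have h := (mem_P_iff w m).1 hw
  intro i j
  rw [iota_apply]
  fin_cases i <;> fin_cases j
  · exact h.1
  · exact h.2
  · exact Cc_mem h.2
  · exact h.1

/-- The inverse of the bijection `w ↦ iota w e₁`. -/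
noncomputable def colW (hc : φ c = c) (A : M L φ) : Dq hc := pair hc (A 0 0) (Cc φ c⁻¹ * A 1 0)

theorem Cc_inv (c : L) [Fact (∀ r : L, r ^ 2 ≠ c + 0 * r)] (x : SkewLaurent L φ) :
    Cc φ c * (Cc φ c⁻¹ * x) = x := by
  ext i
  rw [Cc_coeff, Cc_coeff, mul_inv_cancel_left₀ (c_ne_zero c)]

theorem Cc_inv' (c : L) [Fact (∀ r : L, r ^ 2 ≠ c + 0 * r)] (x : SkewLaurent L φ) :
    Cc φ c⁻¹ * (Cc φ c * x) = x := by
  ext i
  rw [Cc_coeff, Cc_coeff, inv_mul_cancel_left₀ (c_ne_zero c)]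

theorem eq_of_Re_Im {w v : Dq hc} (h1 : Re w = Re v) (h2 : Im w = Im v) : w = v := by
  rw [← pair_Re_Im w, ← pair_Re_Im v, h1, h2]

theorem colW_iota_mul (w : Dq hc) (A : M L φ) : colW hc (iota hc w * A) = w * colW hc A := by
  have hc' : φ c⁻¹ = c⁻¹ := by rw [map_inv₀, hc]
  apply eq_of_Re_Im
  · rw [Re_mul, colW, Re_pair, colW, Re_pair, Im_pair, iota_apply, Matrix.mul_apply,
      Fin.sum_univ_two]
    show Re w * A 0 0 + Im w * A 1 0 = _
    congr 1
    rw [← mul_assoc (Im w), ← Cc_comm hc', mul_assoc, Cc_inv]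
  · rw [Im_mul, colW, Im_pair, colW, Re_pair, Im_pair, iota_apply, Matrix.mul_apply,
      Fin.sum_univ_two]
    show Cc φ c⁻¹ * (Cc φ c * Im w * A 0 0 + Re w * A 1 0) = _
    rw [mul_add, mul_assoc, Cc_inv', ← mul_assoc (Re w), ← Cc_comm hc', mul_assoc,
      add_comm]

theorem colW_one : colW hc (1 : M L φ) = 1 := by
  apply eq_of_Re_Im
  · rw [colW, Re_pair, Re_one, Matrix.one_apply_eq]
  · rw [colW, Im_pair, Im_one, Matrix.one_apply_ne (by decide), mul_zero]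

theorem colW_iota (w : Dq hc) : colW hc (iota hc w) = w := by
  have h := colW_iota_mul w (1 : M L φ)
  rwa [mul_one, colW_one, mul_one] at h

theorem colW_mem {A : M L φ} {m : ℤ} (hA : A ∈ MP L φ m) : colW hc A ∈ P _ _ m := by
  rw [mem_P_iff]
  exact ⟨hA 0 0, Cc_mem (hA 1 0)⟩

theorem colW_sub (A B : M L φ) : colW hc (A - B) = colW hc A - colW hc B := by
  rw [eq_sub_iff_add_eq]
  apply eq_of_Re_Im
  · rw [Re_add, colW, colW, colW, Re_pair, Re_pair, Re_pair, Matrix.sub_apply, sub_add_cancel]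
  · rw [Im_add, colW, colW, colW, Im_pair, Im_pair, Im_pair, Matrix.sub_apply, ← mul_add,
      sub_add_cancel]

theorem colW_ne_zero (g : G L φ) : colW hc (g : M L φ) ≠ 0 := by
  intro h
  have h0 : (g : M L φ) 0 0 = 0 := by
    have h1 : Re (colW hc (g : M L φ)) = 0 := by rw [h]; rfl
    exact h1
  have h1 : (g : M L φ) 1 0 = 0 := by
    have h1 : Im (colW hc (g : M L φ)) = 0 := by rw [h]; rfl
    rw [colW, Im_pair] at h1
    rw [← Cc_inv c ((g : M L φ) 1 0), h1, mul_zero]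
  have h3 := congr_fun (congr_fun g.inv_mul 0) 0
  rw [Matrix.mul_apply, Fin.sum_univ_two, h0, h1, mul_zero, mul_zero, add_zero,
    Matrix.one_apply_eq] at h3
  exact zero_ne_one h3

theorem InU_iu {k : ℤ} (w : (Dq hc)ˣ) : InU k (iu hc w) ↔ (w : Dq hc) - 1 ∈ P _ _ k := by
  constructor
  · intro h
    have h1 := colW_mem (hc := hc) h
    rwa [colW_sub, colW_one, iu_val, colW_iota] at h1
  · intro h
    have h1 := iota_mem h
    rw [map_sub, map_one] at h1
    exact h1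

theorem iu_injective : Function.Injective (iu hc) := by
  intro w v h
  apply Units.ext
  rw [← colW_iota (w : Dq hc), ← colW_iota (v : Dq hc), ← iu_val, ← iu_val, h]

/-- Every invertible matrix is a product of an element of `D'` and an upper triangular matrix. -/
theorem exists_decomp (hc : φ c = c) (g : G L φ) : ∃ (w : (Dq hc)ˣ) (x : SkewLaurent L φ)
    (y : (SkewLaurent L φ)ˣ), g = iu hc w * (n x * d y) := by
  obtain ⟨w, hw⟩ : ∃ w : (Dq hc)ˣ, (w : Dq hc) = colW hc (g : M L φ) :=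
    ⟨Units.mk0 (colW hc (g : M L φ)) (colW_ne_zero g), rfl⟩
  have h1 : colW hc (((iu hc w)⁻¹ * g : G L φ) : M L φ) = 1 := by
    rw [← map_inv, Units.val_mul, iu_val, colW_iota_mul, ← hw, Units.inv_mul]
  have h2 : Re (colW hc (((iu hc w)⁻¹ * g : G L φ) : M L φ)) = Re (1 : Dq hc) := by rw [h1]
  have h3 : Im (colW hc (((iu hc w)⁻¹ * g : G L φ) : M L φ)) = Im (1 : Dq hc) := by rw [h1]
  rw [Re_one, colW, Re_pair] at h2
  rw [Im_one, colW, Im_pair] at h3
  have h4 : (((iu hc w)⁻¹ * g : G L φ) : M L φ) 1 0 = 0 := by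
    rw [← Cc_inv c ((((iu hc w)⁻¹ * g : G L φ) : M L φ) 1 0), h3, mul_zero]
  obtain ⟨x, y, hxy⟩ := eq_nd h2 h4
  refine ⟨w, x, y, ?_⟩
  rw [← hxy, mul_inv_cancel_left]

/-- The element `β`. -/
noncomputable def beta (φ : RingAut L) (c : L) : M L φ := !![0, mon φ (-3) 1; mon φ (-3) c, 0]

theorem beta_mem (c : L) : beta φ c ∈ MP L φ (-3) := by
  intro i j
  rw [beta]
  fin_cases i <;> fin_cases j
  · exact zero_mem _
  · exact mon_mem _ _
  · exact mon_mem _ _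
  · exact zero_mem _

theorem zpow_three (h3 : ∀ z, φ (φ (φ z)) = z) : φ ^ (-3 : ℤ) = 1 := by
  have h : φ ^ (3 : ℕ) = 1 := by
    ext z
    exact h3 z
  rw [show (-3 : ℤ) = -((3 : ℕ) : ℤ) by norm_num, zpow_neg, zpow_natCast, h, inv_one]

theorem beta_comm (h3 : ∀ z, φ (φ (φ z)) = z) (w : Dq hc) :
    beta φ c * iota hc w = iota hc w * beta φ c := by
  have hz := zpow_three h3
  have e1 : mon φ (-3) (1 : L) * Cc φ c = mon φ (-3) c := by
    rw [Cc, mon_mul_mon, hz, one_mul, add_zero]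
    rfl
  have e2 : Cc φ c * mon φ (-3) (1 : L) = mon φ (-3) c := by
    rw [Cc, mon_mul_mon, zero_add, zpow_zero]
    show mon φ (-3) (c * 1) = _
    rw [mul_one]
  have e3 : ∀ x : SkewLaurent L φ, mon φ (-3) (1 : L) * x = x * mon φ (-3) 1 :=
    mon_central hz (map_one φ)
  have e4 : ∀ x : SkewLaurent L φ, mon φ (-3) c * x = x * mon φ (-3) c := mon_central hz hc
  rw [beta, iota_apply, Matrix.mul_fin_two, Matrix.mul_fin_two]
  simp only [zero_mul, mul_zero, zero_add, add_zero]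
  rw [← mul_assoc, e1, mul_assoc (Cc φ c) (Im w), ← e3 (Im w), ← mul_assoc (Cc φ c), e2, e4, e4,
    e3]

/-- The character of the trace. -/
noncomputable def trChar (φ : RingAut L) (χ : AddChar L ℂ) : AddChar L ℂ where
  toFun z := χ (tr φ z)
  map_zero_eq_one' := by
    rw [tr, map_zero, map_zero, add_zero, add_zero, AddChar.map_zero_eq_one]
  map_add_eq_mul' a b := by
    rw [← AddChar.map_add_eq_mul]
    congr 1
    simp only [tr, map_add]
    ring

theorem trChar_apply (χ : AddChar L ℂ) (z : L) : trChar φ χ z = χ (tr φ z) := rfl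

theorem trChar_inv (h3 : ∀ z, φ (φ (φ z)) = z) (χ : AddChar L ℂ) (z : L) :
    trChar φ χ (φ z) = trChar φ χ z := by
  rw [trChar_apply, trChar_apply, tr, tr, h3]
  congr 1
  ring

/-- The character `ψ_β` (as a function on all invertible matrices). -/
noncomputable def psib (c : L) (χ : AddChar L ℂ) (g : G L φ) : ℂ :=
  PsiM (trChar φ χ) (beta φ c * (g : M L φ))

omit [Fact (∀ r : L, r ^ 2 ≠ c + 0 * r)] in
theorem PsiM_beta (χ : AddChar L ℂ) : PsiM (trChar φ χ) (beta φ c) = 1 := by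
  rw [PsiM]
  show Psi φ (trChar φ χ) (0 + 0) = 1
  rw [add_zero, AddChar.map_zero_eq_one]

omit [Fact (∀ r : L, r ^ 2 ≠ c + 0 * r)] in
theorem psib_one (χ : AddChar L ℂ) : psib c χ (1 : G L φ) = 1 := by
  rw [psib, Units.val_one, mul_one, PsiM_beta]

omit [Fact (∀ r : L, r ^ 2 ≠ c + 0 * r)] in
theorem psib_mul (χ : AddChar L ℂ) {g h : G L φ} (hg : InU 2 g) (hh : InU 2 h) :
    psib c χ (g * h) = psib c χ g * psib c χ h := by
  have h1 : beta φ c * ((g * h : G L φ) : M L φ) + beta φ c =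
      beta φ c * (g : M L φ) + beta φ c * (h : M L φ) +
        beta φ c * (((g : M L φ) - 1) * ((h : M L φ) - 1)) := by
    rw [Units.val_mul]
    noncomm_ring
  have h2 := congr_arg (PsiM (trChar φ χ)) h1
  rw [PsiM_add, PsiM_add, PsiM_add, PsiM_beta, mul_one] at h2
  have h3 : PsiM (trChar φ χ) (beta φ c * (((g : M L φ) - 1) * ((h : M L φ) - 1))) = 1 :=
    PsiM_one (MP_mul (beta_mem c) (MP_mul hg hh))
  rw [h3, mul_one] at h2
  exact h2

omit [Fact (∀ r : L, r ^ 2 ≠ c + 0 * r)] in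
theorem psib_triv (χ : AddChar L ℂ) {g : G L φ} (hg : InU 4 g) : psib c χ g = 1 := by
  have h1 : beta φ c * (g : M L φ) = beta φ c * ((g : M L φ) - 1) + beta φ c := by
    noncomm_ring
  rw [psib, h1, PsiM_add, PsiM_beta, mul_one]
  exact PsiM_one (MP_mul (beta_mem c) hg)

omit [Fact (∀ r : L, r ^ 2 ≠ c + 0 * r)] in
theorem psib_inv (χ : AddChar L ℂ) {g : G L φ} (hg : InU 2 g) :
    psib c χ g * psib c χ g⁻¹ = 1 := by
  rw [← psib_mul χ hg (hg.inv (by norm_num)), mul_inv_cancel, psib_one]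

theorem psib_conj (h3 : ∀ z, φ (φ (φ z)) = z) (χ : AddChar L ℂ) (w : (Dq hc)ˣ) (g : G L φ) :
    psib c χ (iu hc w * g * (iu hc w)⁻¹) = psib c χ g := by
  rw [psib, Units.val_mul, Units.val_mul, iu_val, ← mul_assoc, ← mul_assoc, beta_comm h3,
    mul_assoc (iota hc (w : Dq hc))]
  exact PsiM_conj (trChar_inv h3 χ) _ (iu hc w)

theorem InU_conj_iu {k : ℤ} (w : (Dq hc)ˣ) {g : G L φ} (hg : InU k g) :
    InU k (iu hc w * g * (iu hc w)⁻¹) := by
  have h0 := w.ne_zero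
  have h1 := (iota_mem (ord_mem h0) : iota hc (w : Dq hc) ∈ MP L φ _)
  have h2 := (iota_mem (inv_mem_ord h0) : iota hc ((w : Dq hc)⁻¹) ∈ MP L φ _)
  have h3 : (((iu hc w)⁻¹ : G L φ) : M L φ) = iota hc ((w : Dq hc)⁻¹) := by
    rw [← map_inv, iu_val, Units.val_inv_eq_inv_val]
  rw [← h3] at h2
  have h4 := hg.conj h1 h2
  rwa [show ord (w : Dq hc) + k + -ord (w : Dq hc) = k by ring] at h4

/-- The character of `D'ˣ`. -/
noncomputable def lam (χ : AddChar L ℂ) (w : (Dq hc)ˣ) : ℂ := χ (2 * c * (T (w : Dq hc)).im)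

omit [Fact (∀ r : L, r ^ 2 ≠ c + 0 * r)] in
theorem liftAut_three (h3 : ∀ z, φ (φ (φ z)) = z) (z : QuadraticAlgebra L c 0) :
    liftAut φ c hc (liftAut φ c hc (liftAut φ c hc z)) = z := by
  ext
  · exact h3 z.re
  · exact h3 z.im

theorem lam_mul (h3 : ∀ z, φ (φ (φ z)) = z) (χ : AddChar L ℂ) (w v : (Dq hc)ˣ) :
    lam χ (w * v) = lam χ w * lam χ v := by
  rw [lam, Units.val_mul, T_mul (liftAut_three h3) w.ne_zero v.ne_zero, QuadraticAlgebra.im_add,
    mul_add, AddChar.map_add_eq_mul]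
  rfl

omit [Fact (∀ r : L, r ^ 2 ≠ c + 0 * r)] in
theorem psib_apply (χ : AddChar L ℂ) (g : G L φ) : psib c χ g =
    Psi φ (trChar φ χ) (mon φ (-3) 1 * (g : M L φ) 1 0 + mon φ (-3) c * (g : M L φ) 0 1) := by
  rw [psib, PsiM]
  congr 1
  rw [Matrix.mul_apply, Matrix.mul_apply, Fin.sum_univ_two, Fin.sum_univ_two]
  show 0 * _ + mon φ (-3) 1 * (g : M L φ) 1 0 + (mon φ (-3) c * (g : M L φ) 0 1 + 0 * _) = _
  rw [zero_mul, zero_mul, zero_add, add_zero]

theorem lam_eq_psib (h3 : ∀ z, φ (φ (φ z)) = z) (χ : AddChar L ℂ) (w : (Dq hc)ˣ)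
    (hw : (w : Dq hc) - 1 ∈ P _ _ 2) : lam χ w = psib c χ (iu hc w) := by
  have hz := zpow_three h3
  have h1 : T (w : Dq hc) = tr (liftAut φ c hc) (((w : Dq hc) - 1).coeff 3) := by
    conv_lhs => rw [← add_sub_cancel 1 (w : Dq hc)]
    exact T_one_add hw
  have h2 : ((w : Dq hc) - 1).coeff 3 = (w : Dq hc).coeff 3 := by
    rw [coeff_sub, coeff_one, if_neg (by norm_num), sub_zero]
  have h4 : φ 2 = 2 := map_ofNat φ 2
  rw [lam, h1, h2, psib_apply, iu_val, iota_apply, Psi_apply, coeff_add, trChar_apply]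
  congr 1
  show 2 * c * (tr (liftAut φ c hc) ((w : Dq hc).coeff 3)).im =
    tr φ ((mon φ (-3) 1 * (Cc φ c * Im (w : Dq hc))).coeff 0 +
      (mon φ (-3) c * Im (w : Dq hc)).coeff 0)
  rw [mon_mul_coeff, mon_mul_coeff, hz, Cc_coeff, zero_sub, neg_neg, one_mul]
  show 2 * c * (((w : Dq hc).coeff 3).im + φ (((w : Dq hc).coeff 3).im) +
    φ (φ (((w : Dq hc).coeff 3).im))) =
    tr φ (c * ((w : Dq hc).coeff 3).im + c * ((w : Dq hc).coeff 3).im)
  rw [tr]
  simp only [map_add, map_mul, hc]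
  ring

/-- The inducing condition. -/
def InJ (hc : φ c = c) (g : G L φ) : Prop :=
  ∃ (w : (Dq hc)ˣ) (u : G L φ), InU 2 u ∧ g = iu hc w * u

open Classical in
/-- The inducing character, extended by zero. -/
noncomputable def Lam (hc : φ c = c) (χ : AddChar L ℂ) (g : G L φ) : ℂ :=
  if h : InJ hc g then lam χ h.choose * psib c χ h.choose_spec.choose else 0

theorem Lam_of_not (χ : AddChar L ℂ) {g : G L φ} (h : ¬ InJ hc g) : Lam hc χ g = 0 := dif_neg h

theorem Lam_eq (h3 : ∀ z, φ (φ (φ z)) = z) (χ : AddChar L ℂ) (w : (Dq hc)ˣ) {u : G L φ}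
    (hu : InU 2 u) : Lam hc χ (iu hc w * u) = lam χ w * psib c χ u := by
  have h : InJ hc (iu hc w * u) := ⟨w, u, hu, rfl⟩
  rw [Lam, dif_pos h]
  set w1 := h.choose with hw1
  set u1 := h.choose_spec.choose with hu1
  have h1 : InU 2 u1 := h.choose_spec.choose_spec.1
  have h2 : iu hc w * u = iu hc w1 * u1 := h.choose_spec.choose_spec.2
  have h4 : iu hc (w1⁻¹ * w) = u1 * u⁻¹ := by
    rw [map_mul, map_inv, inv_mul_eq_iff_eq_mul, ← mul_assoc, ← h2, mul_inv_cancel_right]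
  have h5 : InU 2 (iu hc (w1⁻¹ * w)) := by
    rw [h4]
    exact h1.mul (by norm_num) (hu.inv (by norm_num))
  have h6 := lam_eq_psib h3 χ (w1⁻¹ * w) ((InU_iu _).1 h5)
  have h7 : lam χ w = lam χ w1 * lam χ (w1⁻¹ * w) := by
    rw [← lam_mul h3, mul_inv_cancel_left]
  rw [h7, h6, h4, psib_mul χ h1 (hu.inv (by norm_num))]
  have h8 := psib_inv (c := c) χ hu
  linear_combination (-(lam χ w1 * psib c χ u1)) * h8

theorem InJ_mul {g h : G L φ} (hg : InJ hc g) (hh : InJ hc h) : InJ hc (g * h) := by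
  obtain ⟨w, u, hu, rfl⟩ := hg
  obtain ⟨v, s, hs, rfl⟩ := hh
  refine ⟨w * v, (iu hc v⁻¹ * u * (iu hc v⁻¹)⁻¹) * s, (InU_conj_iu v⁻¹ hu).mul (by norm_num) hs, ?_⟩
  rw [map_mul, map_inv]
  group

theorem InJ_inv {g : G L φ} (hg : InJ hc g) : InJ hc g⁻¹ := by
  obtain ⟨w, u, hu, rfl⟩ := hg
  refine ⟨w⁻¹, iu hc w * u⁻¹ * (iu hc w)⁻¹, InU_conj_iu w (hu.inv (by norm_num)), ?_⟩
  rw [map_inv]
  group

theorem Lam_mul (h3 : ∀ z, φ (φ (φ z)) = z) (χ : AddChar L ℂ) {j : G L φ} (hj : InJ hc j)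
    (g : G L φ) : Lam hc χ (j * g) = Lam hc χ j * Lam hc χ g := by
  by_cases hg : InJ hc g
  · obtain ⟨w, u, hu, rfl⟩ := hj
    obtain ⟨v, s, hs, rfl⟩ := hg
    have h1 : iu hc w * u * (iu hc v * s) =
        iu hc (w * v) * ((iu hc v⁻¹ * u * (iu hc v⁻¹)⁻¹) * s) := by
      rw [map_mul, map_inv]
      group
    have hu' := InU_conj_iu v⁻¹ hu
    rw [h1, Lam_eq h3 χ _ (hu'.mul (by norm_num) hs), Lam_eq h3 χ w hu, Lam_eq h3 χ v hs,
      lam_mul h3, psib_mul χ hu' hs, psib_conj h3]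
    ring
  · rw [Lam_of_not χ hg, Lam_of_not, mul_zero]
    intro h
    apply hg
    have h1 := InJ_mul (InJ_inv hj) h
    rwa [inv_mul_cancel_left] at h1

theorem Lam_mul_right (h3 : ∀ z, φ (φ (φ z)) = z) (χ : AddChar L ℂ) {j : G L φ} (hj : InJ hc j)
    (g : G L φ) : Lam hc χ (g * j) = Lam hc χ g * Lam hc χ j := by
  by_cases hg : InJ hc g
  · exact Lam_mul h3 χ hg j
  · rw [Lam_of_not χ hg, Lam_of_not, zero_mul]
    intro h
    apply hg
    have h1 := InJ_mul h (InJ_inv hj)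
    rwa [mul_inv_cancel_right] at h1

theorem InJ_of_InU {u : G L φ} (hu : InU 2 u) : InJ hc u := ⟨1, u, hu, by rw [map_one, one_mul]⟩

theorem InJ_iu (w : (Dq hc)ˣ) : InJ hc (iu hc w) := ⟨w, 1, InU.one 2, by rw [mul_one]⟩

theorem lam_one (h3 : ∀ z, φ (φ (φ z)) = z) (χ : AddChar L ℂ) : lam χ (1 : (Dq hc)ˣ) = 1 := by
  rw [lam_eq_psib h3 χ 1 (by rw [Units.val_one, sub_self]; exact zero_mem _), map_one, psib_one]

theorem Lam_InU (h3 : ∀ z, φ (φ (φ z)) = z) (χ : AddChar L ℂ) {u : G L φ} (hu : InU 2 u) :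
    Lam hc χ u = psib c χ u := by
  have h := Lam_eq (hc := hc) h3 χ 1 hu
  rwa [map_one, one_mul, lam_one h3, one_mul] at h

theorem Lam_iu (h3 : ∀ z, φ (φ (φ z)) = z) (χ : AddChar L ℂ) (w : (Dq hc)ˣ) :
    Lam hc χ (iu hc w) = lam χ w := by
  have h := Lam_eq (hc := hc) h3 χ w (InU.one 2)
  rwa [mul_one, psib_one, mul_one] at h

theorem Lam_one (h3 : ∀ z, φ (φ (φ z)) = z) (χ : AddChar L ℂ) : Lam hc χ (1 : G L φ) = 1 := by
  rw [Lam_InU h3 χ (InU.one 2), psib_one]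

theorem Lam_ne_zero (h3 : ∀ z, φ (φ (φ z)) = z) (χ : AddChar L ℂ) {j : G L φ} (hj : InJ hc j) :
    Lam hc χ j ≠ 0 := by
  intro h
  have h1 := Lam_mul h3 χ hj j⁻¹
  rw [mul_inv_cancel, Lam_one h3, h, zero_mul] at h1
  exact one_ne_zero h1

theorem lam_ne_zero (h3 : ∀ z, φ (φ (φ z)) = z) (χ : AddChar L ℂ) (w : (Dq hc)ˣ) :
    lam χ w ≠ 0 := by
  rw [← Lam_iu h3]
  exact Lam_ne_zero h3 χ (InJ_iu w)

/-- The intersection of the inducing group with the upper triangular matrices. -/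
theorem InJ_nd {x : SkewLaurent L φ} {y : (SkewLaurent L φ)ˣ} (h : InJ hc (n x * d y)) :
    InU 2 (n x * d y) := by
  obtain ⟨w, u, hu, h1⟩ := h
  have h2 : iu hc w⁻¹ * (n x * d y) = u := by
    rw [h1, map_inv, inv_mul_cancel_left]
  have h3 : colW hc ((n x * d y : G L φ) : M L φ) = 1 := by
    rw [nd_val]
    apply eq_of_Re_Im
    · rw [colW, Re_pair, Re_one]
      rfl
    · rw [colW, Im_pair, Im_one]
      show Cc φ c⁻¹ * 0 = 0
      rw [mul_zero]
  have h4 : colW hc (u : M L φ) = ((w⁻¹ : (Dq hc)ˣ) : Dq hc) := by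
    rw [← h2, Units.val_mul, iu_val, colW_iota_mul, h3, mul_one]
  have h5 : InU 2 (iu hc w⁻¹) := by
    rw [InU_iu, ← h4]
    have h6 := colW_mem (hc := hc) hu
    rwa [colW_sub, colW_one] at h6
  have h6 : n x * d y = (iu hc w⁻¹)⁻¹ * u := by rw [← h2, inv_mul_cancel_left]
  rw [h6]
  exact (h5.inv (by norm_num)).mul (by norm_num) hu

theorem InU_nd_iff {k : ℤ} {x : SkewLaurent L φ} {y : (SkewLaurent L φ)ˣ} :
    InU k (n x * d y) ↔ x * (y : SkewLaurent L φ) ∈ P L φ k ∧ (y : SkewLaurent L φ) - 1 ∈ P L φ k := by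
  have h0 : ((n x * d y : G L φ) : M L φ) - 1 =
      !![0, x * (y : SkewLaurent L φ); 0, (y : SkewLaurent L φ) - 1] := by
    rw [nd_val, Matrix.one_fin_two]
    refine Matrix.ext fun i j => ?_
    fin_cases i <;> fin_cases j
    · exact sub_self _
    · exact sub_zero _
    · exact sub_self _
    · rfl
  rw [InU, h0]
  constructor
  · intro h
    exact ⟨h 0 1, h 1 1⟩
  · rintro ⟨h1, h2⟩ i j
    fin_cases i <;> fin_cases j
    · exact zero_mem _
    · exact h1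
    · exact zero_mem _
    · exact h2

end SkewLaurent

end Pool.Agent.UW
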