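import Pool.Agent.Helper89_UW.QL

/-!
# Two by two matrices over `D`
-/

namespace Pool.Agent.UW

open Finset

namespace SkewLaurent

section basic

variable {L : Type} [Field L] {φ : RingAut L}

/-- The group `GL_2(D)`. -/
abbrev G (L : Type) [Field L] (φ : RingAut L) : Type := (M L φ)ˣ

/-- The matrices with entries in `P k`. -/
def MP (L : Type) [Field L] (φ : RingAut L) (k : ℤ) : AddSubgroup (M L φ) where
  carrier := {A | ∀ i j, A i j ∈ P L φ k}
  zero_mem' := fun _ _ => zero_mem _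
  add_mem' := fun hA hB i j => add_mem (hA i j) (hB i j)
  neg_mem' := fun hA i j => neg_mem (hA i j)

theorem MP_anti {m n : ℤ} (h : m ≤ n) {A : M L φ} (hA : A ∈ MP L φ n) : A ∈ MP L φ m :=
  fun i j => P_anti h (hA i j)

theorem MP_mul {m n : ℤ} {A B : M L φ} (hA : A ∈ MP L φ m) (hB : B ∈ MP L φ n) :
    A * B ∈ MP L φ (m + n) := by
  intro i j
  rw [Matrix.mul_apply]
  exact sum_mem fun k _ => mul_mem_P (hA i k) (hB k j)

theorem MP_one : (1 : M L φ) ∈ MP L φ 0 := by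
  intro i j
  rw [Matrix.one_apply]
  split_ifs
  · exact one_mem_P
  · exact zero_mem _

theorem exists_MP (A : M L φ) : ∃ k : ℤ, A ∈ MP L φ k := by
  obtain ⟨a, ha⟩ := exists_mem_P (A 0 0)
  obtain ⟨b, hb⟩ := exists_mem_P (A 0 1)
  obtain ⟨d, hd⟩ := exists_mem_P (A 1 0)
  obtain ⟨e, he⟩ := exists_mem_P (A 1 1)
  refine ⟨min (min a b) (min d e), ?_⟩
  intro i j
  fin_cases i <;> fin_cases j
  · exact P_anti (by lia) ha
  · exact P_anti (by lia) hb
  · exact P_anti (by lia) hd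
  · exact P_anti (by lia) he

/-- A common bound for an invertible matrix and its inverse. -/
theorem exists_MP_G (g : G L φ) : ∃ k : ℕ, (g : M L φ) ∈ MP L φ (-k) ∧
    ((g⁻¹ : G L φ) : M L φ) ∈ MP L φ (-k) := by
  obtain ⟨a, ha⟩ := exists_MP (g : M L φ)
  obtain ⟨b, hb⟩ := exists_MP ((g⁻¹ : G L φ) : M L φ)
  refine ⟨(max (-a) (max (-b) 0)).toNat, ?_, ?_⟩
  · refine MP_anti ?_ ha
    lia
  · refine MP_anti ?_ hb
    lia

/-- The congruence condition. -/
def InU (k : ℤ) (g : G L φ) : Prop := (g : M L φ) - 1 ∈ MP L φ k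

theorem InU.anti {m n : ℤ} (h : m ≤ n) {g : G L φ} (hg : InU n g) : InU m g := MP_anti h hg

theorem InU.mem {k : ℤ} (hk : 0 ≤ k) {g : G L φ} (hg : InU k g) : (g : M L φ) ∈ MP L φ 0 := by
  have h := add_mem (MP_anti hk hg) (MP_one (L := L) (φ := φ))
  rwa [sub_add_cancel] at h

theorem InU.inv_mem {k : ℤ} (hk : 1 ≤ k) {g : G L φ} (hg : InU k g) :
    ((g⁻¹ : G L φ) : M L φ) ∈ MP L φ 0 := by
  have key : ∀ n : ℕ, ((g⁻¹ : G L φ) : M L φ) ∈ MP L φ (-n) →
      ((g⁻¹ : G L φ) : M L φ) ∈ MP L φ 0 := by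
    intro n
    induction n with
    | zero =>
      intro h
      simpa using h
    | succ n ih =>
      intro h
      apply ih
      have h1 : ((g⁻¹ : G L φ) : M L φ) =
          1 - ((g : M L φ) - 1) * ((g⁻¹ : G L φ) : M L φ) := by
        rw [sub_mul, Units.mul_inv, one_mul]
        abel
      rw [h1]
      refine sub_mem (MP_anti (by lia) MP_one) (MP_anti ?_ (MP_mul (MP_anti hk hg) h))
      push_cast
      lia
  obtain ⟨n, -, hn⟩ := exists_MP_G g
  exact key n hn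

theorem InU.one (k : ℤ) : InU k (1 : G L φ) := by
  show ((1 : G L φ) : M L φ) - 1 ∈ MP L φ k
  rw [Units.val_one, sub_self]
  exact zero_mem _

theorem InU.mul {k : ℤ} (hk : 0 ≤ k) {g h : G L φ} (hg : InU k g) (hh : InU k h) :
    InU k (g * h) := by
  show ((g * h : G L φ) : M L φ) - 1 ∈ MP L φ k
  have h1 : ((g * h : G L φ) : M L φ) - 1 = ((g : M L φ) - 1) * (h : M L φ) + ((h : M L φ) - 1) := by
    rw [Units.val_mul, sub_mul, one_mul]
    abel
  rw [h1]
  refine add_mem ?_ hh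
  have h2 := MP_mul hg (hh.mem hk)
  rwa [add_zero] at h2

theorem InU.inv {k : ℤ} (hk : 1 ≤ k) {g : G L φ} (hg : InU k g) : InU k g⁻¹ := by
  show ((g⁻¹ : G L φ) : M L φ) - 1 ∈ MP L φ k
  have h1 : ((g⁻¹ : G L φ) : M L φ) - 1 =
      -(((g⁻¹ : G L φ) : M L φ) * ((g : M L φ) - 1)) := by
    rw [mul_sub, Units.inv_mul, mul_one]
    abel
  rw [h1]
  have h2 := MP_mul (hg.inv_mem hk) hg
  rw [zero_add] at h2
  exact neg_mem h2

theorem InU.conj {k a b : ℤ} {g h : G L φ} (hg : InU k g) (ha : (h : M L φ) ∈ MP L φ a)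
    (hb : ((h⁻¹ : G L φ) : M L φ) ∈ MP L φ b) : InU (a + k + b) (h * g * h⁻¹) := by
  show ((h * g * h⁻¹ : G L φ) : M L φ) - 1 ∈ MP L φ (a + k + b)
  have h1 : ((h * g * h⁻¹ : G L φ) : M L φ) - 1 =
      (h : M L φ) * ((g : M L φ) - 1) * ((h⁻¹ : G L φ) : M L φ) := by
    rw [mul_sub, sub_mul, mul_one, Units.mul_inv, Units.val_mul, Units.val_mul]
  rw [h1]
  exact MP_mul (MP_mul ha hg) hb

/-- The unipotent matrix with upper right entry `x`. -/
noncomputable def n (x : SkewLaurent L φ) : G L φ where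
  val := !![1, x; 0, 1]
  inv := !![1, -x; 0, 1]
  val_inv := by
    rw [Matrix.mul_fin_two, Matrix.one_fin_two]
    simp
  inv_val := by
    rw [Matrix.mul_fin_two, Matrix.one_fin_two]
    simp

/-- The diagonal matrix with entries `1, y`. -/
noncomputable def d (y : (SkewLaurent L φ)ˣ) : G L φ where
  val := !![1, 0; 0, (y : SkewLaurent L φ)]
  inv := !![1, 0; 0, ((y⁻¹ : (SkewLaurent L φ)ˣ) : SkewLaurent L φ)]
  val_inv := by
    rw [Matrix.mul_fin_two, Matrix.one_fin_two]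
    simp
  inv_val := by
    rw [Matrix.mul_fin_two, Matrix.one_fin_two]
    simp

theorem n_val (x : SkewLaurent L φ) : (n x : M L φ) = !![1, x; 0, 1] := rfl

theorem n_inv_val (x : SkewLaurent L φ) : (((n x)⁻¹ : G L φ) : M L φ) = !![1, -x; 0, 1] := rfl

theorem d_val (y : (SkewLaurent L φ)ˣ) : (d y : M L φ) = !![1, 0; 0, (y : SkewLaurent L φ)] := rfl

theorem n_add (x y : SkewLaurent L φ) : n (x + y) = n x * n y := by
  apply Units.ext
  rw [Units.val_mul, n_val, n_val, n_val, Matrix.mul_fin_two]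
  simp [add_comm]

theorem n_zero : n (0 : SkewLaurent L φ) = 1 := by
  apply Units.ext
  rw [n_val, Units.val_one, Matrix.one_fin_two]

theorem n_neg (x : SkewLaurent L φ) : n (-x) = (n x)⁻¹ := by
  apply Units.ext
  rw [n_val, n_inv_val]

theorem d_mul (y z : (SkewLaurent L φ)ˣ) : d (y * z) = d y * d z := by
  apply Units.ext
  rw [Units.val_mul, d_val, d_val, d_val, Matrix.mul_fin_two]
  simp

theorem d_one : d (1 : (SkewLaurent L φ)ˣ) = 1 := by
  apply Units.ext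
  rw [d_val, Units.val_one, Units.val_one, Matrix.one_fin_two]

theorem d_inv (y : (SkewLaurent L φ)ˣ) : d y⁻¹ = (d y)⁻¹ := by
  rw [eq_inv_iff_mul_eq_one, ← d_mul, inv_mul_cancel, d_one]

theorem nd_val (x : SkewLaurent L φ) (y : (SkewLaurent L φ)ˣ) :
    ((n x * d y : G L φ) : M L φ) = !![1, x * y; 0, (y : SkewLaurent L φ)] := by
  rw [Units.val_mul, n_val, d_val, Matrix.mul_fin_two]
  simp

theorem nd_inv_val (x : SkewLaurent L φ) (y : (SkewLaurent L φ)ˣ) :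
    (((n x * d y)⁻¹ : G L φ) : M L φ) =
      !![1, -x; 0, ((y⁻¹ : (SkewLaurent L φ)ˣ) : SkewLaurent L φ)] := by
  rw [mul_inv_rev, ← d_inv, Units.val_mul, d_val, n_inv_val, Matrix.mul_fin_two]
  simp

/-- `d y` normalizes the unipotent matrices. -/
theorem d_mul_n (y : (SkewLaurent L φ)ˣ) (x : SkewLaurent L φ) :
    d y * n x = n (x * ((y⁻¹ : (SkewLaurent L φ)ˣ) : SkewLaurent L φ)) * d y := by
  apply Units.ext
  rw [nd_val, Units.val_mul, d_val, n_val, Matrix.mul_fin_two]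
  simp

theorem eq_nd {g : G L φ} (h0 : (g : M L φ) 0 0 = 1) (h1 : (g : M L φ) 1 0 = 0) :
    ∃ x y, g = n x * d y := by
  have h2 : (g : M L φ) 1 1 ≠ 0 := by
    intro h2
    have h3 := congr_fun (congr_fun g.mul_inv 1) 1
    rw [Matrix.mul_apply, Fin.sum_univ_two, h1, h2, zero_mul, zero_mul, add_zero,
      Matrix.one_apply_eq] at h3
    exact zero_ne_one h3
  refine ⟨(g : M L φ) 0 1 * ((g : M L φ) 1 1)⁻¹, Units.mk0 _ h2, ?_⟩
  apply Units.ext
  rw [nd_val, Units.val_mk0, inv_mul_cancel_right₀ h2]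
  refine Matrix.ext fun i j => ?_
  fin_cases i <;> fin_cases j
  · exact h0
  · rfl
  · exact h1
  · rfl

/-- The trace form on matrices. -/
noncomputable def PsiM (ψ : AddChar L ℂ) (A : M L φ) : ℂ := Psi φ ψ (A 0 0 + A 1 1)

theorem PsiM_add (ψ : AddChar L ℂ) (A B : M L φ) : PsiM ψ (A + B) = PsiM ψ A * PsiM ψ B := by
  rw [PsiM, PsiM, PsiM, ← AddChar.map_add_eq_mul]
  congr 1
  rw [Matrix.add_apply, Matrix.add_apply]
  abel

theorem PsiM_zero (ψ : AddChar L ℂ) : PsiM ψ (0 : M L φ) = 1 := by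
  rw [PsiM, Matrix.zero_apply, Matrix.zero_apply, add_zero, AddChar.map_zero_eq_one]

theorem PsiM_one {ψ : AddChar L ℂ} {A : M L φ} (hA : A ∈ MP L φ 1) : PsiM ψ A = 1 :=
  Psi_one (add_mem (hA 0 0) (hA 1 1))

theorem PsiM_comm {ψ : AddChar L ℂ} (hψ : ∀ x, ψ (φ x) = ψ x) (A B : M L φ) :
    PsiM ψ (A * B) = PsiM ψ (B * A) := by
  rw [PsiM, PsiM]
  simp only [Matrix.mul_apply, Fin.sum_univ_two, AddChar.map_add_eq_mul]
  rw [Psi_comm hψ (A 0 0), Psi_comm hψ (A 0 1), Psi_comm hψ (A 1 0), Psi_comm hψ (A 1 1)]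
  ring

theorem PsiM_conj {ψ : AddChar L ℂ} (hψ : ∀ x, ψ (φ x) = ψ x) (A : M L φ) (g : G L φ) :
    PsiM ψ ((g : M L φ) * A * ((g⁻¹ : G L φ) : M L φ)) = PsiM ψ A := by
  rw [PsiM_comm hψ, ← mul_assoc, Units.inv_mul, one_mul]

end basic

end SkewLaurent

end Pool.Agent.UW
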