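import Pool.Agent.Helper89_UW.Skew

/-!
# Monomials, truncated series and the additive character
-/

namespace Pool.Agent.UW

open Finset

namespace SkewLaurent

variable {L : Type} [Field L] {φ : RingAut L}

/-- The monomial `a ϖ^n`. -/
def mon (φ : RingAut L) (n : ℤ) (a : L) : SkewLaurent L φ :=
  ⟨fun i => if i = n then a else 0, n, fun _ hi => if_neg hi.ne⟩

theorem mon_coeff (n : ℤ) (a : L) (i : ℤ) : (mon φ n a).coeff i = if i = n then a else 0 := rfl

theorem mon_mem (n : ℤ) (a : L) : mon φ n a ∈ P L φ n := fun _ hi => if_neg hi.ne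

theorem mon_mul_coeff (n : ℤ) (a : L) (x : SkewLaurent L φ) (k : ℤ) :
    (mon φ n a * x).coeff k = a * (φ ^ n) (x.coeff (k - n)) := by
  rw [coeff_mul, finsum_eq_single _ n]
  · rw [mon_coeff, if_pos rfl]
  · intro i hi
    rw [mon_coeff, if_neg hi, zero_mul]

theorem mul_mon_coeff (n : ℤ) (a : L) (x : SkewLaurent L φ) (k : ℤ) :
    (x * mon φ n a).coeff k = x.coeff (k - n) * (φ ^ (k - n)) a := by
  rw [coeff_mul, finsum_eq_single _ (k - n)]
  · rw [mon_coeff, if_pos (by lia)]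
  · intro i hi
    rw [mon_coeff, if_neg (by lia), map_zero, mul_zero]

theorem mon_mul_mon (n k : ℤ) (a b : L) :
    mon φ n a * mon φ k b = mon φ (n + k) (a * (φ ^ n) b) := by
  ext i
  rw [mon_mul_coeff, mon_coeff, mon_coeff]
  by_cases h : i - n = k
  · rw [if_pos h, if_pos (by lia)]
  · rw [if_neg h, if_neg (by lia), map_zero, mul_zero]

theorem mon_add (n : ℤ) (a b : L) : mon φ n (a + b) = mon φ n a + mon φ n b := by
  ext i
  rw [coeff_add, mon_coeff, mon_coeff, mon_coeff]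
  split_ifs
  · rfl
  · rw [add_zero]

theorem mon_zero_one : mon φ 0 (1 : L) = 1 := rfl

theorem mon_ne_zero {n : ℤ} {a : L} (ha : a ≠ 0) : mon φ n a ≠ 0 := by
  intro h
  have h1 : (mon φ n a).coeff n = 0 := by rw [h, coeff_zero]
  rw [mon_coeff, if_pos rfl] at h1
  exact ha h1

/-- A series with terms in degrees divisible by the order of `φ` and coefficients fixed by `φ` is
central. -/
theorem mon_central {n : ℤ} {a : L} (hn : φ ^ n = 1) (ha : φ a = a) (x : SkewLaurent L φ) :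
    mon φ n a * x = x * mon φ n a := by
  ext k
  rw [mon_mul_coeff, mul_mon_coeff, hn]
  have h1 : ∀ j : ℤ, (φ ^ j) a = a := by
    have hs : φ ∈ MulAction.stabilizer (RingAut L) a := ha
    intro j
    exact (MulAction.stabilizer (RingAut L) a).zpow_mem hs j
  rw [h1, mul_comm]
  rfl

/-- The `n`-th coefficient as a homomorphism. -/
def coeffHom (L : Type) [Field L] (φ : RingAut L) (n : ℤ) : SkewLaurent L φ →+ L where
  toFun x := x.coeff n
  map_zero' := rfl
  map_add' _ _ := rfl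

/-- The additive group of the series `∑_{a ≤ i < b} x_i ϖ^i`. -/
def S (L : Type) [Field L] (φ : RingAut L) (a b : ℤ) : AddSubgroup (SkewLaurent L φ) where
  carrier := {x | (∀ i < a, x.coeff i = 0) ∧ ∀ i ≥ b, x.coeff i = 0}
  zero_mem' := ⟨fun _ _ => rfl, fun _ _ => rfl⟩
  add_mem' := fun {x y} hx hy => ⟨fun i hi => by rw [coeff_add, hx.1 i hi, hy.1 i hi, add_zero],
    fun i hi => by rw [coeff_add, hx.2 i hi, hy.2 i hi, add_zero]⟩
  neg_mem' := fun {x} hx => ⟨fun i hi => by rw [coeff_neg, hx.1 i hi, neg_zero],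
    fun i hi => by rw [coeff_neg, hx.2 i hi, neg_zero]⟩

theorem S_le_P (a b : ℤ) : S L φ a b ≤ P L φ a := fun _ hx => hx.1

instance finite_S [Finite L] (a b : ℤ) : Finite (S L φ a b) := by
  apply Finite.of_injective (fun (x : S L φ a b) (i : Set.Ico a b) => x.1.coeff i.1)
  intro x y h
  apply Subtype.ext
  ext i
  rcases lt_or_ge i a with h1 | h1
  · rw [x.2.1 i h1, y.2.1 i h1]
  · rcases lt_or_ge i b with h2 | h2
    · exact congr_fun h ⟨i, h1, h2⟩
    · rw [x.2.2 i h2, y.2.2 i h2]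

/-- The truncation. -/
def trunc (a b : ℤ) (x : SkewLaurent L φ) : SkewLaurent L φ :=
  ⟨fun i => if a ≤ i ∧ i < b then x.coeff i else 0, a, fun i hi => if_neg (by lia)⟩

theorem trunc_mem (a b : ℤ) (x : SkewLaurent L φ) : trunc a b x ∈ S L φ a b :=
  ⟨fun i hi => if_neg (by lia), fun i hi => if_neg (by lia)⟩

theorem sub_trunc_mem {a b : ℤ} {x : SkewLaurent L φ} (hx : x ∈ P L φ a) :
    x - trunc a b x ∈ P L φ b := by
  intro i hi
  rw [coeff_sub]
  show x.coeff i - (if a ≤ i ∧ i < b then x.coeff i else 0) = 0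
  rcases lt_or_ge i a with h | h
  · rw [hx i h, if_neg (by lia), sub_zero]
  · rw [if_pos ⟨h, hi⟩, sub_self]

/-- `P a / P b` is finite. -/
theorem finite_quot [Finite L] (a b : ℤ) :
    {q : SkewLaurent L φ ⧸ P L φ b | q.out ∈ P L φ a}.Finite := by
  have h1 : Set.InjOn (fun (q : SkewLaurent L φ ⧸ P L φ b) (i : Set.Ico a b) => q.out.coeff i.1)
      {q | q.out ∈ P L φ a} := by
    intro q hq r hr h
    rw [← QuotientAddGroup.out_eq' q, ← QuotientAddGroup.out_eq' r, QuotientAddGroup.eq]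
    intro i hi
    rw [coeff_add, coeff_neg]
    rcases lt_or_ge i a with h1 | h1
    · rw [hq i h1, hr i h1, neg_zero, add_zero]
    · have h2 : q.out.coeff i = r.out.coeff i := congr_fun h ⟨i, h1, hi⟩
      rw [h2, neg_add_cancel]
  exact Set.Finite.of_injOn (fun _ _ => Set.mem_univ _) h1 Set.finite_univ

/-- The additive character of `D` given by an additive character of `L`. -/
noncomputable def Psi (φ : RingAut L) (ψ : AddChar L ℂ) : AddChar (SkewLaurent L φ) ℂ :=
  ψ.compAddMonoidHom (coeffHom L φ 0)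

theorem Psi_apply (ψ : AddChar L ℂ) (x : SkewLaurent L φ) : Psi φ ψ x = ψ (x.coeff 0) := rfl

theorem Psi_one {ψ : AddChar L ℂ} {x : SkewLaurent L φ} (hx : x ∈ P L φ 1) : Psi φ ψ x = 1 := by
  rw [Psi_apply, hx 0 (by norm_num), AddChar.map_zero_eq_one]

theorem zpow_inv_char {ψ : AddChar L ℂ} (hψ : ∀ x, ψ (φ x) = ψ x) (n : ℤ) (x : L) :
    ψ ((φ ^ n) x) = ψ x := by
  have h1 : ∀ (n : ℕ) (x : L), ψ ((φ ^ n) x) = ψ x := by
    intro n
    induction n with
    | zero => intro x; rfl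
    | succ n ih =>
      intro x
      rw [pow_succ']
      show ψ (φ ((φ ^ n) x)) = _
      rw [hψ, ih]
  rcases n with n | n
  · exact h1 n x
  · have h2 := h1 (n + 1) ((φ ^ (Int.negSucc n)) x)
    rw [← h2]
    congr 1
    rw [zpow_negSucc]
    exact (φ ^ (n + 1)).apply_symm_apply x

theorem char_sum {A ι : Type} [AddCommGroup A] (ψ : AddChar A ℂ) (s : Finset ι) (f : ι → A) :
    ψ (∑ i ∈ s, f i) = ∏ i ∈ s, ψ (f i) := by
  classical
  induction s using Finset.induction_on with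
  | empty => rw [sum_empty, prod_empty, AddChar.map_zero_eq_one]
  | insert a s ha ih => rw [sum_insert ha, prod_insert ha, AddChar.map_add_eq_mul, ih]

/-- `Ψ` is a trace form. -/
theorem Psi_comm {ψ : AddChar L ℂ} (hψ : ∀ x, ψ (φ x) = ψ x) (x y : SkewLaurent L φ) :
    Psi φ ψ (x * y) = Psi φ ψ (y * x) := by
  obtain ⟨m, hm⟩ := x.bdd
  obtain ⟨k, hk⟩ := y.bdd
  rw [Psi_apply, Psi_apply, coeff_mul_eq x y hm hk, coeff_mul_eq y x hk hm,
    char_sum, char_sum]
  refine prod_nbij' (fun i => -i) (fun i => -i) ?_ ?_ ?_ ?_ ?_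
  · intro i hi
    rw [mem_Icc] at hi ⊢
    lia
  · intro i hi
    rw [mem_Icc] at hi ⊢
    lia
  · intro i _
    exact neg_neg i
  · intro i _
    exact neg_neg i
  · intro i _
    rw [← zpow_inv_char hψ (-i) (x.coeff i * (φ ^ i) (y.coeff (0 - i))), map_mul]
    congr 1
    have h1 : (φ ^ (-i)) ((φ ^ i) (y.coeff (0 - i))) = y.coeff (0 - i) := by
      rw [zpow_neg]
      exact (φ ^ i).symm_apply_apply _
    rw [h1, mul_comm, zero_sub, zero_sub, neg_neg]

/-- `Ψ` is nondegenerate. -/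
theorem mem_of_Psi {ψ : AddChar L ℂ} (hψ1 : ψ ≠ 1) {m : ℤ} {z : SkewLaurent L φ}
    (h : ∀ x ∈ P L φ m, Psi φ ψ (z * x) = 1) : z ∈ P L φ (1 - m) := by
  by_contra hz
  have hz0 : z ≠ 0 := by
    rintro rfl
    exact hz (zero_mem _)
  obtain ⟨k, hk, hk0⟩ := exists_order hz0
  have h1 : k ≤ -m := by
    by_contra h1
    exact hz (P_anti (by lia) hk)
  obtain ⟨a, ha⟩ : ∃ a, ψ a ≠ 1 := by
    by_contra hcon
    push Not at hcon
    exact hψ1 (by ext a; rw [hcon a]; rfl)
  have h2 := h (mon φ (-k) ((φ ^ (-k)) ((z.coeff k)⁻¹ * a))) (P_anti (by lia) (mon_mem _ _))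
  rw [Psi_apply, mul_mon_coeff, zero_sub, neg_neg] at h2
  have h3 : (φ ^ k) ((φ ^ (-k)) ((z.coeff k)⁻¹ * a)) = (z.coeff k)⁻¹ * a := by
    rw [zpow_neg]
    exact (φ ^ k).apply_symm_apply _
  rw [h3, mul_inv_cancel_left₀ hk0] at h2
  exact ha h2

theorem exists_Psi_ne {ψ : AddChar L ℂ} (hψ1 : ψ ≠ 1) {m : ℤ} {z : SkewLaurent L φ}
    (hz : z ∉ P L φ (1 - m)) : ∃ x ∈ P L φ m, Psi φ ψ (z * x) ≠ 1 := by
  by_contra h
  push Not at h
  exact hz (mem_of_Psi hψ1 h)

/-- Sums of characters over `S a b`. -/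
theorem sum_S [Finite L] {ψ : AddChar L ℂ} (a b : ℤ) (z : SkewLaurent L φ) :
    ∑ᶠ s : S L φ a b, Psi φ ψ (z * s.1) =
      open Classical in if ∀ s : S L φ a b, Psi φ ψ (z * s.1) = 1 then (Nat.card (S L φ a b) : ℂ)
        else 0 := by
  classical
  have := Fintype.ofFinite (S L φ a b)
  rw [finsum_eq_sum_of_fintype]
  let χ : AddChar (S L φ a b) ℂ := (Psi φ ψ).compAddMonoidHom
    ((AddMonoidHom.mulLeft z).comp (S L φ a b).subtype)
  have h1 : ∀ s : S L φ a b, Psi φ ψ (z * s.1) = χ s := fun s => rfl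
  simp only [h1]
  rw [AddChar.sum_eq_ite χ]
  by_cases h : χ = 0
  · rw [if_pos h, if_pos]
    · rw [Nat.card_eq_fintype_card]
    · intro s
      rw [h]
      rfl
  · rw [if_neg h, if_neg]
    intro h2
    exact h (by ext s; rw [h2 s]; rfl)

end SkewLaurent

end Pool.Agent.UW
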