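import Pool.Agent.Helper89_UW.T
import Mathlib.Algebra.QuadraticAlgebra.Basic

/-!
# The unramified quadratic extension `D'` of `D` inside the matrices over `D`
-/

namespace Pool.Agent.UW

open Finset

namespace SkewLaurent

variable {L : Type} [Field L] {φ : RingAut L}

/-- The extension of an automorphism fixing `c` to `L(√c)`. -/
def liftAut (φ : RingAut L) (c : L) (hc : φ c = c) : RingAut (QuadraticAlgebra L c 0) where
  toFun z := ⟨φ z.re, φ z.im⟩
  invFun z := ⟨φ.symm z.re, φ.symm z.im⟩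
  left_inv z := by
    ext
    · exact φ.symm_apply_apply z.re
    · exact φ.symm_apply_apply z.im
  right_inv z := by
    ext
    · exact φ.apply_symm_apply z.re
    · exact φ.apply_symm_apply z.im
  map_mul' z w := by
    ext
    · simp only [QuadraticAlgebra.re_mul, map_add, map_mul, hc]
    · simp only [QuadraticAlgebra.im_mul, map_add, map_mul, zero_mul, map_zero]
  map_add' z w := by
    ext
    · simp only [QuadraticAlgebra.re_add, map_add]
    · simp only [QuadraticAlgebra.im_add, map_add]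

theorem liftAut_re (c : L) (hc : φ c = c) (z : QuadraticAlgebra L c 0) :
    (liftAut φ c hc z).re = φ z.re := rfl

theorem liftAut_im (c : L) (hc : φ c = c) (z : QuadraticAlgebra L c 0) :
    (liftAut φ c hc z).im = φ z.im := rfl

theorem liftAut_pow (c : L) (hc : φ c = c) (n : ℕ) (z : QuadraticAlgebra L c 0) :
    (liftAut φ c hc ^ n) z = ⟨(φ ^ n) z.re, (φ ^ n) z.im⟩ := by
  induction n generalizing z with
  | zero => rfl
  | succ n ih =>
    rw [pow_succ, pow_succ]
    show (liftAut φ c hc ^ n) (liftAut φ c hc z) = _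
    rw [ih]
    rfl

theorem liftAut_zpow (c : L) (hc : φ c = c) (n : ℤ) (z : QuadraticAlgebra L c 0) :
    (liftAut φ c hc ^ n) z = ⟨(φ ^ n) z.re, (φ ^ n) z.im⟩ := by
  rcases n with n | n
  · exact liftAut_pow c hc n z
  · apply (liftAut φ c hc ^ (n + 1)).injective
    have hR := liftAut_pow c hc (n + 1)
      ⟨(φ ^ Int.negSucc n) z.re, (φ ^ Int.negSucc n) z.im⟩
    rw [hR]
    rw [zpow_negSucc, zpow_negSucc]
    have h1 : (liftAut φ c hc ^ (n + 1)) ((liftAut φ c hc ^ (n + 1))⁻¹ z) = z :=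
      (liftAut φ c hc ^ (n + 1)).apply_symm_apply z
    rw [h1]
    have h2 : ∀ x : L, (φ ^ (n + 1)) ((φ ^ (n + 1))⁻¹ x) = x :=
      fun x => (φ ^ (n + 1)).apply_symm_apply x
    rw [h2, h2]

variable {c : L} {hc : φ c = c} [Fact (∀ r : L, r ^ 2 ≠ c + 0 * r)]

/-- The real part of a series over `L(√c)`. -/
def Re (w : SkewLaurent (QuadraticAlgebra L c 0) (liftAut φ c hc)) : SkewLaurent L φ where
  coeff i := (w.coeff i).re
  bdd := by
    obtain ⟨m, hm⟩ := w.bdd
    exact ⟨m, fun i hi => by rw [hm i hi]; rfl⟩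

/-- The imaginary part of a series over `L(√c)`. -/
def Im (w : SkewLaurent (QuadraticAlgebra L c 0) (liftAut φ c hc)) : SkewLaurent L φ where
  coeff i := (w.coeff i).im
  bdd := by
    obtain ⟨m, hm⟩ := w.bdd
    exact ⟨m, fun i hi => by rw [hm i hi]; rfl⟩

/-- The series over `L(√c)` with given real and imaginary parts. -/
def pair (hc : φ c = c) (a b : SkewLaurent L φ) :
    SkewLaurent (QuadraticAlgebra L c 0) (liftAut φ c hc) where
  coeff i := ⟨a.coeff i, b.coeff i⟩
  bdd := by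
    obtain ⟨m, hm⟩ := a.bdd
    obtain ⟨k, hk⟩ := b.bdd
    exact ⟨min m k, fun i hi => by
      rw [hm i (by lia), hk i (by lia)]
      rfl⟩

theorem Re_pair (a b : SkewLaurent L φ) : Re (pair hc a b) = a := rfl

theorem Im_pair (a b : SkewLaurent L φ) : Im (pair hc a b) = b := rfl

theorem pair_Re_Im (w : SkewLaurent (QuadraticAlgebra L c 0) (liftAut φ c hc)) :
    pair hc (Re w) (Im w) = w := rfl

theorem Re_coeff (w : SkewLaurent (QuadraticAlgebra L c 0) (liftAut φ c hc)) (i : ℤ) :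
    (Re w).coeff i = (w.coeff i).re := rfl

theorem Im_coeff (w : SkewLaurent (QuadraticAlgebra L c 0) (liftAut φ c hc)) (i : ℤ) :
    (Im w).coeff i = (w.coeff i).im := rfl

theorem mem_P_iff (w : SkewLaurent (QuadraticAlgebra L c 0) (liftAut φ c hc)) (m : ℤ) :
    w ∈ P _ _ m ↔ Re w ∈ P L φ m ∧ Im w ∈ P L φ m := by
  constructor
  · intro h
    exact ⟨fun i hi => by rw [Re_coeff, h i hi]; rfl, fun i hi => by rw [Im_coeff, h i hi]; rfl⟩
  · rintro ⟨h1, h2⟩ i hi
    ext
    · exact h1 i hi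
    · exact h2 i hi

theorem Re_add (w v : SkewLaurent (QuadraticAlgebra L c 0) (liftAut φ c hc)) :
    Re (w + v) = Re w + Re v := rfl

theorem Im_add (w v : SkewLaurent (QuadraticAlgebra L c 0) (liftAut φ c hc)) :
    Im (w + v) = Im w + Im v := rfl

theorem Re_one : Re (1 : SkewLaurent (QuadraticAlgebra L c 0) (liftAut φ c hc)) = 1 := by
  ext i
  rw [Re_coeff, coeff_one, coeff_one]
  split_ifs <;> rfl

theorem Im_one : Im (1 : SkewLaurent (QuadraticAlgebra L c 0) (liftAut φ c hc)) = 0 := by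
  ext i
  rw [Im_coeff, coeff_one, coeff_zero]
  split_ifs <;> rfl

omit [Fact (∀ r : L, r ^ 2 ≠ c + 0 * r)] in
theorem re_sum {ι : Type} (s : Finset ι) (f : ι → QuadraticAlgebra L c 0) :
    (∑ i ∈ s, f i).re = ∑ i ∈ s, (f i).re := by
  classical
  induction s using Finset.induction_on with
  | empty => rfl
  | insert a s ha ih => rw [sum_insert ha, sum_insert ha, QuadraticAlgebra.re_add, ih]

omit [Fact (∀ r : L, r ^ 2 ≠ c + 0 * r)] in
theorem im_sum {ι : Type} (s : Finset ι) (f : ι → QuadraticAlgebra L c 0) :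
    (∑ i ∈ s, f i).im = ∑ i ∈ s, (f i).im := by
  classical
  induction s using Finset.induction_on with
  | empty => rfl
  | insert a s ha ih => rw [sum_insert ha, sum_insert ha, QuadraticAlgebra.im_add, ih]

/-- The constant series `c`. -/
def Cc (φ : RingAut L) (c : L) : SkewLaurent L φ := mon φ 0 c

omit [Fact (∀ r : L, r ^ 2 ≠ c + 0 * r)] in
theorem Cc_coeff (x : SkewLaurent L φ) (i : ℤ) : (Cc φ c * x).coeff i = c * x.coeff i := by
  rw [Cc, mon_mul_coeff, sub_zero]
  rfl

omit [Fact (∀ r : L, r ^ 2 ≠ c + 0 * r)] in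
theorem Cc_comm (hc : φ c = c) (x : SkewLaurent L φ) : Cc φ c * x = x * Cc φ c :=
  mon_central (zpow_zero φ) hc x

omit [Fact (∀ r : L, r ^ 2 ≠ c + 0 * r)] in
theorem Cc_mem {m : ℤ} {x : SkewLaurent L φ} (hx : x ∈ P L φ m) : Cc φ c * x ∈ P L φ m := by
  intro i hi
  rw [Cc_coeff, hx i hi, mul_zero]

theorem Re_mul (w v : SkewLaurent (QuadraticAlgebra L c 0) (liftAut φ c hc)) :
    Re (w * v) = Re w * Re v + Cc φ c * (Im w * Im v) := by
  obtain ⟨m, hm⟩ := w.bdd
  obtain ⟨k, hk⟩ := v.bdd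
  have hm1 : Re w ∈ P L φ m ∧ Im w ∈ P L φ m := (mem_P_iff w m).1 hm
  have hk1 : Re v ∈ P L φ k ∧ Im v ∈ P L φ k := (mem_P_iff v k).1 hk
  ext n
  rw [Re_coeff, coeff_mul_eq w v hm hk, re_sum, coeff_add, Cc_coeff,
    coeff_mul_eq _ _ hm1.1 hk1.1, coeff_mul_eq _ _ hm1.2 hk1.2, mul_sum, ← sum_add_distrib]
  refine sum_congr rfl fun i _ => ?_
  rw [QuadraticAlgebra.re_mul, liftAut_zpow, Re_coeff, Re_coeff, Im_coeff, Im_coeff]
  ring

theorem Im_mul (w v : SkewLaurent (QuadraticAlgebra L c 0) (liftAut φ c hc)) :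
    Im (w * v) = Re w * Im v + Im w * Re v := by
  obtain ⟨m, hm⟩ := w.bdd
  obtain ⟨k, hk⟩ := v.bdd
  have hm1 : Re w ∈ P L φ m ∧ Im w ∈ P L φ m := (mem_P_iff w m).1 hm
  have hk1 : Re v ∈ P L φ k ∧ Im v ∈ P L φ k := (mem_P_iff v k).1 hk
  ext n
  rw [Im_coeff, coeff_mul_eq w v hm hk, im_sum, coeff_add,
    coeff_mul_eq _ _ hm1.1 hk1.2, coeff_mul_eq _ _ hm1.2 hk1.1, ← sum_add_distrib]
  refine sum_congr rfl fun i _ => ?_
  rw [QuadraticAlgebra.im_mul, liftAut_zpow, Re_coeff, Re_coeff, Im_coeff, Im_coeff]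
  ring

/-- The matrices of size two over `D`. -/
abbrev M (L : Type) [Field L] (φ : RingAut L) : Type := Matrix (Fin 2) (Fin 2) (SkewLaurent L φ)

/-- The embedding of `D'` in the matrices over `D`. -/
noncomputable def iota (hc : φ c = c) :
    SkewLaurent (QuadraticAlgebra L c 0) (liftAut φ c hc) →+* M L φ where
  toFun w := !![Re w, Im w; Cc φ c * Im w, Re w]
  map_one' := by
    rw [Re_one, Im_one, mul_zero, Matrix.one_fin_two]
  map_zero' := by
    refine Matrix.ext fun i j => ?_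
    fin_cases i <;> fin_cases j
    · rfl
    · rfl
    · show Cc φ c * (Im (0 : SkewLaurent (QuadraticAlgebra L c 0) (liftAut φ c hc))) = 0
      have h : Im (0 : SkewLaurent (QuadraticAlgebra L c 0) (liftAut φ c hc)) = 0 := rfl
      rw [h, mul_zero]
    · rfl
  map_mul' w v := by
    rw [Matrix.mul_fin_two, Re_mul, Im_mul]
    have h1 : ∀ x : SkewLaurent L φ, Re w * (Cc φ c * x) = Cc φ c * (Re w * x) := by
      intro x
      rw [← mul_assoc, ← mul_assoc, Cc_comm hc (Re w)]
    have h2 : ∀ x : SkewLaurent L φ, Im w * (Cc φ c * x) = Cc φ c * (Im w * x) := by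
      intro x
      rw [← mul_assoc, ← mul_assoc, Cc_comm hc (Im w)]
    rw [h1, h2, mul_add, mul_assoc, mul_assoc, add_comm (Cc φ c * (Re w * Im v)),
      add_comm (Re w * Re v)]
  map_add' w v := by
    refine Matrix.ext fun i j => ?_
    fin_cases i <;> fin_cases j
    · rfl
    · rfl
    · show Cc φ c * Im (w + v) = Cc φ c * Im w + Cc φ c * Im v
      rw [Im_add, mul_add]
    · rfl

theorem iota_apply (w : SkewLaurent (QuadraticAlgebra L c 0) (liftAut φ c hc)) :
    iota hc w = !![Re w, Im w; Cc φ c * Im w, Re w] := rfl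

end SkewLaurent

end Pool.Agent.UW
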