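import Pool.Agent.Helper89_UW.Inj

/-!
# Irreducibility, cuspidality and the uniqueness of the degenerate Whittaker model
-/

namespace Pool.Agent.UW

open Finset

namespace SkewLaurent

variable {L : Type} [Field L] {φ : RingAut L} {c : L} [Fact (∀ r : L, r ^ 2 ≠ c + 0 * r)]
  {hc : φ c = c} {χ : AddChar L ℂ} [Finite L]

theorem avg_mem {W : Submodule ℂ (Vs hc χ)} (hW : ∀ g, ∀ v ∈ W, rho hc χ g v ∈ W) (a b : ℤ)
    (ys : (SkewLaurent L φ)ˣ) {f : Vs hc χ} (hf : f ∈ W) : avg a b ys f ∈ W := by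
  rw [avg]
  exact sum_mem fun s _ => Submodule.smul_mem _ _ (hW _ _ hf)

omit [Finite L] [Fact (∀ r : L, r ^ 2 ≠ c + 0 * r)] in
theorem inv_sub_one_iff {k : ℤ} (hk : 1 ≤ k) (u : (SkewLaurent L φ)ˣ) :
    ((u⁻¹ : (SkewLaurent L φ)ˣ) : SkewLaurent L φ) - 1 ∈ P L φ k ↔
      (u : SkewLaurent L φ) - 1 ∈ P L φ k := by
  constructor
  · intro h
    have h1 := (inv_sub_one_mem hk h).2.2
    rwa [inv_inv] at h1
  · intro h
    exact (inv_sub_one_mem hk h).2.2

/-- The counting of the representatives of the principal units. -/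
theorem count_pu (l : ℕ) (C : ℂ) (y : (SkewLaurent L φ)ˣ)
    (hS : ∀ s : S L φ 2 (l + 2), (s : SkewLaurent L φ) ∈ P L φ 1) :
    ∑ s : S L φ 2 (l + 2), (open Classical in if ((y * pu (s : SkewLaurent L φ) (hS s) :
      (SkewLaurent L φ)ˣ) : SkewLaurent L φ) - 1 ∈ P L φ (l + 2) then C else 0) =
      open Classical in if (y : SkewLaurent L φ) - 1 ∈ P L φ 2 then C else 0 := by
  classical
  have hpu : ∀ s : S L φ 2 (l + 2),
      (pu (s : SkewLaurent L φ) (hS s) : SkewLaurent L φ) - 1 ∈ P L φ 2 := by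
    intro s
    rw [pu_val, add_sub_cancel_left]
    exact S_le_P _ _ s.2
  split_ifs with hy
  · obtain ⟨h0, h1, h2⟩ := inv_sub_one_mem (by norm_num) hy
    set s0 : S L φ 2 (l + 2) :=
      ⟨trunc 2 (l + 2) (((y⁻¹ : (SkewLaurent L φ)ˣ) : SkewLaurent L φ) - 1), trunc_mem _ _ _⟩
      with hs0
    rw [sum_eq_single s0]
    · rw [if_pos]
      have h4 : ((y * pu (s0 : SkewLaurent L φ) (hS s0) : (SkewLaurent L φ)ˣ) :
          SkewLaurent L φ) - 1 = -((y : SkewLaurent L φ) *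
          ((((y⁻¹ : (SkewLaurent L φ)ˣ) : SkewLaurent L φ) - 1) - (s0 : SkewLaurent L φ))) := by
        rw [Units.val_mul, pu_val, mul_sub, mul_sub, Units.mul_inv, mul_add, mul_one]
        abel
      rw [h4]
      have h5 := mul_mem_P h0 (sub_trunc_mem h2 (b := l + 2))
      rw [zero_add] at h5
      exact neg_mem h5
    · intro s _ hs
      rw [if_neg]
      intro h4
      apply hs
      have h5 : ((y⁻¹ : (SkewLaurent L φ)ˣ) : SkewLaurent L φ) *
          (((y * pu (s : SkewLaurent L φ) (hS s) : (SkewLaurent L φ)ˣ) :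
          SkewLaurent L φ) - 1) = (s : SkewLaurent L φ) -
          (((y⁻¹ : (SkewLaurent L φ)ˣ) : SkewLaurent L φ) - 1) := by
        rw [Units.val_mul, mul_sub, ← mul_assoc, Units.inv_mul, one_mul, mul_one, pu_val]
        abel
      have h6 := mul_mem_P h1 h4
      rw [h5, zero_add] at h6
      apply Subtype.ext
      ext i
      rcases lt_or_ge i 2 with h7 | h7
      · rw [s.2.1 i h7, s0.2.1 i h7]
      · rcases lt_or_ge i (l + 2) with h8 | h8
        · have h9 := h6 i h8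
          rw [coeff_sub, sub_eq_zero] at h9
          rw [h9]
          show _ = (if 2 ≤ i ∧ i < l + 2 then
            (((y⁻¹ : (SkewLaurent L φ)ˣ) : SkewLaurent L φ) - 1).coeff i else 0)
          rw [if_pos ⟨h7, h8⟩]
        · rw [s.2.2 i h8, s0.2.2 i h8]
    · intro h
      exact absurd (mem_univ _) h
  · refine sum_eq_zero fun s _ => ?_
    rw [if_neg]
    intro h
    apply hy
    have h1 : ((y * pu (s : SkewLaurent L φ) (hS s) : (SkewLaurent L φ)ˣ) :
        SkewLaurent L φ) - 1 ∈ P L φ 2 := P_anti (by lia) h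
    obtain ⟨e0, e1, e2⟩ := inv_sub_one_mem (by norm_num) (hpu s)
    obtain ⟨g0, g1, g2⟩ := inv_sub_one_mem (by norm_num) h1
    have h4 : (y : SkewLaurent L φ) - 1 =
        (((y * pu (s : SkewLaurent L φ) (hS s) : (SkewLaurent L φ)ˣ) : SkewLaurent L φ) - 1) *
        (((pu (s : SkewLaurent L φ) (hS s))⁻¹ : (SkewLaurent L φ)ˣ) : SkewLaurent L φ) +
        ((((pu (s : SkewLaurent L φ) (hS s))⁻¹ : (SkewLaurent L φ)ˣ) : SkewLaurent L φ) - 1) := by
      rw [sub_mul, Units.val_mul, mul_assoc, Units.mul_inv, mul_one, one_mul]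
      abel
    rw [h4]
    have h5 := mul_mem_P h1 e1
    rw [add_zero] at h5
    exact add_mem h5 e2

/-- The induced representation is irreducible. -/
theorem irred (h3 : ∀ z, φ (φ (φ z)) = z) (hψ1 : trChar φ χ ≠ 1) (W : Submodule ℂ (Vs hc χ))
    (hW : ∀ g, ∀ v ∈ W, rho hc χ g v ∈ W) (h0 : W ≠ ⊥) : W = ⊤ := by
  classical
  obtain ⟨f, hf, hf0⟩ := (Submodule.ne_bot_iff W).1 h0
  obtain ⟨y1, hy1⟩ : ∃ y1, Kl hc χ f y1 ≠ 0 := by
    by_contra h
    push Not at h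
    exact hf0 (Kl_inj h3 hψ1 f h)
  set f1 := rho hc χ (d y1) f with hf1
  have hf1W : f1 ∈ W := hW _ _ hf
  have hf11 : Kl hc χ f1 1 ≠ 0 := by
    rw [hf1, Kl_d, one_mul]
    exact hy1
  obtain ⟨k, hk⟩ := Kl_supp f1
  obtain ⟨l, hl⟩ := Kl_loc h3 f1
  set C : ℂ := (Nat.card (S L φ (2 - l) (k + 4)) : ℂ) * Kl hc χ f1 1 with hC
  have hC0 : C ≠ 0 := mul_ne_zero (card_S_ne_zero _ _) hf11
  set f2 := avg (2 - l) (k + 4) 1 f1 with hf2
  have hf2W : f2 ∈ W := avg_mem hW _ _ _ hf1W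
  have hK2 : ∀ y : (SkewLaurent L φ)ˣ, Kl hc χ f2 y =
      if (y : SkewLaurent L φ) - 1 ∈ P L φ (l + 2) then C else 0 := by
    intro y
    rw [hf2, Kl_avg h3 hψ1]
    · rw [inv_one, Units.val_one]
      have e1 : (4 : ℤ) - (2 - l) = l + 2 := by ring
      simp only [e1, inv_sub_one_iff (show (1 : ℤ) ≤ l + 2 by lia) y]
      split_ifs with h
      · rw [hC]
        congr 1
        have h4 := hl y (P_anti (by lia) h) 1
        rwa [mul_one] at h4
      · rfl
    · intro h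
      rw [inv_one, Units.val_one]
      exact sub_mem (hk y h).2 (P_anti (by lia) one_mem_P)
  have hS : ∀ s : S L φ 2 (l + 2), (s : SkewLaurent L φ) ∈ P L φ 1 := fun s =>
    P_anti (by norm_num) (S_le_P _ _ s.2)
  set f3 : Vs hc χ := ∑ s : S L φ 2 (l + 2), rho hc χ (d (pu (s : SkewLaurent L φ) (hS s))) f2
    with hf3
  have hf3W : f3 ∈ W := sum_mem fun s _ => hW _ _ hf2W
  have hK3 : ∀ y : (SkewLaurent L φ)ˣ, Kl hc χ f3 y =
      if (y : SkewLaurent L φ) - 1 ∈ P L φ 2 then C else 0 := by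
    intro y
    rw [hf3, map_sum, Finset.sum_apply, ← count_pu l C y hS]
    refine sum_congr rfl fun s _ => ?_
    rw [Kl_d, hK2]
  have h4 : f3 - C • f0 hc χ = 0 := by
    apply Kl_inj h3 hψ1
    intro y
    rw [map_sub, map_smul]
    show Kl hc χ f3 y - C * Kl hc χ (f0 hc χ) y = 0
    rw [hK3, Kl_f0 h3]
    split_ifs
    · ring
    · ring
  have h5 : f0 hc χ ∈ W := by
    rw [sub_eq_zero] at h4
    have h6 : f0 hc χ = C⁻¹ • f3 := by rw [h4, smul_smul, inv_mul_cancel₀ hC0, one_smul]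
    rw [h6]
    exact Submodule.smul_mem _ _ hf3W
  rw [eq_top_iff, ← span_f0, Submodule.span_le]
  rintro _ ⟨g, rfl⟩
  exact hW _ _ h5

/-- The space whose quotient is the twisted Jacquet module. -/
noncomputable def Jtw (hc : φ c = c) (χ : AddChar L ℂ) (Φ : SkewLaurent L φ → ℂ) :
    Submodule ℂ (Vs hc χ) :=
  Submodule.span ℂ {u | ∃ (z : SkewLaurent L φ) (v : Vs hc χ),
    u = rho hc χ (n z) v - Φ z • v}

omit [Finite L] in
theorem tau_ne_zero : tau φ c ≠ 0 := mon_ne_zero (c_ne_zero c)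

/-- The evaluation of the Kirillov transform. -/
noncomputable def ev (hc : φ c = c) (χ : AddChar L ℂ) (y : (SkewLaurent L φ)ˣ) :
    Vs hc χ →ₗ[ℂ] ℂ := (LinearMap.proj y).comp (Kl hc χ)

theorem ev_apply (y : (SkewLaurent L φ)ˣ) (f : Vs hc χ) : ev hc χ y f = Kl hc χ f y := rfl

theorem ker_ev (h3 : ∀ z, φ (φ (φ z)) = z) (hψ1 : trChar φ χ ≠ 1)
    {Φ : SkewLaurent L φ → ℂ} {κ : SkewLaurent L φ} (hκ : κ ≠ 0)
    (hΦ : ∀ z, Φ z = Ps φ χ (κ * z)) : ∃ ys : (SkewLaurent L φ)ˣ,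
      LinearMap.ker (ev hc χ ys) = Jtw hc χ Φ := by
  classical
  set ys : (SkewLaurent L φ)ˣ := (Units.mk0 κ hκ * (Units.mk0 (tau φ c) tau_ne_zero)⁻¹)⁻¹ with hys
  refine ⟨ys, ?_⟩
  have h1 : ((ys⁻¹ : (SkewLaurent L φ)ˣ) : SkewLaurent L φ) * tau φ c = κ := by
    have h2 : ys⁻¹ * Units.mk0 (tau φ c) tau_ne_zero = Units.mk0 κ hκ := by
      rw [hys, inv_inv, inv_mul_cancel_right]
    have h4 := congr_arg (fun u : (SkewLaurent L φ)ˣ => (u : SkewLaurent L φ)) h2
    exact h4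
  have h2 : ∀ z : SkewLaurent L φ, Ps φ χ (tau φ c * (z *
      ((ys⁻¹ : (SkewLaurent L φ)ˣ) : SkewLaurent L φ))) = Φ z := by
    intro z
    rw [hΦ, ← h1, ← mul_assoc, Psi_comm (trChar_inv h3 χ), ← mul_assoc]
  apply le_antisymm
  · intro v hv
    have hv0 : Kl hc χ v ys = 0 := hv
    obtain ⟨k, hk⟩ := Kl_supp v
    obtain ⟨l, hl⟩ := Kl_loc h3 v
    obtain ⟨m1, hm1⟩ := exists_mem_P ((ys⁻¹ : (SkewLaurent L φ)ˣ) : SkewLaurent L φ)
    obtain ⟨m2, hm2⟩ := exists_mem_P (ys : SkewLaurent L φ)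
    set kb : ℤ := max (k : ℤ) (-m1) with hkb
    set a : ℤ := 4 - (l + 1 - m2) with ha
    have h4 : avg a (kb + 4) ys v = 0 := by
      apply Kl_inj h3 hψ1
      intro y
      rw [Kl_avg h3 hψ1]
      · split_ifs with h5
        · rw [mul_eq_zero]
          right
          have h6 : ((ys * y⁻¹ : (SkewLaurent L φ)ˣ) : SkewLaurent L φ) - 1 ∈
              P L φ (l + 1) := by
            have h7 : ((ys * y⁻¹ : (SkewLaurent L φ)ˣ) : SkewLaurent L φ) - 1 =
                (ys : SkewLaurent L φ) * (((y⁻¹ : (SkewLaurent L φ)ˣ) : SkewLaurent L φ) -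
                ((ys⁻¹ : (SkewLaurent L φ)ˣ) : SkewLaurent L φ)) := by
              rw [mul_sub, Units.mul_inv, Units.val_mul]
            rw [h7]
            refine P_anti ?_ (mul_mem_P hm2 h5)
            lia
          have h7 := (inv_sub_one_mem (by lia) h6).2.2
          have h8 : (ys * y⁻¹)⁻¹ * ys = y := by group
          have h9 := hl _ (P_anti (by lia) h7) ys
          rw [h8] at h9
          rw [h9, hv0]
        · rfl
      · intro h5
        refine sub_mem (P_anti (by lia) (hk y h5).2) (P_anti (by lia) hm1)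
    -- the average is congruent to a multiple of `v`
    have h5 : (Nat.card (S L φ a (kb + 4)) : ℂ) • v - avg a (kb + 4) ys v ∈ Jtw hc χ Φ := by
      have h6 : (Nat.card (S L φ a (kb + 4)) : ℂ) • v = ∑ s : S L φ a (kb + 4), v := by
        rw [sum_const, card_univ, Nat.card_eq_fintype_card, Nat.cast_smul_eq_nsmul]
      rw [h6, avg, ← sum_sub_distrib]
      refine sum_mem fun s _ => ?_
      have h7 : v - Ps φ χ (-(tau φ c * ((s : SkewLaurent L φ) *
          ((ys⁻¹ : (SkewLaurent L φ)ˣ) : SkewLaurent L φ)))) •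
          rho hc χ (n (s : SkewLaurent L φ)) v =
          (-Ps φ χ (-(tau φ c * ((s : SkewLaurent L φ) *
          ((ys⁻¹ : (SkewLaurent L φ)ˣ) : SkewLaurent L φ))))) •
          (rho hc χ (n (s : SkewLaurent L φ)) v - Φ (s : SkewLaurent L φ) • v) := by
        rw [smul_sub, smul_smul, neg_smul, ← h2, neg_mul, ← AddChar.map_add_eq_mul,
          neg_add_cancel, AddChar.map_zero_eq_one, neg_smul, one_smul]
        abel
      rw [h7]
      exact Submodule.smul_mem _ _ (Submodule.subset_span ⟨_, _, rfl⟩)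
    rw [h4, sub_zero] at h5
    have h6 := Submodule.smul_mem _ (Nat.card (S L φ a (kb + 4)) : ℂ)⁻¹ h5
    rwa [smul_smul, inv_mul_cancel₀ (card_S_ne_zero _ _), one_smul] at h6
  · rw [Jtw, Submodule.span_le]
    rintro _ ⟨z, v, rfl⟩
    show ev hc χ ys (rho hc χ (n z) v - Φ z • v) = 0
    rw [map_sub, map_smul, ev_apply, ev_apply, Kl_n h3, h2, smul_eq_mul, sub_self]

theorem ev_surjective (h3 : ∀ z, φ (φ (φ z)) = z) (ys : (SkewLaurent L φ)ˣ) :
    Function.Surjective (ev hc χ ys) := by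
  intro r
  refine ⟨r • rho hc χ (d ys⁻¹) (f0 hc χ), ?_⟩
  rw [map_smul, ev_apply, Kl_d, mul_inv_cancel, Kl_f0 h3, if_pos, smul_eq_mul, mul_one]
  rw [Units.val_one, sub_self]
  exact zero_mem _

/-- The twisted Jacquet module is a line. -/
theorem finrank_Jtw (h3 : ∀ z, φ (φ (φ z)) = z) (hψ1 : trChar φ χ ≠ 1)
    {Φ : SkewLaurent L φ → ℂ} {κ : SkewLaurent L φ} (hκ : κ ≠ 0)
    (hΦ : ∀ z, Φ z = Ps φ χ (κ * z)) : Module.finrank ℂ (Vs hc χ ⧸ Jtw hc χ Φ) = 1 := by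
  obtain ⟨ys, hys⟩ := ker_ev (hc := hc) h3 hψ1 hκ hΦ
  rw [← hys]
  rw [((ev hc χ ys).quotKerEquivOfSurjective (ev_surjective h3 ys)).finrank_eq,
    Module.finrank_self]

omit [Finite L] in
/-- The induced representation is cuspidal. -/
theorem cuspidal (h3 : ∀ z, φ (φ (φ z)) = z) (hψ1 : trChar φ χ ≠ 1) :
    Submodule.span ℂ {u | ∃ (z : SkewLaurent L φ) (v : Vs hc χ),
      u = rho hc χ (n z) v - v} = ⊤ := by
  rw [eq_top_iff, ← span_f0, Submodule.span_le]
  rintro _ ⟨g, rfl⟩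
  obtain ⟨w, x, y, hg⟩ := exists_decomp hc g⁻¹
  -- a unipotent matrix acting by a nontrivial scalar on the generator
  obtain ⟨z, hz, hz1⟩ : ∃ z ∈ P L φ 2, Ps φ χ (tau φ c * z) ≠ 1 := by
    apply exists_Psi_ne hψ1
    intro h
    have h1 := h (-3) (by norm_num)
    rw [tau, mon_coeff, if_pos rfl] at h1
    exact c_ne_zero c h1
  have h1 : ∀ h : G L φ, Lam hc χ (h * n z) = Ps φ χ (tau φ c * z) * Lam hc χ h := by
    intro h
    rw [Lam_mul_right h3 χ (InJ_of_InU (InU_n hz)), Lam_n h3 hz, mul_comm]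
  have hg' : g = (n x * d y)⁻¹ * iu hc w⁻¹ := by
    rw [← inv_inv g, hg, map_inv, mul_inv_rev]
  -- the translate of the generator
  have h2 : rho hc χ g (f0 hc χ) = lam χ w⁻¹ • rho hc χ (n x * d y)⁻¹ (f0 hc χ) := by
    apply Subtype.ext
    funext h
    show Lam hc χ (h * g) = lam χ w⁻¹ * Lam hc χ (h * (n x * d y)⁻¹)
    rw [hg', ← mul_assoc, Lam_mul_right h3 χ (InJ_iu _), Lam_iu h3, mul_comm]
  show rho hc χ g (f0 hc χ) ∈ Submodule.span ℂ {u | ∃ (z : SkewLaurent L φ) (v : Vs hc χ),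
      u = rho hc χ (n z) v - v}
  rw [h2]
  apply Submodule.smul_mem
  set v : Vs hc χ := rho hc χ (n x * d y)⁻¹ (f0 hc χ) with hv
  -- conjugation
  set z' : SkewLaurent L φ := ((y⁻¹ : (SkewLaurent L φ)ˣ) : SkewLaurent L φ) with hz'
  have h4 : n (z * (y : SkewLaurent L φ)) * (n x * d y)⁻¹ = (n x * d y)⁻¹ * n z := by
    rw [eq_inv_mul_iff_mul_eq, ← mul_assoc, mul_inv_eq_iff_eq_mul, mul_assoc (n x), d_mul_n,
      mul_assoc z, Units.mul_inv, mul_one, ← mul_assoc, ← mul_assoc, ← n_add, ← n_add, add_comm]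
  have h5 : rho hc χ (n (z * (y : SkewLaurent L φ))) v = Ps φ χ (tau φ c * z) • v := by
    apply Subtype.ext
    funext h
    show Lam hc χ (h * n (z * (y : SkewLaurent L φ)) * (n x * d y)⁻¹) =
      Ps φ χ (tau φ c * z) * Lam hc χ (h * (n x * d y)⁻¹)
    rw [mul_assoc, h4, ← mul_assoc, h1]
  have h6 : v = (Ps φ χ (tau φ c * z) - 1)⁻¹ •
      (rho hc χ (n (z * (y : SkewLaurent L φ))) v - v) := by
    have h7 : ∀ r : ℂ, r • v - v = (r - 1) • v := fun r => by
      rw [_root_.sub_smul r 1 v, one_smul]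
    rw [h5, h7, smul_smul, inv_mul_cancel₀ (sub_ne_zero.2 hz1), one_smul]
  rw [h6]
  exact Submodule.smul_mem _ _ (Submodule.subset_span ⟨_, _, rfl⟩)

end SkewLaurent

end Pool.Agent.UW
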