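import Mathlib

/-!
# Skew Laurent series over a field with an automorphism

`SkewLaurent L φ` is the ring of the formal series `∑ a_i ϖ^i` (`i ≥ n`, `a_i ∈ L`) with
`ϖ a = φ(a) ϖ`.
-/

namespace Pool.Agent.UW

open Finset

/-- Formal series `∑ a_i ϖ^i` with coefficients `a_i = coeff i` in `L` and only finitely many
negative exponents. -/
@[ext]
structure SkewLaurent (L : Type) [Field L] (φ : RingAut L) where
  coeff : ℤ → L
  bdd : ∃ n : ℤ, ∀ i < n, coeff i = 0

namespace SkewLaurent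

variable {L : Type} [Field L] {φ : RingAut L}

instance : Zero (SkewLaurent L φ) := ⟨⟨fun _ => 0, 0, fun _ _ => rfl⟩⟩

instance : One (SkewLaurent L φ) :=
  ⟨⟨fun i => if i = 0 then 1 else 0, 0, fun _ hi => if_neg hi.ne⟩⟩

instance : Add (SkewLaurent L φ) :=
  ⟨fun x y => ⟨fun i => x.coeff i + y.coeff i, by
    obtain ⟨m, hm⟩ := x.bdd
    obtain ⟨n, hn⟩ := y.bdd
    exact ⟨min m n, fun i hi => by
      rw [hm i (hi.trans_le (min_le_left _ _)), hn i (hi.trans_le (min_le_right _ _)), add_zero]⟩⟩⟩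

instance : Neg (SkewLaurent L φ) :=
  ⟨fun x => ⟨fun i => - x.coeff i, by
    obtain ⟨m, hm⟩ := x.bdd
    exact ⟨m, fun i hi => by rw [hm i hi, neg_zero]⟩⟩⟩

/-- `(x y)_n = ∑_i x_i φ^i(y_(n-i))`, because `ϖ^i a = φ^i(a) ϖ^i`. -/
noncomputable instance : Mul (SkewLaurent L φ) :=
  ⟨fun x y => ⟨fun n => ∑ᶠ i : ℤ, x.coeff i * (φ ^ i) (y.coeff (n - i)), by
    obtain ⟨m, hm⟩ := x.bdd
    obtain ⟨k, hk⟩ := y.bdd
    refine ⟨m + k, fun n hn => ?_⟩
    rw [finsum_eq_zero_of_forall_eq_zero]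
    intro i
    rcases lt_or_ge i m with h | h
    · rw [hm i h, zero_mul]
    · rw [hk (n - i) (by lia), map_zero, mul_zero]⟩⟩

theorem coeff_zero (i : ℤ) : (0 : SkewLaurent L φ).coeff i = 0 := rfl

theorem coeff_one (i : ℤ) : (1 : SkewLaurent L φ).coeff i = if i = 0 then 1 else 0 := rfl

theorem coeff_add (x y : SkewLaurent L φ) (i : ℤ) : (x + y).coeff i = x.coeff i + y.coeff i := rfl

theorem coeff_neg (x : SkewLaurent L φ) (i : ℤ) : (-x).coeff i = - x.coeff i := rfl

theorem coeff_mul (x y : SkewLaurent L φ) (n : ℤ) :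
    (x * y).coeff n = ∑ᶠ i : ℤ, x.coeff i * (φ ^ i) (y.coeff (n - i)) := rfl

/-- The coefficient of a product as a finite sum. -/
theorem coeff_mul_eq (x y : SkewLaurent L φ) {m k : ℤ} (hx : ∀ i < m, x.coeff i = 0)
    (hy : ∀ i < k, y.coeff i = 0) (n : ℤ) :
    (x * y).coeff n = ∑ i ∈ Icc m (n - k), x.coeff i * (φ ^ i) (y.coeff (n - i)) := by
  rw [coeff_mul]
  apply finsum_eq_sum_of_support_subset
  intro i hi
  rw [Function.mem_support] at hi
  rw [coe_Icc, Set.mem_Icc]
  constructor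
  · by_contra h
    exact hi (by rw [hx i (by lia), zero_mul])
  · by_contra h
    exact hi (by rw [hy (n - i) (by lia), map_zero, mul_zero])

/-- The endomorphism `a φ^i` of `L`. -/
def cf (φ : RingAut L) (i : ℤ) (a : L) : AddMonoid.End L :=
  (AddMonoidHom.mulLeft a).comp ((φ ^ i : RingAut L) : L →+ L)

theorem cf_apply (i : ℤ) (a b : L) : cf φ i a b = a * (φ ^ i) b := rfl

theorem cf_mul (i j : ℤ) (a b : L) : cf φ i a * cf φ j b = cf φ (i + j) (a * (φ ^ i) b) := by
  ext c
  show cf φ i a (cf φ j b c) = _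
  rw [cf_apply, cf_apply, cf_apply, map_mul, zpow_add]
  show _ = a * (φ ^ i) b * (φ ^ i) ((φ ^ j) c)
  ring

theorem cf_zero (i : ℤ) : cf φ i 0 = 0 := by
  ext c
  rw [cf_apply, zero_mul]
  rfl

theorem cf_inj (i : ℤ) {a b : L} (h : cf φ i a = cf φ i b) : a = b := by
  have h1 := DFunLike.congr_fun h (1 : L)
  rwa [cf_apply, cf_apply, map_one, mul_one, mul_one] at h1

theorem cf_add (i : ℤ) (a b : L) : cf φ i (a + b) = cf φ i a + cf φ i b := by
  ext c
  rw [cf_apply, add_mul]
  rfl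

theorem cf_sum {ι : Type*} (s : Finset ι) (i : ℤ) (f : ι → L) :
    cf φ i (∑ j ∈ s, f j) = ∑ j ∈ s, cf φ i (f j) := by
  classical
  induction s using Finset.induction_on with
  | empty => simp [cf_zero]
  | insert j s hj ih => rw [sum_insert hj, sum_insert hj, cf_add, ih]

/-- The embedding into the ring of Hahn series with coefficients in the endomorphism ring. -/
noncomputable def toH (x : SkewLaurent L φ) : HahnSeries ℤ (AddMonoid.End L) :=
  HahnSeries.ofSuppBddBelow (fun i => cf φ i (x.coeff i)) (by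
    obtain ⟨m, hm⟩ := x.bdd
    refine ⟨m, fun i hi => ?_⟩
    by_contra h
    exact hi (by simp only [hm i (by lia), cf_zero]))

theorem toH_coeff (x : SkewLaurent L φ) (i : ℤ) : x.toH.coeff i = cf φ i (x.coeff i) := rfl

theorem toH_inj : Function.Injective (toH : SkewLaurent L φ → _) := by
  intro x y h
  ext i
  apply cf_inj (φ := φ) i
  rw [← toH_coeff, ← toH_coeff, h]

theorem toH_zero : (0 : SkewLaurent L φ).toH = 0 := by
  ext i : 2
  rw [toH_coeff, coeff_zero, cf_zero, HahnSeries.coeff_zero]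

theorem toH_one : (1 : SkewLaurent L φ).toH = 1 := by
  ext i : 2
  rw [toH_coeff, coeff_one, HahnSeries.coeff_one]
  split_ifs with h
  · subst h
    ext c
    rw [cf_apply]
    simp
  · rw [cf_zero]

theorem toH_add (x y : SkewLaurent L φ) : (x + y).toH = x.toH + y.toH := by
  ext i : 2
  rw [toH_coeff, coeff_add, cf_add, HahnSeries.coeff_add, toH_coeff, toH_coeff]

theorem toH_neg (x : SkewLaurent L φ) : (-x).toH = - x.toH := by
  ext i : 2
  rw [toH_coeff, coeff_neg, HahnSeries.coeff_neg, toH_coeff]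
  ext c
  show - x.coeff i * (φ ^ i) c = - (x.coeff i * (φ ^ i) c)
  ring

theorem toH_mul (x y : SkewLaurent L φ) : (x * y).toH = x.toH * y.toH := by
  ext n : 2
  obtain ⟨m, hm⟩ := x.bdd
  obtain ⟨k, hk⟩ := y.bdd
  rw [toH_coeff, coeff_mul_eq x y hm hk, HahnSeries.coeff_mul, cf_sum]
  symm
  refine sum_of_injOn (fun p => p.1) ?_ ?_ ?_ ?_
  · intro p hp q hq hpq
    simp only [mem_coe, Finset.mem_antidiagonal] at hp hq
    ext
    · exact hpq
    · simp only at hpq
      have h1 := hp.2.2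
      have h2 := hq.2.2
      lia
  · intro p hp
    simp only [mem_coe, Finset.mem_antidiagonal,
      HahnSeries.mem_support, toH_coeff] at hp
    rw [coe_Icc, Set.mem_Icc]
    constructor
    · by_contra h
      exact hp.1 (by rw [hm _ (by lia), cf_zero])
    · by_contra h
      exact hp.2.1 (by rw [hk _ (by lia), cf_zero])
  · intro i hi hni
    by_contra hne
    apply hni
    refine ⟨(i, n - i), ?_, rfl⟩
    simp only [mem_coe, Finset.mem_antidiagonal,
      HahnSeries.mem_support, toH_coeff]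
    refine ⟨fun h0 => hne ?_, fun h0 => hne ?_, by lia⟩
    · have h1 : x.coeff i = 0 := cf_inj (φ := φ) i (by rw [h0, cf_zero])
      rw [h1, zero_mul, cf_zero]
    · have h1 : y.coeff (n - i) = 0 := cf_inj (φ := φ) (n - i) (by rw [h0, cf_zero])
      rw [h1, map_zero, mul_zero, cf_zero]
  · intro p hp
    simp only [Finset.mem_antidiagonal] at hp
    have h1 : p.2 = n - p.1 := by
      have := hp.2.2
      lia
    rw [toH_coeff, toH_coeff, cf_mul, h1]
    congr 1
    lia

noncomputable instance : Ring (SkewLaurent L φ) :=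
  Ring.ofMinimalAxioms
    (fun x y z => toH_inj (by simp only [toH_add, add_assoc]))
    (fun x => toH_inj (by simp only [toH_add, toH_zero, zero_add]))
    (fun x => by ext i; rw [coeff_add, coeff_neg, neg_add_cancel, coeff_zero])
    (fun x y z => toH_inj (by simp only [toH_mul, mul_assoc]))
    (fun x => toH_inj (by simp only [toH_mul, toH_one, one_mul]))
    (fun x => toH_inj (by simp only [toH_mul, toH_one, mul_one]))
    (fun x y z => toH_inj (by simp only [toH_mul, toH_add, mul_add]))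
    (fun x y z => toH_inj (by simp only [toH_mul, toH_add, add_mul]))

theorem coeff_sub (x y : SkewLaurent L φ) (i : ℤ) : (x - y).coeff i = x.coeff i - y.coeff i := by
  rw [sub_eq_add_neg, coeff_add, coeff_neg, sub_eq_add_neg]

theorem coeff_sum {ι : Type*} (s : Finset ι) (f : ι → SkewLaurent L φ) (i : ℤ) :
    (∑ j ∈ s, f j).coeff i = ∑ j ∈ s, (f j).coeff i := by
  classical
  induction s using Finset.induction_on with
  | empty => rfl
  | insert j s hj ih => rw [sum_insert hj, sum_insert hj, coeff_add, ih]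

/-- `P m` is the set of the series with no term `ϖ^i`, `i < m`: the powers of the maximal ideal of
the ring of integers `P 0`. -/
def P (L : Type) [Field L] (φ : RingAut L) (m : ℤ) : AddSubgroup (SkewLaurent L φ) where
  carrier := {x | ∀ i < m, x.coeff i = 0}
  zero_mem' := fun _ _ => rfl
  add_mem' := fun {x y} hx hy i hi => by rw [coeff_add, hx i hi, hy i hi, add_zero]
  neg_mem' := fun {x} hx i hi => by rw [coeff_neg, hx i hi, neg_zero]

theorem mem_P {m : ℤ} {x : SkewLaurent L φ} : x ∈ P L φ m ↔ ∀ i < m, x.coeff i = 0 := Iff.rfl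

theorem P_anti {m n : ℤ} (h : m ≤ n) {x : SkewLaurent L φ} (hx : x ∈ P L φ n) : x ∈ P L φ m :=
  fun i hi => hx i (hi.trans_le h)

theorem exists_mem_P (x : SkewLaurent L φ) : ∃ m, x ∈ P L φ m := x.bdd

/-- The leading coefficients of a product. -/
theorem coeff_mul_add {m k : ℤ} {x y : SkewLaurent L φ} (hx : x ∈ P L φ m) (hy : y ∈ P L φ k)
    (n : ℕ) : (x * y).coeff (m + k + n) =
      ∑ i ∈ range (n + 1), x.coeff (m + i) * (φ ^ (m + i)) (y.coeff (k + (n - i : ℤ))) := by
  rw [coeff_mul_eq x y hx hy]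
  symm
  refine sum_of_injOn (fun i : ℕ => m + i) ?_ ?_ ?_ ?_
  · intro i _ j _ hij
    simp only at hij
    lia
  · intro i hi
    simp only [coe_range, Set.mem_Iio] at hi
    rw [coe_Icc, Set.mem_Icc]
    constructor <;> lia
  · intro i hi hni
    exfalso
    apply hni
    rw [mem_Icc] at hi
    refine ⟨(i - m).toNat, ?_, ?_⟩
    · simp only [coe_range, Set.mem_Iio]
      lia
    · simp only
      lia
  · intro i _
    have h1 : k + ((n : ℤ) - i) = m + k + n - (m + i) := by ring
    rw [h1]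

theorem mul_mem_P {m k : ℤ} {x y : SkewLaurent L φ} (hx : x ∈ P L φ m) (hy : y ∈ P L φ k) :
    x * y ∈ P L φ (m + k) := by
  intro n hn
  rw [coeff_mul_eq x y hx hy, Icc_eq_empty (by lia), sum_empty]

theorem coeff_mul_lead {m k : ℤ} {x y : SkewLaurent L φ} (hx : x ∈ P L φ m) (hy : y ∈ P L φ k) :
    (x * y).coeff (m + k) = x.coeff m * (φ ^ m) (y.coeff k) := by
  have h := coeff_mul_add hx hy 0
  simpa using h

theorem one_mem_P : (1 : SkewLaurent L φ) ∈ P L φ 0 := fun _ hi => if_neg hi.ne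

theorem one_not_mem_P : (1 : SkewLaurent L φ) ∉ P L φ 1 := by
  intro h
  have h1 := h 0 (by norm_num)
  rw [coeff_one, if_pos rfl] at h1
  exact one_ne_zero h1

instance : Nontrivial (SkewLaurent L φ) :=
  ⟨⟨0, 1, fun h => one_not_mem_P (L := L) (φ := φ) (by rw [← h]; exact zero_mem _)⟩⟩

/-- The order of a nonzero series. -/
theorem exists_order {x : SkewLaurent L φ} (hx : x ≠ 0) :
    ∃ m : ℤ, x ∈ P L φ m ∧ x.coeff m ≠ 0 := by
  obtain ⟨b, hb⟩ := x.bdd
  have h1 : ∃ i, x.coeff i ≠ 0 := by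
    by_contra h
    push Not at h
    exact hx (by ext i; exact h i)
  obtain ⟨m, hm, hmin⟩ := Int.exists_least_of_bdd (P := fun i => x.coeff i ≠ 0)
    ⟨b, fun z hz => by
      by_contra h
      exact hz (hb z (by lia))⟩ h1
  refine ⟨m, fun i hi => ?_, hm⟩
  by_contra h
  exact absurd (hmin i h) (by lia)

/-- The coefficients of the right inverse of `x` (with `x ∈ P m`, `x_m ≠ 0`), by recursion. -/
noncomputable def invC (x : SkewLaurent L φ) (m : ℤ) (n : ℕ) : L :=
  (φ ^ (-m)) ((x.coeff m)⁻¹ * ((if n = 0 then 1 else 0) -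
    ∑ i : Fin n, x.coeff (m + (n - i : ℤ)) * (φ ^ (m + (n - i : ℤ))) (invC x m i)))
  termination_by n
  decreasing_by exact i.2

/-- The right inverse of `x`. -/
noncomputable def invS (x : SkewLaurent L φ) (m : ℤ) : SkewLaurent L φ where
  coeff i := if 0 ≤ i + m then invC x m (i + m).toNat else 0
  bdd := ⟨-m, fun i hi => if_neg (by lia)⟩

theorem invS_mem (x : SkewLaurent L φ) (m : ℤ) : invS x m ∈ P L φ (-m) :=
  fun i hi => if_neg (by lia)

theorem invS_coeff (x : SkewLaurent L φ) (m : ℤ) (n : ℕ) :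
    (invS x m).coeff (-m + n) = invC x m n := by
  show (if 0 ≤ -m + n + m then invC x m (-m + n + m).toNat else 0) = _
  rw [if_pos (by lia)]
  congr 1
  lia

theorem mul_invS {x : SkewLaurent L φ} {m : ℤ} (hx : x ∈ P L φ m) (h0 : x.coeff m ≠ 0) :
    x * invS x m = 1 := by
  ext k
  rcases lt_or_ge k 0 with hk | hk
  · have h1 := mul_mem_P hx (invS_mem x m) k (by lia)
    rw [h1, coeff_one, if_neg hk.ne]
  · obtain ⟨n, rfl⟩ := Int.eq_ofNat_of_zero_le hk
    have h1 := coeff_mul_add hx (invS_mem x m) n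
    rw [show m + -m + (n : ℤ) = n by ring] at h1
    rw [h1, sum_range_succ', coeff_one]
    have h2 : (invS x m).coeff (-m + ((n : ℤ) - ((0 : ℕ) : ℤ))) = invC x m n := by
      rw [← invS_coeff]
      congr 1
    rw [h2]
    have h3 : x.coeff (m + ((0 : ℕ) : ℤ)) * (φ ^ (m + ((0 : ℕ) : ℤ))) (invC x m n) =
        (if n = 0 then 1 else 0) -
        ∑ i : Fin n, x.coeff (m + (n - i : ℤ)) * (φ ^ (m + (n - i : ℤ))) (invC x m i) := by
      rw [Nat.cast_zero, add_zero]
      conv_lhs => rw [invC]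
      have h4 : ∀ a : L, (φ ^ m) ((φ ^ (-m)) a) = a := by
        intro a
        rw [zpow_neg]
        exact (φ ^ m).apply_symm_apply a
      rw [h4, mul_inv_cancel_left₀ h0]
    rw [h3]
    have h5 : ∑ k ∈ range n, x.coeff (m + ((k + 1 : ℕ) : ℤ)) *
        (φ ^ (m + ((k + 1 : ℕ) : ℤ))) ((invS x m).coeff (-m + ((n : ℤ) - ((k + 1 : ℕ) : ℤ)))) =
        ∑ i : Fin n, x.coeff (m + (n - i : ℤ)) * (φ ^ (m + (n - i : ℤ))) (invC x m i) := by
      rw [← Fin.sum_univ_eq_sum_range (fun k => x.coeff (m + ((k + 1 : ℕ) : ℤ)) *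
        (φ ^ (m + ((k + 1 : ℕ) : ℤ))) ((invS x m).coeff (-m + ((n : ℤ) - ((k + 1 : ℕ) : ℤ)))))]
      refine Fintype.sum_equiv Fin.revPerm _ _ ?_
      intro i
      have h6 : ((Fin.revPerm i : Fin n) : ℤ) = (n : ℤ) - (i + 1) := by
        rw [Fin.revPerm_apply, Fin.val_rev]
        have := i.2
        lia
      have h7 : (n : ℤ) - ((i : ℕ) + 1 : ℕ) = ((Fin.revPerm i : Fin n) : ℕ) := by
        rw [h6]
        push_cast
        ring
      rw [h7, invS_coeff]
      have h8 : (((i : ℕ) + 1 : ℕ) : ℤ) = (n : ℤ) - ((Fin.revPerm i : Fin n) : ℕ) := by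
        rw [h6]
        push_cast
        ring
      rw [h8]
    rw [h5]
    simp only [Nat.cast_eq_zero, add_sub_cancel]

theorem exists_right_inv {x : SkewLaurent L φ} (hx : x ≠ 0) :
    ∃ y, x * y = 1 ∧ ∀ m : ℤ, x ∈ P L φ m → x.coeff m ≠ 0 → y ∈ P L φ (-m) := by
  obtain ⟨m, hm, h0⟩ := exists_order hx
  refine ⟨invS x m, mul_invS hm h0, ?_⟩
  intro k hk hk0
  have h1 : k = m := by
    rcases lt_trichotomy k m with h | h | h
    · exact absurd (hm k h) hk0
    · exact h
    · exact absurd (hk m h) h0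
  rw [h1]
  exact invS_mem x m

theorem exists_inv (x : SkewLaurent L φ) (hx : x ≠ 0) : ∃ y, x * y = 1 ∧ y * x = 1 := by
  obtain ⟨y, hy, -⟩ := exists_right_inv hx
  have hy0 : y ≠ 0 := by
    rintro rfl
    rw [mul_zero] at hy
    exact zero_ne_one hy
  obtain ⟨z, hz, -⟩ := exists_right_inv hy0
  have h1 : x = z := by
    calc x = x * (y * z) := by rw [hz, mul_one]
      _ = z := by rw [← mul_assoc, hy, one_mul]
  exact ⟨y, hy, by rw [h1, hz]⟩

open Classical in
noncomputable instance : DivisionRing (SkewLaurent L φ) where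
  inv x := if h : x = 0 then 0 else (exists_inv x h).choose
  mul_inv_cancel x hx := by
    show x * (if h : x = 0 then 0 else (exists_inv x h).choose) = 1
    rw [dif_neg hx]
    exact (exists_inv x hx).choose_spec.1
  inv_zero := by
    show (if h : (0 : SkewLaurent L φ) = 0 then 0 else (exists_inv 0 h).choose) = 0
    rw [dif_pos rfl]
  nnqsmul := _
  nnqsmul_def := fun _ _ => rfl
  qsmul := _
  qsmul_def := fun _ _ => rfl

theorem inv_mem_P {x : SkewLaurent L φ} {m : ℤ} (hx : x ∈ P L φ m) (h0 : x.coeff m ≠ 0) :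
    x⁻¹ ∈ P L φ (-m) := by
  have hx0 : x ≠ 0 := by
    rintro rfl
    exact h0 rfl
  obtain ⟨y, hy, h1⟩ := exists_right_inv hx0
  rw [← eq_inv_of_mul_eq_one_right hy]
  exact h1 m hx h0

end SkewLaurent

end Pool.Agent.UW
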