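import Pool.Agent.Helper89_UW.Mon

/-!
# The order and the additive invariant of a nonzero series
-/

namespace Pool.Agent.UW

open Finset

namespace SkewLaurent

variable {L : Type} [Field L] {φ : RingAut L}

open Classical in
/-- The order of a nonzero series. -/
noncomputable def ord (x : SkewLaurent L φ) : ℤ :=
  if h : x = 0 then 0 else (exists_order h).choose

theorem ord_mem {x : SkewLaurent L φ} (hx : x ≠ 0) : x ∈ P L φ (ord x) := by
  rw [ord, dif_neg hx]
  exact (exists_order hx).choose_spec.1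

theorem ord_coeff {x : SkewLaurent L φ} (hx : x ≠ 0) : x.coeff (ord x) ≠ 0 := by
  rw [ord, dif_neg hx]
  exact (exists_order hx).choose_spec.2

theorem ord_eq {x : SkewLaurent L φ} {m : ℤ} (hm : x ∈ P L φ m) (h0 : x.coeff m ≠ 0) :
    ord x = m := by
  have hx : x ≠ 0 := by
    rintro rfl
    exact h0 rfl
  rcases lt_trichotomy (ord x) m with h | h | h
  · exact absurd (hm _ h) (ord_coeff hx)
  · exact h
  · exact absurd (ord_mem hx m h) h0

theorem le_ord {x : SkewLaurent L φ} {m : ℤ} (hx : x ≠ 0) (hm : x ∈ P L φ m) : m ≤ ord x := by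
  by_contra h
  push Not at h
  exact ord_coeff hx (hm _ h)

theorem inv_mem_ord {x : SkewLaurent L φ} (hx : x ≠ 0) : x⁻¹ ∈ P L φ (-ord x) :=
  inv_mem_P (ord_mem hx) (ord_coeff hx)

theorem ord_mul {x y : SkewLaurent L φ} (hx : x ≠ 0) (hy : y ≠ 0) :
    ord (x * y) = ord x + ord y := by
  apply ord_eq (mul_mem_P (ord_mem hx) (ord_mem hy))
  rw [coeff_mul_lead (ord_mem hx) (ord_mem hy)]
  exact mul_ne_zero (ord_coeff hx) ((map_ne_zero _).2 (ord_coeff hy))

/-- The trace form of an automorphism of order three. -/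
def tr (φ : RingAut L) (z : L) : L := z + φ z + φ (φ z)

/-- The norm form of an automorphism of order three. -/
def nm (φ : RingAut L) (z : L) : L := z * φ z * φ (φ z)

/-- The additive invariant of a series of order `m`: the coefficient of `t` of its reduced norm,
divided by the leading coefficient. -/
def Tat (m : ℤ) (x : SkewLaurent L φ) : L :=
  tr φ (x.coeff (m + 3) / x.coeff m)
    - tr φ (x.coeff (m + 1) / x.coeff m * φ (x.coeff (m + 2) / x.coeff m))
    + nm φ (x.coeff (m + 1) / x.coeff m)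

/-- The additive invariant of a nonzero series. -/
noncomputable def T (x : SkewLaurent L φ) : L := Tat (ord x) x

theorem T_inv (h3 : ∀ z, φ (φ (φ z)) = z) (x : SkewLaurent L φ) : φ (T x) = T x := by
  simp only [T, Tat, tr, nm, map_add, map_sub, map_mul, h3]
  ring

theorem T_inv_zpow (h3 : ∀ z, φ (φ (φ z)) = z) (x : SkewLaurent L φ) (j : ℤ) :
    (φ ^ j) (T x) = T x := by
  have hs : φ ∈ MulAction.stabilizer (RingAut L) (T x) := T_inv h3 x
  exact (MulAction.stabilizer (RingAut L) (T x)).zpow_mem hs j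

theorem zpow_add_apply (m : ℤ) (z : L) :
    (φ ^ (m + 1)) z = φ ((φ ^ m) z) ∧ (φ ^ (m + 2)) z = φ (φ ((φ ^ m) z)) ∧
      (φ ^ (m + 3)) z = φ (φ (φ ((φ ^ m) z))) := by
  refine ⟨?_, ?_, ?_⟩
  · rw [add_comm, zpow_add, zpow_one]
    rfl
  · rw [add_comm, zpow_add, show (2 : ℤ) = 1 + 1 by norm_num, zpow_add, zpow_one]
    rfl
  · rw [add_comm, zpow_add, show (3 : ℤ) = 1 + 1 + 1 by norm_num, zpow_add, zpow_add, zpow_one]
    rfl

theorem T_mul (h3 : ∀ z, φ (φ (φ z)) = z) {x y : SkewLaurent L φ} (hx : x ≠ 0) (hy : y ≠ 0) :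
    T (x * y) = T x + T y := by
  have hxm := ord_mem hx
  have hym := ord_mem hy
  have hx0 := ord_coeff hx
  have hy0 := ord_coeff hy
  set m := ord x with hm
  set k := ord y with hk
  rw [← T_inv_zpow h3 y m]
  rw [T, ord_mul hx hy, ← hm, ← hk, T, ← hm, T, ← hk]
  set a := x.coeff m with ha
  set B := (φ ^ m) (y.coeff k) with hB
  have hB0 : B ≠ 0 := (map_ne_zero _).2 hy0
  have e0 : (x * y).coeff (m + k) = a * B := coeff_mul_lead hxm hym
  have e1 : (x * y).coeff (m + k + 1) = a * (φ ^ m) (y.coeff (k + 1)) + x.coeff (m + 1) * φ B := by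
    have h := coeff_mul_add hxm hym 1
    simp only [sum_range_succ, sum_range_zero, Nat.cast_one, Nat.cast_zero, zero_add, add_zero,
      sub_zero, sub_self] at h
    rw [h, (zpow_add_apply m _).1]
  have e2 : (x * y).coeff (m + k + 2) = a * (φ ^ m) (y.coeff (k + 2))
      + x.coeff (m + 1) * φ ((φ ^ m) (y.coeff (k + 1))) + x.coeff (m + 2) * φ (φ B) := by
    have h := coeff_mul_add hxm hym 2
    simp only [sum_range_succ, sum_range_zero, Nat.cast_one, Nat.cast_zero, zero_add, add_zero,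
      sub_zero, sub_self, Nat.cast_ofNat] at h
    rw [h, (zpow_add_apply m _).1, (zpow_add_apply m _).2.1]
    norm_num
    rfl
  have e3 : (x * y).coeff (m + k + 3) = a * (φ ^ m) (y.coeff (k + 3))
      + x.coeff (m + 1) * φ ((φ ^ m) (y.coeff (k + 2)))
      + x.coeff (m + 2) * φ (φ ((φ ^ m) (y.coeff (k + 1)))) + x.coeff (m + 3) * B := by
    have h := coeff_mul_add hxm hym 3
    simp only [sum_range_succ, sum_range_zero, Nat.cast_one, Nat.cast_zero, zero_add, add_zero,
      sub_zero, sub_self, Nat.cast_ofNat] at h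
    rw [h, (zpow_add_apply m _).1, (zpow_add_apply m _).2.1, (zpow_add_apply m _).2.2, h3]
    norm_num
    rfl
  set u1 := x.coeff (m + 1) / a with hu1
  set u2 := x.coeff (m + 2) / a with hu2
  set u3 := x.coeff (m + 3) / a with hu3
  have hx1 : x.coeff (m + 1) = u1 * a := by rw [hu1, div_mul_cancel₀ _ hx0]
  have hx2 : x.coeff (m + 2) = u2 * a := by rw [hu2, div_mul_cancel₀ _ hx0]
  have hx3 : x.coeff (m + 3) = u3 * a := by rw [hu3, div_mul_cancel₀ _ hx0]
  have hV : ∀ z : L, (φ ^ m) z = (φ ^ m) (z / y.coeff k) * B := by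
    intro z
    rw [hB, ← map_mul, div_mul_cancel₀ _ hy0]
  set V1 := (φ ^ m) (y.coeff (k + 1) / y.coeff k) with hV1
  set V2 := (φ ^ m) (y.coeff (k + 2) / y.coeff k) with hV2
  set V3 := (φ ^ m) (y.coeff (k + 3) / y.coeff k) with hV3
  set r := φ B / B with hr
  have hB1 : φ B ≠ 0 := (map_ne_zero _).2 hB0
  have hB2 : φ (φ B) ≠ 0 := (map_ne_zero _).2 hB1
  have f1 : (x * y).coeff (m + k + 1) / (x * y).coeff (m + k) = V1 + u1 * r := by
    rw [e0, e1, hV (y.coeff (k + 1)), hx1, hr]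
    field_simp
    ring
  have hr1 : φ r = φ (φ B) / φ B := by rw [hr, map_div₀]
  have hr2 : φ (φ r) = B / φ (φ B) := by rw [hr1, map_div₀, h3]
  have hrr : r * φ r * φ (φ r) = 1 := by
    rw [hr2, hr1, hr]
    field_simp
  have f2 : (x * y).coeff (m + k + 2) / (x * y).coeff (m + k) =
      V2 + u1 * r * φ V1 + u2 * (r * φ r) := by
    rw [e0, e2, hV (y.coeff (k + 2)), hV (y.coeff (k + 1)), hx1, hx2, map_mul, hr1, hr]
    field_simp
    ring
  have f3 : (x * y).coeff (m + k + 3) / (x * y).coeff (m + k) =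
      V3 + u1 * r * φ V2 + u2 * (r * φ r) * φ (φ V1) + u3 := by
    rw [e0, e3, hV (y.coeff (k + 3)), hV (y.coeff (k + 2)), hV (y.coeff (k + 1)), hx1, hx2, hx3,
      map_mul, map_mul, map_mul, hr1, hr]
    field_simp
    ring
  rw [Tat, f1, f2, f3]
  have hc : (φ ^ m) (Tat k y) = tr φ V3 - tr φ (V1 * φ V2) + nm φ V1 := by
    have hcomm : ∀ z : L, (φ ^ m) (φ z) = φ ((φ ^ m) z) := by
      intro z
      have h1 : φ ^ m * φ = φ * φ ^ m := (Commute.refl φ).zpow_left m
      exact DFunLike.congr_fun h1 z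
    simp only [Tat, tr, nm, map_add, map_sub, map_mul, hcomm, hV1, hV2, hV3]
  rw [hc]
  simp only [Tat, tr, nm, map_add, map_mul, h3, ← hu1, ← hu2, ← hu3, ← ha]
  linear_combination (u1 * φ u1 * φ (φ u1) - (u1 * φ u2 + φ u1 * φ (φ u2) + φ (φ u1) * u2)) * hrr

theorem ord_one_add {y : SkewLaurent L φ} (hy : y ∈ P L φ 1) : ord (1 + y) = 0 := by
  apply ord_eq
  · exact add_mem one_mem_P (P_anti (by norm_num) hy)
  · rw [coeff_add, coeff_one, if_pos rfl, hy 0 (by norm_num), add_zero]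
    exact one_ne_zero

theorem T_one_add {y : SkewLaurent L φ} (hy : y ∈ P L φ 2) : T (1 + y) = tr φ (y.coeff 3) := by
  rw [T, ord_one_add (P_anti (by norm_num) hy), Tat]
  simp only [coeff_add, coeff_one, zero_add, if_true, hy 0 (by norm_num), hy 1 (by norm_num)]
  norm_num [tr, nm]

end SkewLaurent

end Pool.Agent.UW
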