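import Pool.Agent.Helper89_UW.Lam

/-!
# The induced representation
-/

namespace Pool.Agent.UW

open Finset

namespace SkewLaurent

variable {L : Type} [Field L] {φ : RingAut L} {c : L} [Fact (∀ r : L, r ^ 2 ≠ c + 0 * r)]

/-- Right translation of functions. -/
noncomputable def R (g : G L φ) : (G L φ → ℂ) →ₗ[ℂ] (G L φ → ℂ) where
  toFun f h := f (h * g)
  map_add' _ _ := rfl
  map_smul' _ _ := rfl

omit [Fact (∀ r : L, r ^ 2 ≠ c + 0 * r)] in
theorem R_apply (g : G L φ) (f : G L φ → ℂ) (h : G L φ) : R g f h = f (h * g) := rfl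

omit [Fact (∀ r : L, r ^ 2 ≠ c + 0 * r)] in
theorem R_mul (g h : G L φ) (f : G L φ → ℂ) : R (g * h) f = R g (R h f) := by
  funext x
  rw [R_apply, R_apply, R_apply, mul_assoc]

omit [Fact (∀ r : L, r ^ 2 ≠ c + 0 * r)] in
theorem R_one (f : G L φ → ℂ) : R 1 f = f := by
  funext x
  rw [R_apply, mul_one]

/-- The space of the induced representation. -/
noncomputable def Vs (hc : φ c = c) (χ : AddChar L ℂ) : Submodule ℂ (G L φ → ℂ) :=
  Submodule.span ℂ (Set.range fun g => R g (Lam hc χ))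

variable {hc : φ c = c} {χ : AddChar L ℂ}

theorem R_mem (g : G L φ) (f : G L φ → ℂ) (hf : f ∈ Vs hc χ) : R g f ∈ Vs hc χ := by
  refine Submodule.span_induction ?_ ?_ ?_ ?_ hf
  · rintro _ ⟨h, rfl⟩
    refine Submodule.subset_span ⟨g * h, ?_⟩
    show R (g * h) (Lam hc χ) = R g (R h (Lam hc χ))
    rw [R_mul]
  · rw [map_zero]
    exact zero_mem _
  · intro x y _ _ hx hy
    rw [map_add]
    exact add_mem hx hy
  · intro a x _ hx
    rw [map_smul]
    exact Submodule.smul_mem _ _ hx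

theorem Lam_mem : Lam hc χ ∈ Vs hc χ :=
  Submodule.subset_span ⟨1, R_one _⟩

theorem Vs_equiv (h3 : ∀ z, φ (φ (φ z)) = z) {f : G L φ → ℂ} (hf : f ∈ Vs hc χ) {j : G L φ}
    (hj : InJ hc j) (g : G L φ) : f (j * g) = Lam hc χ j * f g := by
  refine Submodule.span_induction ?_ ?_ ?_ ?_ hf
  · rintro _ ⟨h, rfl⟩
    show Lam hc χ (j * g * h) = Lam hc χ j * Lam hc χ (g * h)
    rw [mul_assoc, Lam_mul h3 χ hj]
  · show (0 : ℂ) = _ * 0
    rw [mul_zero]
  · intro x y _ _ hx hy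
    show x (j * g) + y (j * g) = _ * (x g + y g)
    rw [hx, hy, mul_add]
  · intro a x _ hx
    show a * x (j * g) = _ * (a * x g)
    rw [hx]
    ring

theorem Lam_translate_bdd {g : G L φ} {k : ℕ} (hk : (g : M L φ) ∈ MP L φ (-k))
    (hk' : ((g⁻¹ : G L φ) : M L φ) ∈ MP L φ (-k)) {x : SkewLaurent L φ} {y : (SkewLaurent L φ)ˣ}
    (h : InJ hc (n x * d y * g)) : x ∈ P L φ (-(k + k)) ∧
      (y : SkewLaurent L φ) ∈ P L φ (-(k + k)) ∧
      ((y⁻¹ : (SkewLaurent L φ)ˣ) : SkewLaurent L φ) ∈ P L φ (-(k + k)) := by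
  obtain ⟨w, u, hu, h1⟩ := h
  set b : G L φ := n x * d y with hb
  have hu0 : (u : M L φ) ∈ MP L φ 0 := hu.mem (by norm_num)
  have hu1 : ((u⁻¹ : G L φ) : M L φ) ∈ MP L φ 0 := hu.inv_mem (by norm_num)
  have hcol : colW hc (b : M L φ) = 1 := by
    rw [hb, nd_val]
    apply eq_of_Re_Im
    · rw [colW, Re_pair, Re_one]
      rfl
    · rw [colW, Im_pair, Im_one]
      show Cc φ c⁻¹ * 0 = 0
      rw [mul_zero]
  have hb1 : b = iu hc w * (u * g⁻¹) := by
    rw [← mul_assoc, ← h1, mul_inv_cancel_right]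
  -- bounds for `w`
  have hw0 := w.ne_zero
  have h2 : colW hc ((u * g⁻¹ : G L φ) : M L φ) = ((w⁻¹ : (Dq hc)ˣ) : Dq hc) := by
    have h3 : u * g⁻¹ = iu hc w⁻¹ * b := by rw [hb1, map_inv, inv_mul_cancel_left]
    rw [h3, Units.val_mul, iu_val, colW_iota_mul, hcol, mul_one]
  have h3 : ((w⁻¹ : (Dq hc)ˣ) : Dq hc) ∈ P _ _ (-(k : ℤ)) := by
    rw [← h2]
    apply colW_mem
    rw [Units.val_mul]
    have h4 := MP_mul hu0 hk'
    rwa [zero_add] at h4
  have h4 : (w : Dq hc) ∈ P _ _ (-(k : ℤ)) := by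
    have h5 : ord (w : Dq hc) = -ord ((w⁻¹ : (Dq hc)ˣ) : Dq hc) := by
      have h6 := ord_mul w.ne_zero (w⁻¹).ne_zero
      rw [Units.mul_inv] at h6
      have h7 : ord (1 : Dq hc) = 0 := by
        apply ord_eq one_mem_P
        rw [coeff_one, if_pos rfl]
        exact one_ne_zero
      lia
    -- the order of `w⁻¹` is at most `k`
    have h6 : ord ((w⁻¹ : (Dq hc)ˣ) : Dq hc) ≤ k := by
      by_contra hcon
      push Not at hcon
      have h7 : ((w⁻¹ : (Dq hc)ˣ) : Dq hc) ∈ P _ _ ((k : ℤ) + 1) :=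
        P_anti (by lia) (ord_mem (w⁻¹).ne_zero)
      -- the first column of `u g⁻¹`
      have h8 : ((u * g⁻¹ : G L φ) : M L φ) 0 0 ∈ P L φ ((k : ℤ) + 1) ∧
          ((u * g⁻¹ : G L φ) : M L φ) 1 0 ∈ P L φ ((k : ℤ) + 1) := by
        rw [← h2, mem_P_iff] at h7
        refine ⟨h7.1, ?_⟩
        have h9 := Cc_mem (c := c) h7.2
        rwa [colW, Im_pair, Cc_inv] at h9
      have h9 : (g * u⁻¹ * (u * g⁻¹) : G L φ) = 1 := by group
      have h10 : ((g * u⁻¹ * (u * g⁻¹) : G L φ) : M L φ) 0 0 = ((1 : G L φ) : M L φ) 0 0 := by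
        rw [h9]
      rw [Units.val_mul, Matrix.mul_apply, Fin.sum_univ_two, Units.val_one,
        Matrix.one_apply_eq] at h10
      have h11 : ((g * u⁻¹ : G L φ) : M L φ) ∈ MP L φ (-(k : ℤ) + 0) := by
        rw [Units.val_mul]
        exact MP_mul hk hu1
      have h12 := add_mem (mul_mem_P (h11 0 0) h8.1) (mul_mem_P (h11 0 1) h8.2)
      rw [h10] at h12
      exact one_not_mem_P (P_anti (by lia) h12)
    exact P_anti (by lia) (ord_mem hw0)
  -- bounds for `b`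
  have h5 : (b : M L φ) ∈ MP L φ (-(k + k)) := by
    rw [hb1, Units.val_mul, Units.val_mul, iu_val]
    refine MP_anti ?_ (MP_mul (iota_mem h4) (MP_mul hu0 hk'))
    lia
  have h6 : ((b⁻¹ : G L φ) : M L φ) ∈ MP L φ (-(k + k)) := by
    have h7 : b⁻¹ = g * u⁻¹ * iu hc w⁻¹ := by
      rw [hb1, map_inv]
      group
    rw [h7, Units.val_mul, Units.val_mul, iu_val]
    refine MP_anti ?_ (MP_mul (MP_mul hk hu1) (iota_mem h3))
    lia
  have e1 := h5 1 1
  have e2 := h6 0 1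
  have e3 := h6 1 1
  rw [hb, nd_val] at e1
  rw [hb, nd_inv_val] at e2 e3
  refine ⟨?_, e1, e3⟩
  have e4 : -x ∈ P L φ (-(k + k)) := e2
  rw [← neg_neg x]
  exact neg_mem e4

/-- The functions of the induced representation have bounded support. -/
theorem Vs_bdd {f : G L φ → ℂ} (hf : f ∈ Vs hc χ) : ∃ k : ℕ, ∀ (x : SkewLaurent L φ)
    (y : (SkewLaurent L φ)ˣ), f (n x * d y) ≠ 0 → x ∈ P L φ (-k) ∧
      (y : SkewLaurent L φ) ∈ P L φ (-k) ∧
      ((y⁻¹ : (SkewLaurent L φ)ˣ) : SkewLaurent L φ) ∈ P L φ (-k) := by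
  refine Submodule.span_induction ?_ ?_ ?_ ?_ hf
  · rintro _ ⟨g, rfl⟩
    obtain ⟨k, hk, hk'⟩ := exists_MP_G g
    refine ⟨k + k, fun x y h => ?_⟩
    have h1 : InJ hc (n x * d y * g) := by
      by_contra h2
      exact h (Lam_of_not χ h2)
    have h2 := Lam_translate_bdd hk hk' h1
    rw [Nat.cast_add]
    exact h2
  · exact ⟨0, fun x y h => absurd rfl h⟩
  · rintro f1 f2 _ _ ⟨k, hk⟩ ⟨l, hl⟩
    refine ⟨max k l, fun x y h => ?_⟩
    have h1 : f1 (n x * d y) ≠ 0 ∨ f2 (n x * d y) ≠ 0 := by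
      by_contra h2
      push Not at h2
      apply h
      show f1 (n x * d y) + f2 (n x * d y) = 0
      rw [h2.1, h2.2, add_zero]
    rcases h1 with h1 | h1
    · obtain ⟨a, b, e⟩ := hk x y h1
      refine ⟨P_anti ?_ a, P_anti ?_ b, P_anti ?_ e⟩ <;> push_cast <;> lia
    · obtain ⟨a, b, e⟩ := hl x y h1
      refine ⟨P_anti ?_ a, P_anti ?_ b, P_anti ?_ e⟩ <;> push_cast <;> lia
  · rintro a f1 _ ⟨k, hk⟩
    refine ⟨k, fun x y h => hk x y ?_⟩
    intro h1
    apply h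
    show a * f1 (n x * d y) = 0
    rw [h1, mul_zero]

theorem R_Lam_InU (h3 : ∀ z, φ (φ (φ z)) = z) {u : G L φ} (hu : InU 4 u) :
    R u (Lam hc χ) = Lam hc χ := by
  funext g
  rw [R_apply, Lam_mul_right h3 χ (InJ_of_InU (hu.anti (by norm_num))),
    Lam_InU h3 χ (hu.anti (by norm_num)), psib_triv χ hu, mul_one]

/-- The induced representation is smooth. -/
theorem Vs_smooth (h3 : ∀ z, φ (φ (φ z)) = z) {f : G L φ → ℂ} (hf : f ∈ Vs hc χ) :
    ∃ k : ℕ, ∀ u : G L φ, InU k u → R u f = f := by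
  refine Submodule.span_induction ?_ ?_ ?_ ?_ hf
  · rintro _ ⟨g, rfl⟩
    obtain ⟨k, hk, hk'⟩ := exists_MP_G g
    refine ⟨4 + k + k, fun u hu => ?_⟩
    have h1 : InU 4 (g⁻¹ * u * g) := by
      have h2 := InU.conj (h := g⁻¹) hu hk' (by rw [inv_inv]; exact hk)
      rw [inv_inv] at h2
      refine h2.anti ?_
      push_cast
      lia
    show R u (R g (Lam hc χ)) = R g (Lam hc χ)
    rw [← R_mul, show u * g = g * (g⁻¹ * u * g) by group, R_mul, R_Lam_InU h3 h1]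
  · exact ⟨0, fun u _ => map_zero _⟩
  · rintro f1 f2 _ _ ⟨k, hk⟩ ⟨l, hl⟩
    refine ⟨max k l, fun u hu => ?_⟩
    rw [map_add, hk u (hu.anti (by push_cast; lia)), hl u (hu.anti (by push_cast; lia))]
  · rintro a f1 _ ⟨k, hk⟩
    exact ⟨k, fun u hu => by rw [map_smul, hk u hu]⟩

/-- The induced representation. -/
noncomputable def rho (hc : φ c = c) (χ : AddChar L ℂ) : Representation ℂ (G L φ) (Vs hc χ) where
  toFun g := (R g).restrict (R_mem g)
  map_one' := by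
    ext f : 2
    exact R_one _
  map_mul' g h := by
    ext f : 2
    exact R_mul g h _

theorem rho_val (g : G L φ) (f : Vs hc χ) : ((rho hc χ g f : Vs hc χ) : G L φ → ℂ) = R g f := rfl

/-- The generator. -/
noncomputable def f0 (hc : φ c = c) (χ : AddChar L ℂ) : Vs hc χ := ⟨Lam hc χ, Lam_mem⟩

theorem span_f0 : Submodule.span ℂ (Set.range fun g => rho hc χ g (f0 hc χ)) = ⊤ := by
  rw [eq_top_iff]
  rintro ⟨f, hf⟩ -
  have h1 : ∀ f' : G L φ → ℂ, (hf' : f' ∈ Vs hc χ) → (⟨f', hf'⟩ : Vs hc χ) ∈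
      Submodule.span ℂ (Set.range fun g => rho hc χ g (f0 hc χ)) := by
    intro f' hf'
    refine Submodule.span_induction (p := fun f' hf' => (⟨f', hf'⟩ : Vs hc χ) ∈
      Submodule.span ℂ (Set.range fun g => rho hc χ g (f0 hc χ))) ?_ ?_ ?_ ?_ hf'
    · rintro _ ⟨g, rfl⟩
      exact Submodule.subset_span ⟨g, rfl⟩
    · exact zero_mem _
    · intro x y hx hy h1 h2
      exact add_mem h1 h2
    · intro a x hx h1
      exact Submodule.smul_mem _ a h1
  exact h1 f hf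

end SkewLaurent

end Pool.Agent.UW
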